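import Pool.Agent.MP_4060c9_nt.H38.Spec

/-! Basic facts on `ip`, `nn`, `Le`, `Pr`, `Adm`. -/

namespace Pool.Agent.MP_4060c9_nt.H38

open Polynomial Finset Filter

noncomputable section

theorem ip_eq {A : ℕ[X]} (B : ℕ[X]) {s : Finset ℕ} (h : A.support ⊆ s) :
    ip A B = ∑ i ∈ s, (A.coeff i : ℝ) * B.coeff i :=
  sum_subset h fun i _ hi => by rw [notMem_support_iff.1 hi]; simp

theorem ip_comm (A B : ℕ[X]) : ip A B = ip B A := by
  rw [ip_eq B (subset_union_left (s₂ := B.support)), ip_eq A (subset_union_right (s₁ := A.support))]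
  exact sum_congr rfl fun i _ => mul_comm _ _

theorem ip_nonneg (A B : ℕ[X]) : 0 ≤ ip A B := sum_nonneg fun _ _ => by positivity

theorem nn_nonneg (A : ℕ[X]) : 0 ≤ nn A := ip_nonneg A A

theorem ip_add_right (A B C : ℕ[X]) : ip A (B + C) = ip A B + ip A C := by
  simp only [ip, coeff_add, Nat.cast_add, mul_add, sum_add_distrib]

theorem ip_add_left (A B C : ℕ[X]) : ip (A + B) C = ip A C + ip B C := by
  rw [ip_comm, ip_add_right, ip_comm C, ip_comm C]

@[simp] theorem ip_zero_right (A : ℕ[X]) : ip A 0 = 0 := by simp [ip]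

@[simp] theorem ip_zero_left (A : ℕ[X]) : ip 0 A = 0 := by simp [ip]

theorem ip_sum_right {ι : Type*} (A : ℕ[X]) (s : Finset ι) (B : ι → ℕ[X]) :
    ip A (∑ i ∈ s, B i) = ∑ i ∈ s, ip A (B i) := by
  classical
  induction s using Finset.induction_on with
  | empty => simp
  | insert a s h ih => rw [sum_insert h, sum_insert h, ip_add_right, ih]

theorem ip_sum_left {ι : Type*} (s : Finset ι) (A : ι → ℕ[X]) (B : ℕ[X]) :
    ip (∑ i ∈ s, A i) B = ∑ i ∈ s, ip (A i) B := by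
  rw [ip_comm, ip_sum_right]
  exact sum_congr rfl fun i _ => ip_comm _ _

theorem ip_natCast_right (A B : ℕ[X]) (m : ℕ) : ip A ((m : ℕ[X]) * B) = m * ip A B := by
  induction m with
  | zero => simp
  | succ m ih => push_cast; rw [add_mul, one_mul, ip_add_right, ih]; ring

theorem ip_natCast_left (A B : ℕ[X]) (m : ℕ) : ip ((m : ℕ[X]) * A) B = m * ip A B := by
  rw [ip_comm, ip_natCast_right, ip_comm]

theorem nn_natCast (A : ℕ[X]) (m : ℕ) : nn ((m : ℕ[X]) * A) = (m : ℝ) ^ 2 * nn A := by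
  unfold nn
  rw [ip_natCast_left, ip_natCast_right]
  ring

theorem Le.refl (A : ℕ[X]) : Le A A := ⟨0, (add_zero A).symm⟩

theorem Le.of_eq {A B : ℕ[X]} (h : A = B) : Le A B := h ▸ Le.refl A

theorem Le.trans {A B C : ℕ[X]} (h : Le A B) (h' : Le B C) : Le A C := by
  obtain ⟨u, rfl⟩ := h
  obtain ⟨v, rfl⟩ := h'
  exact ⟨u + v, add_assoc _ _ _⟩

theorem Le.zero (A : ℕ[X]) : Le 0 A := ⟨A, (zero_add A).symm⟩

theorem Le.add {A B C D : ℕ[X]} (h : Le A B) (h' : Le C D) : Le (A + C) (B + D) := by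
  obtain ⟨u, rfl⟩ := h
  obtain ⟨v, rfl⟩ := h'
  exact ⟨u + v, by ring⟩

theorem Le.mul {A B C D : ℕ[X]} (h : Le A B) (h' : Le C D) : Le (A * C) (B * D) := by
  obtain ⟨u, rfl⟩ := h
  obtain ⟨v, rfl⟩ := h'
  exact ⟨A * v + u * C + u * v, by ring⟩

theorem Le.sum {ι : Type*} {s : Finset ι} {A B : ι → ℕ[X]} (h : ∀ i ∈ s, Le (A i) (B i)) :
    Le (∑ i ∈ s, A i) (∑ i ∈ s, B i) := by
  classical
  induction s using Finset.induction_on with
  | empty => simpa using Le.refl 0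
  | insert a s ha ih =>
    rw [sum_insert ha, sum_insert ha]
    exact (h a (mem_insert_self _ _)).add (ih fun i hi => h i (mem_insert_of_mem hi))

theorem Le.sum_subset {ι : Type*} {s t : Finset ι} (A : ι → ℕ[X]) (h : s ⊆ t) :
    Le (∑ i ∈ s, A i) (∑ i ∈ t, A i) := by
  classical
  exact ⟨∑ i ∈ t \ s, A i, by rw [add_comm, sum_sdiff h]⟩

theorem Le.natCast {a b : ℕ} (h : a ≤ b) : Le (a : ℕ[X]) b := by
  obtain ⟨c, rfl⟩ := Nat.exists_eq_add_of_le h
  exact ⟨c, by push_cast; rfl⟩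

theorem Le.expand {A B : ℕ[X]} (h : Le A B) (c : ℕ) : Le (expand ℕ c A) (expand ℕ c B) := by
  obtain ⟨u, rfl⟩ := h
  exact ⟨_, map_add _ _ _⟩

theorem gen_mono {ι : Type} {Z Z' : Finset ι} (d : ι → ℕ) (h : Z ⊆ Z') : Le (gen Z d) (gen Z' d) :=
  Le.sum_subset _ h

theorem ip_mono {A B C D : ℕ[X]} (h : Le A B) (h' : Le C D) : ip A C ≤ ip B D := by
  obtain ⟨u, rfl⟩ := h
  obtain ⟨v, rfl⟩ := h'
  rw [ip_add_left, ip_add_right, ip_add_right]
  linarith [ip_nonneg A v, ip_nonneg u C, ip_nonneg u v]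

theorem nn_mono {A B : ℕ[X]} (h : Le A B) : nn A ≤ nn B := ip_mono h h

theorem ip_sq_le (A B : ℕ[X]) : ip A B ^ 2 ≤ nn A * nn B := by
  unfold nn
  rw [ip_eq B (subset_union_left (s₂ := B.support)), ip_eq A (subset_union_left (s₂ := B.support)),
    ip_eq B (subset_union_right (s₁ := A.support))]
  simpa only [sq] using sum_mul_sq_le_sq_mul_sq (A.support ∪ B.support)
    (fun i => (A.coeff i : ℝ)) fun i => (B.coeff i : ℝ)

/-- Cauchy-Schwarz without square roots. -/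
theorem ip_le_of {A B : ℕ[X]} {Y M : ℝ} (hY : 0 ≤ Y) (hM : 0 ≤ M) (hA : nn A ≤ Y ^ 2 * M)
    (hB : nn B ≤ M) : ip A B ≤ Y * M := by
  refine abs_le_of_sq_le_sq' ?_ (by positivity) |>.2
  refine (ip_sq_le A B).trans ?_
  calc nn A * nn B ≤ Y ^ 2 * M * M := mul_le_mul hA hB (nn_nonneg _) (by positivity)
    _ = (Y * M) ^ 2 := by ring

theorem two_ip_le (A B : ℕ[X]) : 2 * ip A B ≤ nn A + nn B := by
  have h := ip_sq_le A B
  have a := nn_nonneg A
  have b := nn_nonneg B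
  refine abs_le_of_sq_le_sq' ?_ (by positivity) |>.2
  nlinarith [sq_nonneg (nn A - nn B)]

theorem nn_add_le (A B : ℕ[X]) : nn (A + B) ≤ 2 * nn A + 2 * nn B := by
  have h := two_ip_le A B
  unfold nn at *
  rw [ip_add_left, ip_add_right, ip_add_right, ip_comm B A]
  linarith

theorem nn_sum_eq {ι : Type*} (s : Finset ι) (A : ι → ℕ[X]) :
    nn (∑ i ∈ s, A i) = ∑ i ∈ s, ∑ j ∈ s, ip (A i) (A j) := by
  unfold nn
  rw [ip_sum_left]
  exact sum_congr rfl fun i _ => ip_sum_right _ _ _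

theorem nn_sum_le {ι : Type*} (s : Finset ι) (A : ι → ℕ[X]) :
    nn (∑ i ∈ s, A i) ≤ s.card * ∑ i ∈ s, nn (A i) := by
  rw [nn_sum_eq]
  have h : ∑ i ∈ s, ∑ j ∈ s, ip (A i) (A j) ≤ ∑ i ∈ s, ∑ j ∈ s, (nn (A i) + nn (A j)) / 2 :=
    sum_le_sum fun i _ => sum_le_sum fun j _ => by linarith [two_ip_le (A i) (A j)]
  refine h.trans (le_of_eq ?_)
  simp only [add_div, sum_add_distrib, sum_const, nsmul_eq_mul, ← mul_sum, ← sum_div]
  ring

theorem ip_monomial (a x : ℕ) (B : ℕ[X]) : ip (monomial a x) B = x * B.coeff a := by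
  rw [ip_eq B (support_monomial' a x)]
  simp

theorem ip_X_pow_mul (a : ℕ) (A B : ℕ[X]) : ip (X ^ a * A) (X ^ a * B) = ip A B := by
  induction A using Polynomial.induction_on' with
  | add p q hp hq => rw [mul_add, ip_add_left, ip_add_left, hp, hq]
  | monomial n x =>
    rw [X_pow_mul_monomial, ip_monomial, ip_monomial, coeff_X_pow_mul]

theorem nn_X_pow_mul (a : ℕ) (A : ℕ[X]) : nn (X ^ a * A) = nn A := ip_X_pow_mul a A A

theorem ip_X_pow_add (a b : ℕ) (A B : ℕ[X]) :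
    ip (X ^ (a + b) * A) (X ^ a * B) = ip (X ^ b * A) B := by
  rw [pow_add, mul_assoc, ip_X_pow_mul]

theorem ip_X_pow_le (a b : ℕ) (A : ℕ[X]) : ip (X ^ a * A) (X ^ b * A) ≤ nn A := by
  have := two_ip_le (X ^ a * A) (X ^ b * A)
  rw [nn_X_pow_mul, nn_X_pow_mul] at this
  linarith

theorem ip_expand {c : ℕ} (hc : 0 < c) (A B : ℕ[X]) :
    ip (expand ℕ c A) (expand ℕ c B) = ip A B := by
  induction A using Polynomial.induction_on' with
  | add p q hp hq => rw [map_add, ip_add_left, ip_add_left, hp, hq]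
  | monomial n x => rw [expand_monomial, ip_monomial, ip_monomial, coeff_expand_mul hc]

theorem nn_GG (k s : ℕ) (PP : Finset ℕ) {c : ℕ} (hc : 0 < c) (n : ℕ) :
    nn (GG k s PP c n) = SS k s PP n := ip_expand hc _ _

theorem ip_expand_zero {c a b : ℕ} (hc : 0 < c) (h : ¬ a ≡ b [MOD c]) (A B : ℕ[X]) :
    ip (X ^ a * expand ℕ c A) (X ^ b * expand ℕ c B) = 0 := by
  induction A using Polynomial.induction_on' with
  | add p q hp hq => rw [map_add, mul_add, ip_add_left, hp, hq, add_zero]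
  | monomial n x =>
    rw [expand_monomial, X_pow_mul_monomial, ip_monomial, coeff_X_pow_mul', coeff_expand hc]
    split_ifs with h1 h2
    · exfalso
      apply h
      have h3 : b ≡ n * c + a [MOD c] := (Nat.modEq_iff_dvd' h1).2 h2
      have h4 : n * c + a ≡ a [MOD c] := by simp [Nat.ModEq]
      exact (h3.trans h4).symm
    · simp
    · simp

theorem EE_eq (k s : ℕ) (PP : Finset ℕ) {ι : Type} (Z : Finset ι) (d : ι → ℕ) (c n : ℕ) :
    EE k s PP Z d c n =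
      ∑ z ∈ Z, ∑ z' ∈ Z, ip (X ^ d z * GG k s PP c n) (X ^ d z' * GG k s PP c n) := by
  unfold EE gen
  rw [sum_mul, nn_sum_eq]

theorem EE_nonneg (k s : ℕ) (PP : Finset ℕ) {ι : Type} (Z : Finset ι) (d : ι → ℕ) (c n : ℕ) :
    0 ≤ EE k s PP Z d c n := nn_nonneg _

theorem EE_mono (k s : ℕ) (PP : Finset ℕ) {ι : Type} {Z Z' : Finset ι} (h : Z ⊆ Z') (d : ι → ℕ)
    (c n : ℕ) : EE k s PP Z d c n ≤ EE k s PP Z' d c n :=
  nn_mono ((gen_mono d h).mul (Le.refl _))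

theorem EE_triv (k s : ℕ) (PP : Finset ℕ) {ι : Type} (Z : Finset ι) (d : ι → ℕ) {c : ℕ}
    (hc : 0 < c) (n : ℕ) : EE k s PP Z d c n ≤ (Z.card : ℝ) ^ 2 * SS k s PP n := by
  rw [EE_eq, ← nn_GG k s PP hc]
  refine (sum_le_sum fun z _ => sum_le_sum fun z' _ => ip_X_pow_le _ _ _).trans (le_of_eq ?_)
  simp only [sum_const, nsmul_eq_mul]
  ring

/-- Splitting into classes; only congruent values contribute. -/
theorem EE_cls (k s : ℕ) (PP : Finset ℕ) {ι κ : Type} [DecidableEq κ] (Z : Finset ι) (d : ι → ℕ)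
    {c : ℕ} (hc : 0 < c) (n : ℕ) (cl : ι → κ) (K : Finset κ) (hK : ∀ z ∈ Z, cl z ∈ K) :
    EE k s PP Z d c n ≤ K.card *
      ∑ b ∈ (Z ×ˢ Z).filter (fun b => cl b.1 = cl b.2 ∧ d b.1 ≡ d b.2 [MOD c]),
        ip (X ^ d b.1 * GG k s PP c n) (X ^ d b.2 * GG k s PP c n) := by
  have e : gen Z d * GG k s PP c n =
      ∑ r ∈ K, gen (Z.filter fun z => cl z = r) d * GG k s PP c n := by
    rw [← sum_mul]
    unfold gen
    rw [sum_fiberwise_of_maps_to hK]
  unfold EE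
  rw [e]
  refine (nn_sum_le _ _).trans (mul_le_mul_of_nonneg_left (le_of_eq ?_) (by positivity))
  have e2 : ∀ r, nn (gen (Z.filter fun z => cl z = r) d * GG k s PP c n) =
      ∑ b ∈ ((Z ×ˢ Z).filter (fun b => cl b.1 = cl b.2 ∧ d b.1 ≡ d b.2 [MOD c])).filter
        (fun b => cl b.1 = r), ip (X ^ d b.1 * GG k s PP c n) (X ^ d b.2 * GG k s PP c n) := by
    intro r
    refine (EE_eq k s PP _ d c n).trans ?_
    rw [← sum_product']
    symm
    refine sum_subset (fun b hb => ?_) fun b hb hb' => ?_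
    · simp only [mem_filter, mem_product] at hb ⊢
      exact ⟨⟨hb.1.1.1, hb.2⟩, hb.1.1.2, hb.1.2.1 ▸ hb.2⟩
    · simp only [mem_filter, mem_product] at hb hb'
      refine ip_expand_zero hc (fun h => hb' ?_) _ _
      exact ⟨⟨⟨hb.1.1, hb.2.1⟩, hb.1.2.trans hb.2.2.symm, h⟩, hb.1.2⟩
  simp only [e2]
  exact sum_fiberwise_of_maps_to (fun b hb => hK _ (mem_product.1 (mem_filter.1 hb).1).1) _

theorem Pr.le {R : ℕ} {PP : Finset ℕ} (h : IsPP R PP) (hR : 4 ≤ R) :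
    ∀ {a m : ℕ}, Pr PP a m → R ^ a ≤ m ∧ m ≤ R ^ (2 * a)
  | 0, m, hm => by
    have : m = 1 := hm
    simp [this]
  | a + 1, m, ⟨p, hp, m', hm', e⟩ => by
    obtain ⟨h1, h2⟩ := Pr.le h hR hm'
    obtain ⟨-, h3, h4⟩ := h.1 p hp
    have h5 : p ≤ R ^ 2 := by nlinarith
    subst e
    refine ⟨?_, ?_⟩
    · rw [pow_succ']
      exact Nat.mul_le_mul h3.le h1
    · rw [show 2 * (a + 1) = 2 + 2 * a by ring, pow_add]
      exact Nat.mul_le_mul h5 h2

theorem Pr.pos {R : ℕ} {PP : Finset ℕ} (h : IsPP R PP) :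
    ∀ {a m : ℕ}, Pr PP a m → 0 < m
  | 0, m, hm => by
    have : m = 1 := hm
    simp [this]
  | a + 1, m, ⟨p, hp, m', hm', e⟩ => by
    subst e
    exact Nat.mul_pos (h.1 p hp).1.pos (Pr.pos h hm')

theorem Pr.prime {R : ℕ} {PP : Finset ℕ} (h : IsPP R PP) {r : ℕ} (hr : r.Prime) :
    ∀ {a m : ℕ}, Pr PP a m → r ∣ m → r ∈ PP
  | 0, m, hm, hd => by
    have : m = 1 := hm
    subst this
    exact absurd (Nat.dvd_one.1 hd) hr.ne_one
  | a + 1, m, ⟨p, hp, m', hm', e⟩, hd => by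
    subst e
    rcases (Nat.Prime.dvd_mul hr).1 hd with h1 | h1
    · rwa [(Nat.prime_dvd_prime_iff_eq hr (h.1 p hp).1).1 h1]
    · exact Pr.prime h hr hm' h1

theorem Pr.card {R : ℕ} {PP : Finset ℕ} (h : IsPP R PP) :
    ∀ {a m : ℕ}, Pr PP a m → m.primeFactors.card ≤ a
  | 0, m, hm => by
    have : m = 1 := hm
    simp [this]
  | a + 1, m, ⟨p, hp, m', hm', e⟩ => by
    subst e
    rw [Nat.primeFactors_mul (h.1 p hp).1.ne_zero (Pr.pos h hm').ne', (h.1 p hp).1.primeFactors]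
    refine (card_union_le _ _).trans ?_
    have := Pr.card h hm'
    rw [card_singleton]
    omega

/-- Few primes of `PP` divide a given number. -/
theorem card_bad {R : ℕ} {PP : Finset ℕ} (h : IsPP R PP) (hR : 2 ≤ R) {J D : ℕ} (h0 : J ≠ 0)
    (hJ : J ≤ R ^ D) : (PP.filter fun p => p ∣ J).card ≤ D := by
  have h1 : ∏ p ∈ PP.filter fun p => p ∣ J, p ∣ J :=
    Finset.prod_primes_dvd J (fun p hp => (h.1 p (mem_filter.1 hp).1).1.prime)
      fun p hp => (mem_filter.1 hp).2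
  have h2 : R ^ (PP.filter fun p => p ∣ J).card ≤ ∏ p ∈ PP.filter fun p => p ∣ J, p :=
    Finset.pow_card_le_prod _ _ _ fun p hp => (h.1 p (mem_filter.1 hp).1).2.1.le
  exact (Nat.pow_le_pow_iff_right (by omega)).1
    (h2.trans ((Nat.le_of_dvd (Nat.pos_of_ne_zero h0) h1).trans hJ))

theorem eval_one_ff (k : ℕ) (PP : Finset ℕ) (n : ℕ) : (ff k PP n).eval 1 = PP.card ^ n := by
  induction n with
  | zero => simp [ff]
  | succ n ih =>
    simp only [ff, eval_finset_sum, expand_eval, one_pow, ih, sum_const, smul_eq_mul]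
    ring

theorem eval_one_eq (A : ℕ[X]) : ((A.eval 1 : ℕ) : ℝ) = ∑ i ∈ A.support, (A.coeff i : ℝ) := by
  rw [eval_eq_sum, Polynomial.sum]
  simp

theorem nn_le_eval (A : ℕ[X]) : nn A ≤ ((A.eval 1 : ℕ) : ℝ) ^ 2 := by
  rw [eval_one_eq]
  simpa only [nn, ip, sq] using
    Finset.sum_sq_le_sq_sum_of_nonneg (s := A.support) (f := fun i => (A.coeff i : ℝ))
      fun i _ => by positivity

theorem SS_triv {R : ℕ} {PP : Finset ℕ} (h : IsPP R PP) (k s n : ℕ) :
    SS k s PP n ≤ (R : ℝ) ^ (2 * s * n) := by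
  refine (nn_le_eval _).trans ?_
  rw [eval_pow, eval_one_ff]
  have : ((PP.card ^ n) ^ s) ^ 2 ≤ R ^ (2 * s * n) := by
    rw [← pow_mul, ← pow_mul, show n * (s * 2) = 2 * s * n by ring]
    exact Nat.pow_le_pow_left h.2 _
  exact_mod_cast this

theorem Adm.mono {k s : ℕ} {α α' : ℝ} (h : Adm k s α) (hα : α' ≤ α) : Adm k s α' := by
  obtain ⟨ω, h⟩ := h
  refine ⟨ω, fun n => ?_⟩
  filter_upwards [h n, eventually_ge_atTop 1] with R h1 h2 PP hP
  refine (h1 PP hP).trans (Real.rpow_le_rpow_of_exponent_le (by exact_mod_cast h2) ?_)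
  have : (0 : ℝ) ≤ n := by positivity
  nlinarith

/-- It is enough to treat large `n`. -/
theorem adm_of_large {k s : ℕ} {α ω : ℝ} (n₀ : ℕ)
    (h : ∀ n ≥ n₀, ∀ᶠ R : ℕ in atTop, ∀ PP, IsPP R PP →
      SS k s PP n ≤ (R : ℝ) ^ ((2 * s - α) * n + ω)) : Adm k s α := by
  refine ⟨max ω (|α| * n₀), fun n => ?_⟩
  rcases le_or_gt n₀ n with hn | hn
  · filter_upwards [h n hn, eventually_ge_atTop 1] with R h1 h2 PP hP
    refine (h1 PP hP).trans (Real.rpow_le_rpow_of_exponent_le (by exact_mod_cast h2) ?_)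
    linarith [le_max_left ω (|α| * n₀)]
  · filter_upwards [eventually_ge_atTop 1] with R h2 PP hP
    refine (SS_triv hP k s n).trans ?_
    rw [← Real.rpow_natCast]
    refine Real.rpow_le_rpow_of_exponent_le (by exact_mod_cast h2) ?_
    have h3 : (n : ℝ) ≤ n₀ := by exact_mod_cast hn.le
    have h4 : α * n ≤ |α| * n₀ :=
      mul_le_mul (le_abs_self α) h3 (by positivity) (abs_nonneg α)
    push_cast
    linarith [le_max_right ω (|α| * n₀)]

theorem adm_zero (k s : ℕ) : Adm k s 0 := by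
  refine ⟨0, fun n => Eventually.of_forall fun R PP hP => (SS_triv hP k s n).trans (le_of_eq ?_)⟩
  rw [← Real.rpow_natCast]
  congr 1
  push_cast
  ring

end

end Pool.Agent.MP_4060c9_nt.H38
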