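import Pool.Agent.MP_4060c9_nt.H38.Kit

/-! Covering the dual sum by boxes. -/

namespace Pool.Agent.MP_4060c9_nt.H38

open Finset

noncomputable section

theorem cv_cc_succ (q : ℕ) [NeZero q] (h₀ : ℤ) (L : ℕ) (ξ : ZMod q) :
    cc q h₀ (L + 1) ξ = cc q h₀ L ξ + ZMod.stdAddChar (-(ξ * ((h₀ + L : ℤ) : ZMod q))) := by
  unfold cc
  have e : Ico h₀ (h₀ + ((L + 1 : ℕ) : ℤ)) = insert (h₀ + L) (Ico h₀ (h₀ + L)) := by
    ext x
    simp only [mem_Ico, mem_insert]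
    push_cast
    omega
  rw [e, sum_insert (by simp), add_comm]

theorem cv_norm_chi (q : ℕ) [NeZero q] (x : ZMod q) : ‖ZMod.stdAddChar x‖ = 1 := by
  rw [ZMod.stdAddChar_apply]
  exact Circle.norm_coe _

theorem cv_cc_le (q : ℕ) [NeZero q] (h₀ : ℤ) (L : ℕ) (ξ : ZMod q) : ‖cc q h₀ L ξ‖ ≤ L := by
  induction L with
  | zero => simp [cc]
  | succ L ih =>
    rw [cv_cc_succ]
    refine (norm_add_le _ _).trans ?_
    rw [cv_norm_chi]
    push_cast
    linarith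

theorem cv_cc_tel (q : ℕ) [NeZero q] (h₀ : ℤ) (L : ℕ) (ξ : ZMod q) :
    (ZMod.stdAddChar (-ξ) - 1) * cc q h₀ L ξ =
      ZMod.stdAddChar (-(ξ * ((h₀ + L : ℤ) : ZMod q))) -
        ZMod.stdAddChar (-(ξ * (h₀ : ZMod q))) := by
  induction L with
  | zero => simp [cc]
  | succ L ih =>
    rw [cv_cc_succ, mul_add, ih]
    have e : -(ξ * ((h₀ + ((L + 1 : ℕ) : ℤ) : ℤ) : ZMod q)) =
        -ξ + -(ξ * ((h₀ + L : ℤ) : ZMod q)) := by
      push_cast
      ring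
    rw [e, AddChar.map_add_eq_mul]
    ring

theorem cv_chi_sub (q : ℕ) [NeZero q] (ξ : ZMod q) :
    4 * |(ξ.valMinAbs : ℝ)| / q ≤ ‖ZMod.stdAddChar (-ξ) - 1‖ := by
  have hq : (0 : ℝ) < q := by exact_mod_cast Nat.pos_of_ne_zero (NeZero.ne q)
  set x : ℤ := ξ.valMinAbs with hx
  have h1 : -ξ = ((-x : ℤ) : ZMod q) := by
    push_cast
    rw [hx, ZMod.coe_valMinAbs]
  have h2 : (2 * Real.pi * Complex.I * ((-x : ℤ) : ℂ) / (q : ℂ)) =
      Complex.I * ((-(2 * Real.pi * x / q) : ℝ) : ℂ) := by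
    push_cast
    ring
  rw [h1, ZMod.stdAddChar_coe, h2, Complex.norm_exp_I_mul_ofReal_sub_one]
  have h3 : 2 * |(x : ℝ)| ≤ q := by
    have h := ZMod.natAbs_valMinAbs_le ξ
    have h' : 2 * x.natAbs ≤ q := by
      rw [hx]
      omega
    have h'' : ((2 * x.natAbs : ℕ) : ℝ) ≤ q := by exact_mod_cast h'
    rw [Nat.cast_mul, Nat.cast_natAbs, Int.cast_abs] at h''
    exact_mod_cast h''
  have hpi := Real.pi_pos
  have h4 : |(-(2 * Real.pi * x / q) / 2 : ℝ)| = Real.pi * |(x : ℝ)| / q := by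
    rw [show (-(2 * Real.pi * x / q) / 2 : ℝ) = -(Real.pi * x / q) by ring, abs_neg, abs_div,
      abs_mul, abs_of_pos hpi, abs_of_pos hq]
  have h5 : |(-(2 * Real.pi * x / q) / 2 : ℝ)| ≤ Real.pi / 2 := by
    rw [h4, div_le_div_iff₀ hq two_pos]
    nlinarith
  have h6 := Real.mul_abs_le_abs_sin h5
  rw [h4] at h6
  rw [Real.norm_eq_abs, abs_mul, abs_two]
  have h7 : 2 / Real.pi * (Real.pi * |(x : ℝ)| / q) = 2 * |(x : ℝ)| / q := by
    field_simp
  rw [h7] at h6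
  have h8 : 4 * |(x : ℝ)| / q = 2 * (2 * |(x : ℝ)| / q) := by ring
  rw [h8]
  linarith

theorem cv_cc_le' (q : ℕ) [NeZero q] (h₀ : ℤ) (L : ℕ) (ξ : ZMod q) :
    ‖cc q h₀ L ξ‖ * (2 * |(ξ.valMinAbs : ℝ)|) ≤ q := by
  have hq : (0 : ℝ) < q := by exact_mod_cast Nat.pos_of_ne_zero (NeZero.ne q)
  have h1 : ‖ZMod.stdAddChar (-ξ) - 1‖ * ‖cc q h₀ L ξ‖ ≤ 2 := by
    rw [← norm_mul, cv_cc_tel]
    refine (norm_sub_le _ _).trans ?_
    rw [cv_norm_chi, cv_norm_chi]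
    norm_num
  have h2 := mul_le_mul_of_nonneg_right (cv_chi_sub q ξ) (norm_nonneg (cc q h₀ L ξ))
  have h3 := h2.trans h1
  rw [div_mul_eq_mul_div, div_le_iff₀ hq] at h3
  linarith

/-- The weight of a cell. -/
def cv_om (j : ℤ) : ℝ := 2 / (|(j : ℝ)| + 1)

theorem cv_om_nonneg (j : ℤ) : 0 ≤ cv_om j := by
  unfold cv_om
  positivity

theorem cv_cc_om (q : ℕ) [NeZero q] (h₀ : ℤ) (L L' : ℕ) (hq : q ≤ L' * L) (ξ : ZMod q) :
    ‖cc q h₀ L ξ‖ ≤ L * cv_om (ξ.valMinAbs / (L' : ℤ)) := by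
  have hq0 := Nat.pos_of_ne_zero (NeZero.ne q)
  have hL' : 0 < L' := by
    rcases Nat.eq_zero_or_pos L' with h | h
    · subst h
      omega
    · exact h
  have h1 := cv_cc_le q h₀ L ξ
  have h2 := cv_cc_le' q h₀ L ξ
  have h0 := norm_nonneg (cc q h₀ L ξ)
  set x : ℤ := ξ.valMinAbs
  set j : ℤ := x / (L' : ℤ) with hj
  have hLz : (0 : ℤ) < L' := by exact_mod_cast hL'
  have h3 : (|j| - 1) * L' ≤ |x| := by
    have a1 : j * L' ≤ x := Int.ediv_mul_le x hLz.ne'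
    have a2 : x < (j + 1) * L' := Int.lt_ediv_add_one_mul_self x hLz
    rcases le_or_gt 0 j with h | h
    · rw [abs_of_nonneg h]
      have := le_abs_self x
      nlinarith
    · rw [abs_of_neg h]
      have := neg_le_abs x
      nlinarith
  have h4 : (|(j : ℝ)| - 1) * L' ≤ |(x : ℝ)| := by exact_mod_cast h3
  have h5 : (q : ℝ) ≤ L' * L := by exact_mod_cast hq
  have hLr : (0 : ℝ) < L' := by exact_mod_cast hL'
  have h6 : ‖cc q h₀ L ξ‖ * (|(j : ℝ)| - 1) * 2 ≤ L := by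
    have a : (‖cc q h₀ L ξ‖ * (|(j : ℝ)| - 1) * 2) * L' ≤ L * L' := by
      have := mul_le_mul_of_nonneg_left h4 h0
      nlinarith
    exact le_of_mul_le_mul_right a hLr
  unfold cv_om
  rw [mul_div_assoc', le_div_iff₀ (by positivity)]
  have hL0 : (0 : ℝ) ≤ L := by positivity
  rcases le_or_gt |j| 1 with h | h
  · have a : |(j : ℝ)| ≤ 1 := by exact_mod_cast h
    nlinarith [abs_nonneg (j : ℝ)]
  · have a : (2 : ℝ) ≤ |(j : ℝ)| := by exact_mod_cast h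
    nlinarith

theorem cv_cell_mem (q : ℕ) [NeZero q] (L' : ℕ) (ξ : ZMod q) :
    ξ.valMinAbs / (L' : ℤ) ∈ Icc (-(q : ℤ)) q := by
  have h := ZMod.natAbs_valMinAbs_le ξ
  have h1 := Int.natAbs_ediv_le_natAbs ξ.valMinAbs (L' : ℤ)
  rw [mem_Icc]
  omega

theorem cv_sum_om' (n : ℕ) : ∑ j ∈ Icc (-(n : ℤ)) n, cv_om j ≤ 4 * (harmonic (n + 1) : ℝ) := by
  induction n with
  | zero =>
    simp [cv_om, harmonic]
    norm_num
  | succ n ih =>
    have e : Icc (-((n + 1 : ℕ) : ℤ)) ((n + 1 : ℕ) : ℤ) =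
        insert ((n : ℤ) + 1) (insert (-((n : ℤ) + 1)) (Icc (-(n : ℤ)) n)) := by
      ext x
      simp only [mem_Icc, mem_insert]
      push_cast
      omega
    rw [e, sum_insert, sum_insert, harmonic_succ]
    · have a1 : cv_om ((n : ℤ) + 1) = 2 * ((n : ℝ) + 1 + 1)⁻¹ := by
        unfold cv_om
        push_cast
        rw [abs_of_nonneg (by positivity), div_eq_mul_inv]
      have a2 : cv_om (-((n : ℤ) + 1)) = 2 * ((n : ℝ) + 1 + 1)⁻¹ := by
        unfold cv_om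
        push_cast
        rw [abs_neg, abs_of_nonneg (by positivity), div_eq_mul_inv]
      rw [a1, a2]
      push_cast
      linarith
    · simp only [mem_Icc]
      omega
    · simp only [mem_Icc, mem_insert]
      omega

theorem cv_sum_om (q : ℕ) : ∑ j ∈ Icc (-(q : ℤ)) q, cv_om j ≤ LL q := by
  refine (cv_sum_om' q).trans ?_
  have h := harmonic_le_one_add_log (q + 1)
  unfold LL
  push_cast at h
  linarith

theorem cv_planch (q : ℕ) [NeZero q] (f : ZMod q → ℂ) :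
    ∑ b : ZMod q, ‖∑ v : ZMod q, f v * ZMod.stdAddChar (b * v)‖ ^ 2 = q * ∑ v, ‖f v‖ ^ 2 := by
  have key : ∀ z : ℂ, ((‖z‖ ^ 2 : ℝ) : ℂ) = z * (starRingEnd ℂ) z := fun z => by
    rw [Complex.mul_conj, Complex.normSq_eq_norm_sq]
  have hc : ∀ x : ZMod q, (starRingEnd ℂ) (ZMod.stdAddChar x) = ZMod.stdAddChar (-x) :=
    fun x => (AddChar.map_neg_eq_conj _ _).symm
  have h : ((∑ b : ZMod q, ‖∑ v : ZMod q, f v * ZMod.stdAddChar (b * v)‖ ^ 2 : ℝ) : ℂ) =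
      ((q * ∑ v, ‖f v‖ ^ 2 : ℝ) : ℂ) := by
    rw [Complex.ofReal_sum, Complex.ofReal_mul, Complex.ofReal_sum]
    simp only [key, map_sum, map_mul, hc, sum_mul_sum]
    rw [sum_comm, mul_sum]
    refine sum_congr rfl fun v _ => ?_
    rw [sum_comm]
    have e : ∀ v' : ZMod q, ∑ b : ZMod q, f v * ZMod.stdAddChar (b * v) *
        ((starRingEnd ℂ) (f v') * ZMod.stdAddChar (-(b * v'))) =
          if v' = v then (q : ℂ) * (f v * (starRingEnd ℂ) (f v')) else 0 := by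
      intro v'
      have e1 : ∀ b : ZMod q, f v * ZMod.stdAddChar (b * v) *
          ((starRingEnd ℂ) (f v') * ZMod.stdAddChar (-(b * v'))) =
            f v * (starRingEnd ℂ) (f v') * ZMod.stdAddChar (b * (v - v')) := by
        intro b
        rw [show b * (v - v') = b * v + -(b * v') by ring, AddChar.map_add_eq_mul]
        ring
      simp only [e1]
      rw [← mul_sum, AddChar.sum_mulShift _ (ZMod.isPrimitive_stdAddChar q), ZMod.card]
      by_cases hv : v' = v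
      · rw [if_pos hv, if_pos (by rw [hv, sub_self])]
        ring
      · rw [if_neg hv, if_neg (fun h => hv (sub_eq_zero.1 h).symm)]
        simp
    simp only [e]
    rw [sum_ite_eq' univ v]
    simp
  exact_mod_cast h

theorem cv_main {α κ β : Type} [Fintype β] [DecidableEq β] [DecidableEq κ] (S : Finset α)
    (D : α → β) (cl : α → κ) (K : Finset κ) (hK : ∀ a ∈ S, cl a ∈ K) (u : α → ℝ)
    (hu0 : ∀ a, 0 ≤ u a) (Ω : κ → ℝ) (hΩ : ∀ c, 0 ≤ Ω c) (hu : ∀ a ∈ S, u a ≤ Ω (cl a)) (X : ℝ)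
    (hX : ∀ c ∈ K, (((S ×ˢ S).filter fun b =>
      cl b.1 = c ∧ cl b.2 = c ∧ D b.1 = D b.2).card : ℝ) ≤ X) :
    ∑ v, (∑ a ∈ S.filter (fun a => D a = v), u a) ^ 2 ≤ (∑ c ∈ K, Ω c) ^ 2 * X := by
  set r : κ → β → ℝ := fun c v =>
    (((S.filter fun a => D a = v).filter fun a => cl a = c).card : ℝ) with hr
  have h1 : ∀ v, ∑ a ∈ S.filter (fun a => D a = v), u a ≤ ∑ c ∈ K, Ω c * r c v := by
    intro v
    rw [← sum_fiberwise_of_maps_to (g := cl) (t := K) (fun a ha => hK a (mem_filter.1 ha).1)]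
    refine sum_le_sum fun c _ => ?_
    rw [mul_comm, ← nsmul_eq_mul]
    refine sum_le_card_nsmul _ _ _ fun a ha => ?_
    obtain ⟨h, h'⟩ := mem_filter.1 ha
    exact h' ▸ hu a (mem_filter.1 h).1
  have h2 : ∀ v, (∑ c ∈ K, Ω c * r c v) ^ 2 ≤ (∑ c ∈ K, Ω c) * ∑ c ∈ K, Ω c * r c v ^ 2 := by
    intro v
    refine sum_sq_le_sum_mul_sum_of_sq_eq_mul K (fun c _ => hΩ c)
      (fun c _ => mul_nonneg (hΩ c) (sq_nonneg _)) fun c _ => ?_
    ring
  have h3 : ∀ c ∈ K, ∑ v, r c v ^ 2 ≤ X := by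
    intro c hc
    refine le_trans (le_of_eq ?_) (hX c hc)
    rw [card_eq_sum_card_fiberwise (f := fun b : α × α => D b.1) (t := univ)
      (fun _ _ => mem_coe.2 (mem_univ _))]
    push_cast
    refine sum_congr rfl fun v _ => ?_
    rw [hr, sq, ← Nat.cast_mul, ← card_product]
    refine congrArg _ (congrArg _ ?_)
    ext b
    simp only [mem_product, mem_filter]
    constructor
    · rintro ⟨⟨⟨a1, a2⟩, a3⟩, ⟨a4, a5⟩, a6⟩
      exact ⟨⟨⟨a1, a4⟩, a3, a6, a2.trans a5.symm⟩, a2⟩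
    · rintro ⟨⟨⟨a1, a4⟩, a3, a6, a7⟩, a2⟩
      exact ⟨⟨⟨a1, a2⟩, a3⟩, ⟨a4, a7.symm.trans a2⟩, a6⟩
  have hs : 0 ≤ ∑ c ∈ K, Ω c := sum_nonneg fun c _ => hΩ c
  calc ∑ v, (∑ a ∈ S.filter (fun a => D a = v), u a) ^ 2
      ≤ ∑ v, (∑ c ∈ K, Ω c) * ∑ c ∈ K, Ω c * r c v ^ 2 :=
        sum_le_sum fun v _ =>
          (pow_le_pow_left₀ (sum_nonneg fun a _ => hu0 a) (h1 v) 2).trans (h2 v)
    _ = (∑ c ∈ K, Ω c) * ∑ c ∈ K, Ω c * ∑ v, r c v ^ 2 := by
        rw [← mul_sum, sum_comm]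
        simp only [mul_sum]
    _ ≤ (∑ c ∈ K, Ω c) * ∑ c ∈ K, Ω c * X :=
        mul_le_mul_of_nonneg_left
          (sum_le_sum fun c hc => mul_le_mul_of_nonneg_left (h3 c hc) (hΩ c)) hs
    _ = (∑ c ∈ K, Ω c) ^ 2 * X := by
        rw [← sum_mul]
        ring

theorem cv_mem_Ico {L' : ℕ} (hL' : 0 < L') {x c : ℤ} (h : x / (L' : ℤ) = c) :
    x ∈ Ico (c * L') (c * L' + L') := by
  have hLz : (0 : ℤ) < L' := by exact_mod_cast hL'
  have a1 : x / (L' : ℤ) * L' ≤ x := Int.ediv_mul_le x hLz.ne'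
  have a2 : x < (x / (L' : ℤ) + 1) * L' := Int.lt_ediv_add_one_mul_self x hLz
  rw [h] at a1 a2
  rw [mem_Ico]
  exact ⟨a1, by linarith⟩

open Classical in
theorem scv : SCV := by
  intro q _ H P H' P' hH hP hq1 hq2 gd Dv X hX h₀ y₀
  have hq0 := Nat.pos_of_ne_zero (NeZero.ne q)
  have hH' : 0 < H' := by
    rcases Nat.eq_zero_or_pos H' with h | h
    · subst h
      omega
    · exact h
  have hP' : 0 < P' := by
    rcases Nat.eq_zero_or_pos P' with h | h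
    · subst h
      omega
    · exact h
  set S : Finset (ZMod q × ZMod q) := univ.filter gd with hS
  set w : ZMod q × ZMod q → ℂ := fun a => cc q y₀ P a.1 * cc q h₀ H a.2 with hw
  have e1 : ∀ b : ZMod q, ∑ a ∈ S, cc q y₀ P a.1 * cc q h₀ H a.2 * ZMod.stdAddChar (b * Dv a) =
      ∑ v : ZMod q, (∑ a ∈ S.filter (fun a => Dv a = v), w a) * ZMod.stdAddChar (b * v) := by
    intro b
    rw [← sum_fiberwise_of_maps_to (g := Dv) (t := univ) (fun _ _ => mem_univ _)]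
    refine sum_congr rfl fun v _ => ?_
    rw [sum_mul]
    refine sum_congr rfl fun a ha => ?_
    rw [(mem_filter.1 ha).2]
  simp only [e1]
  rw [cv_planch]
  refine mul_le_mul_of_nonneg_left ?_ (by positivity)
  have hm := cv_main S Dv
    (fun a => (a.1.valMinAbs / (H' : ℤ), a.2.valMinAbs / (P' : ℤ)))
    (Icc (-(q : ℤ)) q ×ˢ Icc (-(q : ℤ)) q)
    (fun a _ => mem_product.2 ⟨cv_cell_mem q H' a.1, cv_cell_mem q P' a.2⟩)
    (fun a => ‖w a‖) (fun a => norm_nonneg _)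
    (fun c => (P * cv_om c.1) * (H * cv_om c.2))
    (fun c => mul_nonneg (mul_nonneg (by positivity) (cv_om_nonneg _))
      (mul_nonneg (by positivity) (cv_om_nonneg _)))
    (fun a _ => by
      rw [hw, norm_mul]
      exact mul_le_mul (cv_cc_om q y₀ P H' hq1 a.1) (cv_cc_om q h₀ H P' hq2 a.2) (norm_nonneg _)
        (mul_nonneg (by positivity) (cv_om_nonneg _))) X
    (fun c _ => by
      refine le_trans ?_ (hX (c.1 * H') (c.2 * P'))
      refine Nat.cast_le.2 (card_le_card_of_injOn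
        (fun b => ((b.1.1.valMinAbs, b.1.2.valMinAbs), (b.2.1.valMinAbs, b.2.2.valMinAbs)))
        (fun b hb => ?_) fun b _ b' _ h => ?_)
      · obtain ⟨hb1, hb2, hb3, hb4⟩ := mem_filter.1 (mem_coe.1 hb)
        obtain ⟨g1, g2⟩ := mem_product.1 hb1
        refine mem_coe.2 (mem_filter.2 ⟨mem_product.2 ⟨mem_product.2 ⟨?_, ?_⟩,
          mem_product.2 ⟨?_, ?_⟩⟩, ?_⟩)
        · exact cv_mem_Ico hH' (congrArg Prod.fst hb2)
        · exact cv_mem_Ico hP' (congrArg Prod.snd hb2)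
        · exact cv_mem_Ico hH' (congrArg Prod.fst hb3)
        · exact cv_mem_Ico hP' (congrArg Prod.snd hb3)
        · simp only [ZMod.coe_valMinAbs]
          exact ⟨(mem_filter.1 g1).2, (mem_filter.1 g2).2, hb4⟩
      · simp only [Prod.mk.injEq, ZMod.valMinAbs_inj] at h
        exact Prod.ext (Prod.ext h.1.1 h.1.2) (Prod.ext h.2.1 h.2.2))
  have hX0 : 0 ≤ X := le_trans (Nat.cast_nonneg _) (hX 0 0)
  refine le_trans (sum_le_sum fun v _ =>
    pow_le_pow_left₀ (norm_nonneg _) (norm_sum_le _ _) 2) (hm.trans ?_)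
  refine mul_le_mul_of_nonneg_right ?_ hX0
  have hs0 : 0 ≤ ∑ j ∈ Icc (-(q : ℤ)) q, cv_om j := sum_nonneg fun j _ => cv_om_nonneg j
  have e2 : ∑ c ∈ Icc (-(q : ℤ)) q ×ˢ Icc (-(q : ℤ)) q, (P * cv_om c.1) * (H * cv_om c.2) =
      H * P * (∑ j ∈ Icc (-(q : ℤ)) q, cv_om j) ^ 2 := by
    rw [sum_product' (f := fun i j => (P * cv_om i) * (H * cv_om j)), ← sum_mul_sum, ← mul_sum,
      ← mul_sum]
    ring
  rw [e2]
  refine pow_le_pow_left₀ (by positivity) ?_ 2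
  exact mul_le_mul_of_nonneg_left (pow_le_pow_left₀ hs0 (cv_sum_om q) 2) (by positivity)

end

end Pool.Agent.MP_4060c9_nt.H38
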