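import Pool.Agent.MP_4060c9_nt.H38.Kit

/-! Duality for the congruence count. -/

namespace Pool.Agent.MP_4060c9_nt.H38

open Finset ZMod

noncomputable section

variable {q : ℕ} [NeZero q]

theorem d_poisson (h₀ : ℤ) (H : ℕ) (g : ZMod q → ℂ) :
    (q : ℂ) * ∑ h ∈ Ico h₀ (h₀ + H), g (h : ZMod q) =
      ∑ ξ : ZMod q, cc q h₀ H ξ * ∑ x : ZMod q, g x * stdAddChar (ξ * x) := by
  have key : ∀ h x : ZMod q, ∑ ξ : ZMod q, stdAddChar (-(ξ * h)) * (g x * stdAddChar (ξ * x)) =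
      if x = h then g x * q else 0 := by
    intro h x
    have e : ∀ ξ : ZMod q, stdAddChar (-(ξ * h)) * (g x * stdAddChar (ξ * x)) =
        g x * stdAddChar (ξ * (x - h)) := by
      intro ξ
      rw [show ξ * (x - h) = -(ξ * h) + ξ * x by ring, AddChar.map_add_eq_mul]
      ring
    simp only [e, ← mul_sum, AddChar.sum_mulShift _ (isPrimitive_stdAddChar q), sub_eq_zero,
      ZMod.card]
    split_ifs <;> simp
  have e2 : ∀ ξ : ZMod q, cc q h₀ H ξ * ∑ x : ZMod q, g x * stdAddChar (ξ * x) =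
      ∑ h ∈ Ico h₀ (h₀ + H), ∑ x : ZMod q,
        stdAddChar (-(ξ * (h : ZMod q))) * (g x * stdAddChar (ξ * x)) := by
    intro ξ
    rw [cc, sum_mul_sum]
  simp only [e2]
  rw [sum_comm, mul_sum]
  refine sum_congr rfl fun h _ => ?_
  rw [sum_comm]
  simp only [key, sum_ite_eq', mem_univ, if_true]
  ring

theorem d_poisson2 (h₀ y₀ : ℤ) (H P : ℕ) (Φ : ZMod q → ZMod q → ℂ) :
    (q : ℂ) ^ 2 * ∑ b ∈ box h₀ y₀ H P, Φ b.1 b.2 =
      ∑ a : ZMod q × ZMod q, cc q y₀ P a.1 * cc q h₀ H a.2 *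
        ∑ x : ZMod q × ZMod q, Φ x.1 x.2 * stdAddChar (a.2 * x.1 + a.1 * x.2) := by
  rw [box, sum_product, sq, mul_assoc, mul_sum (Ico h₀ (h₀ + H))]
  simp only [d_poisson y₀ P]
  rw [d_poisson h₀ H fun h => ∑ η : ZMod q, cc q y₀ P η * ∑ y, Φ h y * stdAddChar (η * y)]
  rw [Fintype.sum_prod_type, sum_comm]
  refine sum_congr rfl fun ξ _ => ?_
  simp only [Fintype.sum_prod_type, sum_mul, mul_sum]
  rw [sum_comm]
  refine sum_congr rfl fun η _ => sum_congr rfl fun h _ => sum_congr rfl fun y _ => ?_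
  rw [AddChar.map_add_eq_mul]
  ring

omit [NeZero q] in
theorem d_U_mul {ρ x v : ZMod q} (hv : ρ ∣ v - 1) : ρ ∣ x * v - 1 ↔ ρ ∣ x - 1 := by
  have e : x * v - 1 = x * (v - 1) + (x - 1) := by ring
  rw [e]
  exact dvd_add_right (hv.mul_left x)

open Classical in
theorem d_hat {ρ e κ : ℕ} {Γ : ZMod q → ℂ}
    (hΓ : ∀ V u, (ρ : ZMod q) ∣ u - 1 → Γ (V * u) = Γ V)
    (hG : ∀ A w : ZMod q, IsUnit A →
        ∑ t ∈ univ.filter (fun t : ZMod q => (ρ : ZMod q) ∣ t - 1),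
            stdAddChar (A * t ^ e - (e : ZMod q) * A * w * t) =
          if (ρ : ZMod q) ∣ w - 1 then
            stdAddChar ((1 - (e : ZMod q)) * A * w ^ (κ + 1)) * Γ A else 0)
    {α α' γ γ' μ iγ iγ' iμ a a₀ v g₁ g₂ : ZMod q} (hα : IsUnit α) (hα' : IsUnit α')
    (ha : IsUnit a) (h1 : γ * iγ = 1) (h2 : γ' * iγ' = 1) (h3 : μ * iμ = 1) (h4 : a * v = a₀)
    (hv : (ρ : ZMod q) ∣ v - 1) (h5 : e * a₀ * α * g₁ = -(iγ * iμ))
    (h6 : e * a₀ * α' * g₂ = -(iγ' * iμ)) (η ξ : ZMod q) :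
    ∑ x : ZMod q × ZMod q,
      (if (ρ : ZMod q) ∣ γ * (x.2 + μ * x.1) - 1 ∧ (ρ : ZMod q) ∣ γ' * x.2 - 1 then
        stdAddChar (a * (α * (γ * (x.2 + μ * x.1)) ^ e - α' * (γ' * x.2) ^ e)) else 0) *
        stdAddChar (ξ * x.1 + η * x.2) =
      if (ρ : ZMod q) ∣ g₂ * (ξ + -μ * η) - 1 ∧ (ρ : ZMod q) ∣ g₁ * ξ - 1 then
        Γ (a₀ * α) * Γ (-(a₀ * α')) * stdAddChar (v ^ κ *
          ((1 - (e : ZMod q)) * a₀ * α * (g₁ * ξ) ^ (κ + 1) -
            (1 - (e : ZMod q)) * a₀ * α' * (g₂ * (ξ + -μ * η)) ^ (κ + 1)))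
      else 0 := by
  let E : ZMod q × ZMod q ≃ ZMod q × ZMod q :=
    { toFun := fun x => (γ * (x.2 + μ * x.1), γ' * x.2)
      invFun := fun t => (iμ * (iγ * t.1 - iγ' * t.2), iγ' * t.2)
      left_inv := fun x => Prod.ext
        (by simp only; linear_combination (iμ * (x.2 + μ * x.1)) * h1 - iμ * x.2 * h2 + x.1 * h3)
        (by simp only; linear_combination x.2 * h2)
      right_inv := fun t => Prod.ext
        (by simp only; linear_combination γ * (iγ * t.1 - iγ' * t.2) * h3 + t.1 * h1)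
        (by simp only; linear_combination t.2 * h2) }
  have G1 := hG (a * α) (g₁ * ξ * v) (ha.mul hα)
  have G2 := hG (-(a * α')) (g₂ * (ξ + -μ * η) * v) (ha.mul hα').neg
  simp only [d_U_mul hv] at G1 G2
  have c1 : Γ (a * α) = Γ (a₀ * α) := by rw [← hΓ (a * α) v hv, ← h4]; congr 1; ring
  have c2 : Γ (-(a * α')) = Γ (-(a₀ * α')) := by
    rw [← hΓ (-(a * α')) v hv, ← h4]; congr 1; ring
  have step : ∑ x : ZMod q × ZMod q,
      (if (ρ : ZMod q) ∣ γ * (x.2 + μ * x.1) - 1 ∧ (ρ : ZMod q) ∣ γ' * x.2 - 1 then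
        stdAddChar (a * (α * (γ * (x.2 + μ * x.1)) ^ e - α' * (γ' * x.2) ^ e)) else 0) *
        stdAddChar (ξ * x.1 + η * x.2) =
      (∑ t ∈ univ.filter (fun t : ZMod q => (ρ : ZMod q) ∣ t - 1),
        stdAddChar (a * α * t ^ e - (e : ZMod q) * (a * α) * (g₁ * ξ * v) * t)) *
      ∑ t ∈ univ.filter (fun t : ZMod q => (ρ : ZMod q) ∣ t - 1),
        stdAddChar (-(a * α') * t ^ e -
          (e : ZMod q) * -(a * α') * (g₂ * (ξ + -μ * η) * v) * t) := by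
    rw [sum_filter, sum_filter, sum_mul_sum, ← Fintype.sum_prod_type']
    refine Fintype.sum_equiv E _ _ fun x => ?_
    simp only [E, Equiv.coe_fn_mk]
    by_cases p1 : (ρ : ZMod q) ∣ γ * (x.2 + μ * x.1) - 1
    · by_cases p2 : (ρ : ZMod q) ∣ γ' * x.2 - 1
      · rw [if_pos ⟨p1, p2⟩, if_pos p1, if_pos p2, ← AddChar.map_add_eq_mul,
          ← AddChar.map_add_eq_mul]
        congr 1
        subst h4
        linear_combination (ξ * γ * (x.2 + μ * x.1)) * h5 - ((ξ + -μ * η) * γ' * x.2) * h6 -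
          (ξ * iμ * (x.2 + μ * x.1)) * h1 + ((ξ + -μ * η) * iμ * x.2) * h2 -
          (ξ * x.1 + η * x.2) * h3
      · simp [p2]
    · simp [p1]
  rw [step, G1, G2, c1, c2]
  by_cases p1 : (ρ : ZMod q) ∣ g₁ * ξ - 1
  · by_cases p2 : (ρ : ZMod q) ∣ g₂ * (ξ + -μ * η) - 1
    · rw [if_pos p1, if_pos p2, if_pos ⟨p2, p1⟩, mul_mul_mul_comm, ← AddChar.map_add_eq_mul,
        mul_comm]
      congr 2
      subst h4
      rw [mul_pow (g₁ * ξ) v, mul_pow (g₂ * (ξ + -μ * η)) v]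
      generalize (g₁ * ξ) ^ (κ + 1) = s₁
      generalize (g₂ * (ξ + -μ * η)) ^ (κ + 1) = s₂
      ring
    · simp only [p2, if_false, false_and, mul_zero]
  · simp only [p1, if_false, and_false, zero_mul]

theorem d_dvd {ρ : ℕ} (h : ρ ∣ q) (x : ℤ) : (ρ : ZMod q) ∣ (x : ZMod q) - 1 ↔ (ρ : ℤ) ∣ x - 1 := by
  constructor
  · rintro ⟨c, hc⟩
    obtain ⟨c', rfl⟩ := ZMod.intCast_surjective c
    have h1 : ((x - 1 - ρ * c' : ℤ) : ZMod q) = 0 := by push_cast; rw [hc]; ring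
    have h2 := (Int.natCast_dvd_natCast.2 h).trans ((ZMod.intCast_zmod_eq_zero_iff_dvd _ _).1 h1)
    have := dvd_add h2 (dvd_mul_right (ρ : ℤ) c')
    simpa using this
  · rintro ⟨c, hc⟩
    refine ⟨c, ?_⟩
    have := congrArg (fun z : ℤ => (z : ZMod q)) hc
    simpa using this

theorem d_unit {x : ℤ} : IsCoprime x (q : ℤ) ↔ IsUnit (x : ZMod q) := by
  rw [ZMod.coe_int_isUnit_iff_isCoprime, isCoprime_comm]

omit [NeZero q] in
theorem d_rad_sq (h : ∀ p : ℕ, p.Prime → p ∣ q → p ^ 2 ∣ q) : rad q ^ 2 ∣ q := by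
  unfold rad
  rw [← prod_pow]
  refine Finset.prod_dvd_of_isRelPrime (fun p hp r hr hne => ?_) fun p hp => ?_
  · exact Nat.coprime_iff_isRelPrime.1 (Nat.Coprime.pow 2 2
      ((Nat.coprime_primes (Nat.prime_of_mem_primeFactors hp)
        (Nat.prime_of_mem_primeFactors hr)).2 hne))
  · exact h p (Nat.prime_of_mem_primeFactors hp) (Nat.dvd_of_mem_primeFactors hp)

/-- The dual parameters. -/
theorem d_dual {π : Par} (hπ : π.Ok q) {κ : ℕ} (hκ : (κ : ZMod q) * ((π.e : ZMod q) - 1) = 1)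
    {iγ iγ' iμ a₀ g₁ g₂ : ZMod q} (ha : IsUnit a₀) (h1 : π.ga * iγ = 1) (h2 : π.ga' * iγ' = 1)
    (h3 : π.mu * iμ = 1) (h5 : π.e * a₀ * π.al * g₁ = -(iγ * iμ))
    (h6 : π.e * a₀ * π.al' * g₂ = -(iγ' * iμ)) :
    ∃ π' : Par, π'.Ok q ∧ (π'.al : ZMod q) = (1 - (π.e : ZMod q)) * a₀ * π.al' ∧
      (π'.al' : ZMod q) = (1 - (π.e : ZMod q)) * a₀ * π.al ∧ (π'.ga : ZMod q) = g₂ ∧
      (π'.ga' : ZMod q) = g₁ ∧ π'.mu = -π.mu ∧ π'.e = κ + 1 := by
  obtain ⟨x1, e1⟩ := ZMod.intCast_surjective ((1 - (π.e : ZMod q)) * a₀ * (π.al' : ZMod q))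
  obtain ⟨x2, e2⟩ := ZMod.intCast_surjective ((1 - (π.e : ZMod q)) * a₀ * (π.al : ZMod q))
  obtain ⟨x3, e3⟩ := ZMod.intCast_surjective g₂
  obtain ⟨x4, e4⟩ := ZMod.intCast_surjective g₁
  have ue : IsUnit (π.e : ZMod q) := by simpa using d_unit.1 hπ.e
  have ue' : IsUnit ((π.e : ZMod q) - 1) := by simpa using d_unit.1 hπ.e'
  have ue'' : IsUnit (1 - (π.e : ZMod q)) := by simpa using ue'.neg
  have ua := d_unit.1 hπ.al
  have ua' := d_unit.1 hπ.al'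
  have ud : IsUnit ((π.ga : ZMod q) - π.ga') := by simpa using d_unit.1 hπ.dg
  have ud' : IsUnit ((π.al : ZMod q) * π.ga - π.al' * π.ga') := by simpa using d_unit.1 hπ.da
  have u1 : IsUnit iγ := IsUnit.of_mul_eq_one_right _ h1
  have u2 : IsUnit iγ' := IsUnit.of_mul_eq_one_right _ h2
  have u3 : IsUnit iμ := IsUnit.of_mul_eq_one_right _ h3
  have uκ : IsUnit (κ : ZMod q) := IsUnit.of_mul_eq_one _ hκ
  refine ⟨⟨x1, x2, x3, x4, -π.mu, κ + 1⟩, ⟨d_unit.2 ?_, d_unit.2 ?_, d_unit.2 ?_, d_unit.2 ?_,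
    hπ.mu.neg_left, Nat.le_add_left 1 κ, d_unit.2 ?_, d_unit.2 ?_, d_unit.2 ?_, d_unit.2 ?_⟩,
    e1, e2, e3, e4, rfl, rfl⟩
  · simp only [e1]; exact (ue''.mul ha).mul ua'
  · simp only [e2]; exact (ue''.mul ha).mul ua
  · simp only [e3]; exact isUnit_of_mul_isUnit_right (h6 ▸ (u2.mul u3).neg)
  · simp only [e4]; exact isUnit_of_mul_isUnit_right (h5 ▸ (u1.mul u3).neg)
  · have : (((κ + 1 : ℕ) : ℤ) : ZMod q) = κ * π.e := by push_cast; linear_combination -hκ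
    simp only [this]
    exact uκ.mul ue
  · simpa using uκ
  · have : ((x3 - x4 : ℤ) : ZMod q) * (π.e * a₀ * π.al * π.al' * π.ga * π.ga' * π.mu) =
        -((π.al : ZMod q) * π.ga - π.al' * π.ga') := by
      push_cast
      rw [e3, e4]
      linear_combination ((π.al : ZMod q) * π.ga * π.ga' * π.mu) * h6 -
        ((π.al' : ZMod q) * π.ga * π.ga' * π.mu) * h5 - ((π.al : ZMod q) * π.ga * π.mu * iμ) * h2 +
        ((π.al' : ZMod q) * π.ga' * π.mu * iμ) * h1 -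
        ((π.al : ZMod q) * π.ga - π.al' * π.ga') * h3
    exact isUnit_of_mul_isUnit_left (this ▸ ud'.neg)
  · have : ((x1 * x3 - x2 * x4 : ℤ) : ZMod q) * (π.e * π.ga * π.ga' * π.mu) =
        ((π.e : ZMod q) - 1) * (π.ga - π.ga') := by
      push_cast
      rw [e1, e2, e3, e4]
      linear_combination ((1 - (π.e : ZMod q)) * π.ga * π.ga' * π.mu) * h6 -
        ((1 - (π.e : ZMod q)) * π.ga * π.ga' * π.mu) * h5 -
        ((1 - (π.e : ZMod q)) * π.ga * π.mu * iμ) * h2 +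
        ((1 - (π.e : ZMod q)) * π.ga' * π.mu * iμ) * h1 -
        (1 - (π.e : ZMod q)) * (π.ga - π.ga') * h3
    exact isUnit_of_mul_isUnit_left (this ▸ ue'.mul ud)

open Classical in
theorem srd (hU : SU) (hG : SG) (hC : SCV) : SRD := by
  intro q H P H' P' X hq hpw hH hP hH' hP' hCB π hπ h₀ y₀
  have : NeZero q := ⟨hq.ne'⟩
  obtain ⟨ρ, hρ⟩ : ∃ ρ, ρ = rad q := ⟨_, rfl⟩
  have r1 : ρ ∣ q := hρ ▸ Nat.prod_primeFactors_dvd q
  have r2 : ρ ^ 2 ∣ q := hρ ▸ d_rad_sq hpw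
  have r3 : q ∣ ρ ^ q := hρ ▸ Nat.dvd_prod_primeFactors_pow_self hq.ne'
  have r0 : 0 < ρ := Nat.pos_of_dvd_of_pos r1 hq
  have X0 : 0 ≤ X := le_trans (Nat.cast_nonneg _) (hCB π hπ 0 0)
  have ue : IsUnit (π.e : ZMod q) := by simpa using d_unit.1 hπ.e
  have ue' : IsUnit ((π.e : ZMod q) - 1) := by simpa using d_unit.1 hπ.e'
  have ua := d_unit.1 hπ.al
  have ua' := d_unit.1 hπ.al'
  obtain ⟨iγ, h1⟩ := (d_unit.1 hπ.ga).exists_right_inv
  obtain ⟨iγ', h2⟩ := (d_unit.1 hπ.ga').exists_right_inv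
  obtain ⟨iμ, h3⟩ := (d_unit.1 hπ.mu).exists_right_inv
  obtain ⟨κ, hκ⟩ : ∃ κ : ℕ, (κ : ZMod q) * ((π.e : ZMod q) - 1) = 1 := by
    obtain ⟨c, hc⟩ := ue'.exists_left_inv
    exact ⟨c.val, by rw [ZMod.natCast_zmod_val, hc]⟩
  obtain ⟨Γ, Γ1, Γ2, Γ3⟩ := hG q ρ q π.e κ r2 r3 hπ.e1 ue hκ
  let g₁ : ℕ → ZMod q := fun a₀ => -(((π.e : ZMod q) * a₀ * π.al)⁻¹ * (iγ * iμ))
  let g₂ : ℕ → ZMod q := fun a₀ => -(((π.e : ZMod q) * a₀ * π.al')⁻¹ * (iγ' * iμ))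
  have h5 : ∀ a₀ : ℕ, IsUnit (a₀ : ZMod q) → π.e * a₀ * π.al * g₁ a₀ = -(iγ * iμ) := by
    intro a₀ h
    have := ZMod.mul_inv_of_unit _ ((ue.mul h).mul ua)
    simp only [g₁]
    linear_combination -(iγ * iμ) * this
  have h6 : ∀ a₀ : ℕ, IsUnit (a₀ : ZMod q) → π.e * a₀ * π.al' * g₂ a₀ = -(iγ' * iμ) := by
    intro a₀ h
    have := ZMod.mul_inv_of_unit _ ((ue.mul h).mul ua')
    simp only [g₂]
    linear_combination -(iγ' * iμ) * this
  let gd : ℕ → ZMod q × ZMod q → Prop := fun a₀ x =>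
    (ρ : ZMod q) ∣ g₂ a₀ * (x.2 + -π.mu * x.1) - 1 ∧ (ρ : ZMod q) ∣ g₁ a₀ * x.2 - 1
  let Dv : ℕ → ZMod q × ZMod q → ZMod q := fun a₀ x =>
    (1 - (π.e : ZMod q)) * a₀ * π.al * (g₁ a₀ * x.2) ^ (κ + 1) -
      (1 - (π.e : ZMod q)) * a₀ * π.al' * (g₂ a₀ * (x.2 + -π.mu * x.1)) ^ (κ + 1)
  let Z : ℕ × ZMod q → ℝ := fun c =>
    ‖∑ x ∈ @Finset.filter _ (gd c.1) (fun _ => Classical.propDecidable _) univ,
    cc q y₀ P x.1 * cc q h₀ H x.2 * stdAddChar (c.2 * Dv c.1 x)‖ ^ 2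
  let vv : ℕ → ZMod q := fun a => ((a % ρ : ℕ) : ZMod q) * (a : ZMod q)⁻¹
  have f0 : ∀ a : ℕ, a.Coprime q → IsUnit ((a % ρ : ℕ) : ZMod q) := by
    intro a ha
    rw [ZMod.isUnit_iff_coprime]
    refine Nat.Coprime.coprime_dvd_right r3 (Nat.Coprime.pow_right _ ?_)
    have := Nat.Coprime.coprime_dvd_right r1 ha
    rwa [Nat.Coprime, ← Nat.gcd_rec, Nat.gcd_comm]
  have f1 : ∀ a : ℕ, a.Coprime q → (a : ZMod q) * vv a = (a % ρ : ℕ) := by
    intro a ha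
    have := ZMod.mul_inv_of_unit _ ((ZMod.isUnit_iff_coprime a q).2 ha)
    simp only [vv]
    linear_combination ((a % ρ : ℕ) : ZMod q) * this
  have f2 : ∀ a : ℕ, a.Coprime q → (ρ : ZMod q) ∣ vv a - 1 := by
    intro a ha
    have := ZMod.mul_inv_of_unit _ ((ZMod.isUnit_iff_coprime a q).2 ha)
    have e : (a : ZMod q) = (a % ρ : ℕ) + ρ * (a / ρ : ℕ) := by
      exact_mod_cast congrArg (fun z : ℕ => (z : ZMod q)) (Nat.mod_add_div a ρ).symm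
    refine ⟨-((a / ρ : ℕ) * (a : ZMod q)⁻¹), ?_⟩
    simp only [vv]
    linear_combination this - (a : ZMod q)⁻¹ * e
  have f3 : ∀ u : ZMod q, (ρ : ZMod q) ∣ u - 1 → (u ^ κ) ^ (π.e - 1) = u := by
    intro u hu
    rw [← pow_mul]
    refine (pow_eq_pow_of_modEq (b := 1) ?_ (hU q ρ q r3 u hu)).trans (pow_one u)
    rw [← ZMod.natCast_eq_natCast_iff]
    push_cast [Nat.cast_sub hπ.e1]
    exact hκ
  have step1 : ∀ a ∈ (range q).filter (fun a => a.Coprime q),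
      ‖∑ b ∈ π.fam ρ h₀ y₀ H P, ee q (a * π.val b)‖ ^ 2 ≤
        ((ρ : ℝ) / q) ^ 2 * Z (a % ρ, vv a ^ κ) := by
    intro a ha
    have hc := (mem_filter.1 ha).2
    let Φ : ZMod q → ZMod q → ℂ := fun h y =>
      if (ρ : ZMod q) ∣ π.ga * (y + π.mu * h) - 1 ∧ (ρ : ZMod q) ∣ π.ga' * y - 1 then
        stdAddChar (a * (π.al * (π.ga * (y + π.mu * h)) ^ π.e - π.al' * (π.ga' * y) ^ π.e) : ZMod q)
      else 0
    have e1 : ∑ b ∈ π.fam ρ h₀ y₀ H P, ee q (a * π.val b) = ∑ b ∈ box h₀ y₀ H P, Φ b.1 b.2 := by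
      rw [Par.fam, sum_filter]
      refine sum_congr rfl fun b _ => ?_
      simp only [Φ, ← d_dvd r1, ee, ← stdAddChar_coe, Par.val]
      push_cast
      rfl
    have e2 := d_poisson2 h₀ y₀ H P Φ
    simp only [Φ, d_hat Γ2 Γ3 ua ua' ((ZMod.isUnit_iff_coprime a q).2 hc) h1 h2 h3 (f1 a hc)
      (f2 a hc) (h5 _ (f0 a hc)) (h6 _ (f0 a hc))] at e2
    have e3 : (q : ℂ) ^ 2 * ∑ b ∈ box h₀ y₀ H P, Φ b.1 b.2 =
        Γ ((a % ρ : ℕ) * π.al) * Γ (-((a % ρ : ℕ) * π.al')) *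
          ∑ x ∈ @Finset.filter _ (gd (a % ρ)) (fun _ => Classical.propDecidable _) univ,
          cc q y₀ P x.1 * cc q h₀ H x.2 * stdAddChar (vv a ^ κ * Dv (a % ρ) x) := by
      rw [sum_filter, mul_sum univ]
      refine e2.trans (sum_congr rfl fun x _ => ?_)
      by_cases hx : gd (a % ρ) x
      · rw [if_pos hx, if_pos hx]
        simp only [Dv]
        ring
      · rw [if_neg hx, if_neg hx]
        ring
    have e4 := congrArg (fun z : ℂ => ‖z‖ ^ 2) e3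
    simp only [norm_mul, norm_pow, Complex.norm_natCast, mul_pow] at e4
    have q0 : (0 : ℝ) < q := by exact_mod_cast hq
    rw [e1]
    refine le_of_mul_le_mul_left ?_ (by positivity : (0 : ℝ) < ((q : ℝ) ^ 2) ^ 2)
    rw [e4]
    have e5 : ((q : ℝ) ^ 2) ^ 2 * (((ρ : ℝ) / q) ^ 2 * Z (a % ρ, vv a ^ κ)) =
        (q * ρ) * (q * ρ) * Z (a % ρ, vv a ^ κ) := by field_simp
    rw [e5]
    exact mul_le_mul_of_nonneg_right (mul_le_mul (Γ1 _) (Γ1 _) (by positivity) (by positivity))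
      (by positivity)
  have step2 : ∑ a ∈ (range q).filter (fun a => a.Coprime q), Z (a % ρ, vv a ^ κ) ≤
      ∑ c ∈ ((range ρ).filter fun a₀ : ℕ => IsUnit (a₀ : ZMod q)) ×ˢ (univ : Finset (ZMod q)),
        Z c := by
    rw [← sum_image (g := fun a => (a % ρ, vv a ^ κ))]
    · refine sum_le_sum_of_subset_of_nonneg (fun c hc => ?_) fun c _ _ => by positivity
      obtain ⟨a, ha, rfl⟩ := mem_image.1 hc
      exact mem_product.2 ⟨mem_filter.2 ⟨mem_range.2 (Nat.mod_lt _ r0),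
        f0 a (mem_filter.1 ha).2⟩, mem_univ _⟩
    · intro a ha a' ha' h
      have ha := mem_filter.1 (mem_coe.1 ha)
      have ha' := mem_filter.1 (mem_coe.1 ha')
      have e1 : a % ρ = a' % ρ := congrArg Prod.fst h
      have e2 : vv a ^ κ = vv a' ^ κ := congrArg Prod.snd h
      have e3 : vv a = vv a' := by rw [← f3 _ (f2 a ha.2), e2, f3 _ (f2 a' ha'.2)]
      have u : IsUnit (vv a) := isUnit_of_mul_isUnit_right (f1 a ha.2 ▸ f0 a ha.2)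
      have e4 : (a : ZMod q) = a' := u.mul_right_cancel (by rw [f1 a ha.2, e3, f1 a' ha'.2, e1])
      exact Nat.ModEq.eq_of_lt_of_lt ((ZMod.natCast_eq_natCast_iff _ _ _).1 e4)
        (mem_range.1 ha.1) (mem_range.1 ha'.1)
  have step3 : ∀ a₀ ∈ (range ρ).filter fun a₀ : ℕ => IsUnit (a₀ : ZMod q),
      ∑ b : ZMod q, Z (a₀, b) ≤ q * ((H * P * LL q ^ 2) ^ 2 * X) := by
    intro a₀ ha
    have ha := (mem_filter.1 ha).2
    obtain ⟨π', ok, p1, p2, p3, p4, p5, p6⟩ := d_dual hπ hκ ha h1 h2 h3 (h5 a₀ ha) (h6 a₀ ha)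
    refine hC q H P H' P' hH hP hH' hP' (gd a₀) (Dv a₀) X (fun η₀ ξ₀ => ?_) h₀ y₀
    refine le_trans (Nat.cast_le.2 (card_le_card fun b hb => ?_)) (hCB π' ok η₀ ξ₀)
    simp only [mem_filter, mem_product] at hb
    have m : ∀ x : ℤ × ℤ, x ∈ box η₀ ξ₀ H' P' → gd a₀ (x.1, x.2) →
        x ∈ π'.fam (rad q) η₀ ξ₀ H' P' := by
      intro x hx hg
      rw [← hρ]
      refine mem_filter.2 ⟨hx, (d_dvd r1 _).1 ?_, (d_dvd r1 _).1 ?_⟩
      · push_cast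
        rw [p3, p5]
        push_cast
        exact hg.1
      · push_cast
        rw [p4]
        exact hg.2
    have vl : ∀ x : ℤ × ℤ, (π'.val x : ZMod q) = -Dv a₀ (x.1, x.2) := by
      intro x
      simp only [Par.val, Dv]
      push_cast
      rw [p1, p2, p3, p4, p5, p6]
      push_cast
      ring
    refine mem_filter.2 ⟨mem_product.2 ⟨m _ hb.1.1 hb.2.1, m _ hb.1.2 hb.2.2.1⟩, ?_⟩
    rw [← ZMod.intCast_zmod_eq_zero_iff_dvd]
    push_cast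
    rw [vl, vl, hb.2.2.2, sub_self]
  rw [← hρ]
  have q0 : (0 : ℝ) < q := by exact_mod_cast hq
  refine (sum_le_sum step1).trans ?_
  rw [← mul_sum]
  refine (mul_le_mul_of_nonneg_left (step2.trans ?_) (by positivity)).trans
    (le_of_eq (b := ((ρ : ℝ) / q) ^ 2 * (ρ * (q * ((H * P * LL q ^ 2) ^ 2 * X)))) rfl) |>.trans
    (le_of_eq (by field_simp))
  rw [sum_product]
  refine (sum_le_sum step3).trans ?_
  rw [sum_const, nsmul_eq_mul]
  refine mul_le_mul_of_nonneg_right ?_ (by positivity)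
  exact_mod_cast (card_filter_le _ _).trans (card_range ρ).le

end

end Pool.Agent.MP_4060c9_nt.H38
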