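import Pool.Agent.MP_4060c9_nt.H38.Kit

/-! One extraction step. -/

namespace Pool.Agent.MP_4060c9_nt.H38

open Polynomial Finset Filter

noncomputable section

/-- The square of the modulus of the value at `z`. -/
def ex1_w (A : ℕ[X]) (z : ℂ) : ℝ := ‖(aeval z A : ℂ)‖ ^ 2

theorem ex1_w0 (A : ℕ[X]) (z : ℂ) : 0 ≤ ex1_w A z := sq_nonneg _

theorem ex1_mul (A B : ℕ[X]) (z : ℂ) : ex1_w (A * B) z = ex1_w A z * ex1_w B z := by
  simp only [ex1_w, map_mul, norm_mul, mul_pow]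

theorem ex1_pow (A : ℕ[X]) (n : ℕ) (z : ℂ) : ex1_w (A ^ n) z = ex1_w A z ^ n := by
  simp only [ex1_w, map_pow, norm_pow, ← pow_mul, mul_comm]

theorem ex1_prod {κ : Type} (s : Finset κ) (A : κ → ℕ[X]) (z : ℂ) :
    ex1_w (∏ i ∈ s, A i) z = ∏ i ∈ s, ex1_w (A i) z := by
  simp only [ex1_w, map_prod, norm_prod, prod_pow]

theorem ex1_cont (A : ℕ[X]) : Continuous (ex1_w A) :=
  (A.continuous_aeval.norm).pow 2

theorem ex1_pars (A : ℕ[X]) : nn A = Real.circleAverage (ex1_w A) 0 1 := by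
  have h := (A.map (algebraMap ℕ ℂ)).sum_sq_norm_coeff_eq_circleAverage
  simp only [eval_map_algebraMap] at h
  refine Eq.trans ?_ h
  rw [support_map_of_injective _ (fun a b e => Nat.cast_injective (R := ℂ) e)]
  refine sum_congr rfl fun i _ => ?_
  simp [sq]

theorem ex1_le {κ : Type} (s : Finset κ) (A : ℕ[X]) (c : κ → ℝ) (B : κ → ℕ[X])
    (h : ∀ z, ex1_w A z ≤ ∑ i ∈ s, c i * ex1_w (B i) z) : nn A ≤ ∑ i ∈ s, c i * nn (B i) := by
  have e : ∑ i ∈ s, c i * nn (B i) =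
      Real.circleAverage (fun z => ∑ i ∈ s, c i * ex1_w (B i) z) 0 1 := by
    rw [Real.circleAverage_fun_sum (f := fun i z => c i * ex1_w (B i) z) fun i _ =>
      (continuous_const.mul (ex1_cont _)).continuousOn.circleIntegrable']
    refine sum_congr rfl fun i _ => ?_
    rw [ex1_pars]
    exact (Real.circleAverage_fun_smul (a := c i) (f := ex1_w (B i))).symm
  rw [e, ex1_pars]
  exact Real.circleAverage_mono (ex1_cont _).continuousOn.circleIntegrable'
    (continuous_finsetSum s fun i _ =>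
      continuous_const.mul (ex1_cont _)).continuousOn.circleIntegrable' fun z _ => h z

theorem ex1_F1 {s : ℕ} (hs : 1 ≤ s) (F : ℕ[X]) (g : Fin s → ℕ[X]) :
    nn (F * ∏ i, g i) ≤ ∑ i, nn (F * g i ^ s) := by
  have := ex1_le univ (F * ∏ i, g i) (fun _ => 1) (fun i => F * g i ^ s) fun z => by
    simp only [one_mul, ex1_mul, ex1_pow, ex1_prod, ← mul_sum]
    refine mul_le_mul_of_nonneg_left ?_ (ex1_w0 _ _)
    obtain ⟨j, -, hj⟩ := exists_max_image univ (fun i => ex1_w (g i) z) ⟨⟨0, hs⟩, mem_univ _⟩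
    refine (prod_le_prod (g := fun _ => ex1_w (g j) z) (fun i _ => ex1_w0 _ _) hj).trans ?_
    rw [prod_const, card_univ, Fintype.card_fin]
    exact single_le_sum (f := fun i => ex1_w (g i) z ^ s)
      (fun i _ => pow_nonneg (ex1_w0 _ _) _) (mem_univ j)
  simpa only [one_mul] using this

theorem ex1_F2 (t : ℕ) {T : ℝ} (hT : 0 < T) (F g f : ℕ[X]) :
    nn (F * (g * f ^ t)) ≤ T ^ t * nn (F * g ^ (t + 1)) + T⁻¹ * nn (F * f ^ (t + 1)) := by
  have := ex1_le univ (F * (g * f ^ t)) ![T ^ t, T⁻¹] ![F * g ^ (t + 1), F * f ^ (t + 1)]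
    fun z => by
      simp only [Fin.sum_univ_two, Matrix.cons_val_zero, Matrix.cons_val_one, ex1_mul, ex1_pow]
      have a0 := ex1_w0 F z
      have x0 := ex1_w0 g z
      have y0 := ex1_w0 f z
      generalize ex1_w F z = a at *
      generalize ex1_w g z = x at *
      generalize ex1_w f z = y at *
      have k : x * y ^ t ≤ T ^ t * x ^ (t + 1) + T⁻¹ * y ^ (t + 1) := by
        rcases le_total y (T * x) with h | h
        · refine le_add_of_le_of_nonneg ?_ (by positivity)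
          calc x * y ^ t ≤ x * (T * x) ^ t := by gcongr
            _ = _ := by ring
        · refine le_add_of_nonneg_of_le (by positivity) ?_
          have : x ≤ T⁻¹ * y := by rwa [le_inv_mul_iff₀ hT]
          calc x * y ^ t ≤ T⁻¹ * y * y ^ t := by gcongr
            _ = _ := by ring
      calc a * (x * y ^ t) ≤ a * (T ^ t * x ^ (t + 1) + T⁻¹ * y ^ (t + 1)) := by gcongr
        _ = _ := by ring
  simpa only [Fin.sum_univ_two, Matrix.cons_val_zero, Matrix.cons_val_one] using this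

theorem ex1_binom (a b : ℕ[X]) (t : ℕ) :
    Le ((a + b) ^ (t + 1)) (a ^ (t + 1) + ((t + 1 : ℕ) : ℕ[X]) * (b * (a + b) ^ t)) := by
  induction t with
  | zero => exact .of_eq (by simp)
  | succ t ih =>
    have h := ((Le.refl a).mul ih).add (Le.refl (b * (a + b) ^ (t + 1)))
    refine (Le.of_eq (by ring)).trans (h.trans ⟨((t + 1 : ℕ) : ℕ[X]) * (b * b * (a + b) ^ t), ?_⟩)
    push_cast
    ring

theorem ex1_swap {ι κ : Type} (Z : Finset ι) (K : Finset κ) (d : ι → ℕ) (q : ι → κ → Prop)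
    [∀ z v, Decidable (q z v)] (A : κ → ℕ[X]) :
    ∑ z ∈ Z, X ^ d z * ∑ v ∈ K.filter (q z), A v =
      ∑ v ∈ K, gen (Z.filter fun z => q z v) d * A v := by
  simp only [gen, sum_filter, mul_sum, sum_mul]
  rw [sum_comm]
  refine sum_congr rfl fun v _ => sum_congr rfl fun z _ => ?_
  split_ifs <;> simp

theorem ex1_split {ι : Type} (PP : Finset ℕ) (hP : ∀ p ∈ PP, p.Prime) (Z : Finset ι)
    (d J : ι → ℕ) (g : ℕ → ℕ[X]) (t : ℕ) :
    Le (gen Z d * (∑ p ∈ PP, g p) ^ (t + 1))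
      (∑ v ∈ Fintype.piFinset fun _ : Fin (t + 1) => PP,
          gen (Z.filter fun z => ∀ i, (v i).Coprime (J z)) d * ∏ i, g (v i) +
        ((t + 1 : ℕ) : ℕ[X]) * ∑ p ∈ PP,
          gen (Z.filter fun z => p ∣ J z) d * (g p * (∑ p ∈ PP, g p) ^ t)) := by
  rw [← ex1_swap Z _ d (fun z (v : Fin (t + 1) → ℕ) => ∀ i, (v i).Coprime (J z)),
    ← ex1_swap Z PP d (fun z p => p ∣ J z), mul_sum, ← sum_add_distrib, gen, sum_mul]
  refine Le.sum fun z _ => ?_
  have e : ∑ p ∈ PP, g p = ∑ p ∈ PP.filter (fun p => p.Coprime (J z)), g p +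
      ∑ p ∈ PP.filter (fun p => p ∣ J z), g p := by
    rw [← sum_filter_add_sum_filter_not PP fun p => p.Coprime (J z)]
    refine congrArg _ (sum_congr (filter_congr fun p hp => ?_) fun _ _ => rfl)
    rw [(hP p hp).coprime_iff_not_dvd, not_not]
  have e2 : (Fintype.piFinset fun _ : Fin (t + 1) => PP).filter
      (fun v => ∀ i, (v i).Coprime (J z)) =
      Fintype.piFinset fun _ : Fin (t + 1) => PP.filter fun p => p.Coprime (J z) := by
    ext v
    simp only [mem_filter, Fintype.mem_piFinset, forall_and]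
  rw [e2, ← sum_pow', ← sum_mul, mul_left_comm, ← mul_add]
  refine (Le.refl _).mul ?_
  rw [e]
  exact ex1_binom _ _ t

theorem ex1_bad {ι : Type} {R D : ℕ} {PP : Finset ℕ} (hP : IsPP R PP) (hR : 2 ≤ R) (Z : Finset ι)
    (d J : ι → ℕ) (hJ : ∀ z ∈ Z, J z ≠ 0 ∧ J z ≤ R ^ D) (G : ℕ[X]) :
    ∑ p ∈ PP, nn (gen (Z.filter fun z => p ∣ J z) d * G) ≤ D * nn (gen Z d * G) := by
  have h : Le (∑ p ∈ PP, gen (Z.filter fun z => p ∣ J z) d * G) ((D : ℕ[X]) * (gen Z d * G)) := by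
    rw [← ex1_swap Z PP d (fun z p => p ∣ J z) fun _ => G, gen, sum_mul, mul_sum]
    refine Le.sum fun z hz => ?_
    rw [sum_const, nsmul_eq_mul, mul_left_comm]
    exact (Le.natCast (card_bad hP hR (hJ z hz).1 (hJ z hz).2)).mul (.refl _)
  calc _ ≤ ∑ p ∈ PP, ip (gen (Z.filter fun z => p ∣ J z) d * G) (gen Z d * G) :=
        sum_le_sum fun p _ => ip_mono (.refl _) ((gen_mono d (filter_subset _ _)).mul (.refl _))
    _ ≤ ip ((D : ℕ[X]) * (gen Z d * G)) (gen Z d * G) := by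
        rw [← ip_sum_left]
        exact ip_mono h (.refl _)
    _ = _ := ip_natCast_left _ _ _

theorem sex1 : SEX1 := by
  intro k s D R PP hP hs hD hR ι Z d J c n M₁ M₂ hJ m1 m2 h1 h2
  obtain ⟨t, rfl⟩ : ∃ t, s = t + 1 := ⟨s - 1, by omega⟩
  obtain ⟨g, hg⟩ : ∃ g : ℕ → ℕ[X], g = fun p => expand ℕ (c * p ^ k) (ff k PP n) := ⟨_, rfl⟩
  have e1 : ∀ p, GG k (t + 1) PP (c * p ^ k) n = g p ^ (t + 1) := fun p => by
    rw [hg, GG, map_pow]
  have e2 : GG k (t + 1) PP c (n + 1) = (∑ p ∈ PP, g p) ^ (t + 1) := by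
    rw [hg, GG, map_pow, ff, map_sum]
    simp only [expand_mul]
  simp only [EE, e1, e2] at h1 h2 ⊢
  have c0 : (PP.card : ℝ) ≤ R := by exact_mod_cast hP.2
  have R0 : (0 : ℝ) < R := by positivity
  have D1 : (1 : ℝ) ≤ D := by exact_mod_cast hD
  obtain ⟨σ, hσ⟩ : ∃ σ : ℝ, σ = ((t + 1 : ℕ) : ℝ) := ⟨_, rfl⟩
  have s1 : 1 ≤ σ := by
    rw [hσ]
    exact_mod_cast hs
  have good : nn (∑ v ∈ Fintype.piFinset fun _ : Fin (t + 1) => PP,
      gen (Z.filter fun z => ∀ i, (v i).Coprime (J z)) d * ∏ i, g (v i)) ≤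
        σ * ((R : ℝ) ^ (2 * (t + 1)) * M₁) := by
    refine (nn_sum_le _ _).trans ?_
    have a : ∀ v ∈ Fintype.piFinset fun _ : Fin (t + 1) => PP,
        nn (gen (Z.filter fun z => ∀ i, (v i).Coprime (J z)) d * ∏ i, g (v i)) ≤ σ * M₁ :=
      fun v hv => (ex1_F1 hs _ fun i => g (v i)).trans ((sum_le_card_nsmul _ _ M₁ fun i _ =>
        (nn_mono ((gen_mono d (monotone_filter_right _ fun z _ hz => hz i)).mul (.refl _))).trans
          (h1 _ (Fintype.mem_piFinset.1 hv i))).trans (by simp [hσ]))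
    have b := sum_le_card_nsmul _ _ _ a
    rw [Fintype.card_piFinset_const] at b ⊢
    rw [nsmul_eq_mul] at b
    push_cast at b ⊢
    calc _ ≤ (R : ℝ) ^ (t + 1) * ((R : ℝ) ^ (t + 1) * (σ * M₁)) :=
          mul_le_mul (by gcongr) (b.trans (by gcongr)) (sum_nonneg fun _ _ => nn_nonneg _)
            (by positivity)
      _ = _ := by ring
  obtain ⟨T, hT⟩ : ∃ T : ℝ, T = 4 * σ ^ 2 * D * R := ⟨_, rfl⟩
  have T0 : 0 < T := by
    rw [hT]
    positivity
  have E0 := nn_nonneg (gen Z d * (∑ p ∈ PP, g p) ^ (t + 1))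
  have bad : nn (((t + 1 : ℕ) : ℕ[X]) * ∑ p ∈ PP,
      gen (Z.filter fun z => p ∣ J z) d * (g p * (∑ p ∈ PP, g p) ^ t)) ≤
        σ ^ 2 * (4 * σ ^ 2 * D) ^ t * ((R : ℝ) ^ (t + 1 + 1) * M₂) +
          nn (gen Z d * (∑ p ∈ PP, g p) ^ (t + 1)) / 4 := by
    rw [nn_natCast, ← hσ]
    have a : ∑ p ∈ PP, nn (gen (Z.filter fun z => p ∣ J z) d * (g p * (∑ p ∈ PP, g p) ^ t)) ≤
        T ^ t * (R * M₂) + T⁻¹ * (D * nn (gen Z d * (∑ p ∈ PP, g p) ^ (t + 1))) := by
      refine (sum_le_sum fun p _ => ex1_F2 t T0 _ _ _).trans ?_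
      rw [sum_add_distrib, ← mul_sum, ← mul_sum]
      refine add_le_add (mul_le_mul_of_nonneg_left ?_ (by positivity))
        (mul_le_mul_of_nonneg_left (ex1_bad hP hR Z d J hJ _) (by positivity))
      refine (sum_le_card_nsmul _ _ M₂ fun p hp => (nn_mono
        ((gen_mono d (filter_subset _ _)).mul (.refl _))).trans (h2 p hp)).trans ?_
      rw [nsmul_eq_mul]
      gcongr
    calc _ ≤ σ ^ 2 * (R * (T ^ t * (R * M₂) +
          T⁻¹ * (D * nn (gen Z d * (∑ p ∈ PP, g p) ^ (t + 1))))) :=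
          mul_le_mul_of_nonneg_left ((nn_sum_le _ _).trans (mul_le_mul c0 a
            (sum_nonneg fun _ _ => nn_nonneg _) R0.le)) (by positivity)
      _ = _ := by
          rw [hT, mul_pow _ (R : ℝ)]
          field_simp
          ring
  have main := (nn_mono (ex1_split PP (fun p hp => (hP.1 p hp).1) Z d J g t)).trans (nn_add_le _ _)
  have K1 : (1 : ℝ) ≤ 4 * σ ^ 2 * D := by nlinarith
  have K2 : 4 * σ ^ 2 * (4 * σ ^ 2 * D) ^ t ≤ (4 * σ ^ 2 * D) ^ (t + 1) := by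
    rw [pow_succ' (4 * σ ^ 2 * D)]
    exact mul_le_mul_of_nonneg_right (le_mul_of_one_le_right (by positivity) D1) (by positivity)
  have K3 : 4 * σ ≤ (4 * σ ^ 2 * D) ^ (t + 1) :=
    le_trans (by nlinarith [one_le_pow₀ (n := t) K1]) K2
  have e3 : (((4 * (t + 1) ^ 2 * D) ^ (t + 1) : ℕ) : ℝ) = (4 * σ ^ 2 * D) ^ (t + 1) := by
    rw [hσ]
    push_cast
    rfl
  rw [e3, mul_add]
  have a1 := mul_le_mul_of_nonneg_right K3 (show 0 ≤ (R : ℝ) ^ (2 * (t + 1)) * M₁ by positivity)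
  have a2 := mul_le_mul_of_nonneg_right K2 (show 0 ≤ (R : ℝ) ^ (t + 1 + 1) * M₂ by positivity)
  linarith

end

end Pool.Agent.MP_4060c9_nt.H38
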