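import Pool.Agent.MP_4060c9_nt.H38.Kit

/-! From an admissible exponent to a lower bound for the number of sums of powers. -/

namespace Pool.Agent.MP_4060c9_nt.H38

open Polynomial Finset Filter

theorem fin_log {r c : ℝ} (hr : 0 < r) (hc : 0 < c) :
    ∀ᶠ R : ℕ in atTop, Real.log (4 * R + 1) ≤ c * (R : ℝ) ^ r := by
  have h := tendsto_natCast_atTop_atTop.eventually
    ((isLittleO_log_rpow_atTop hr).bound (half_pos hc))
  filter_upwards [h, eventually_ge_atTop 5] with R h1 h2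
  have h3 : (5 : ℝ) ≤ R := by exact_mod_cast h2
  rw [Real.norm_of_nonneg (Real.log_nonneg (by linarith)),
    Real.norm_of_nonneg (by positivity)] at h1
  have h4 : Real.log (4 * R + 1) ≤ Real.log ((R : ℝ) ^ 2) :=
    Real.log_le_log (by positivity) (by nlinarith)
  rw [Real.log_pow] at h4
  push_cast at h4
  linarith

theorem fin_primes {η : ℝ} (hη : 0 < η) :
    ∀ᶠ R : ℕ in atTop, ∃ PP, IsPP R PP ∧ (R : ℝ) ^ (1 - η) ≤ PP.card := by
  filter_upwards [fin_log hη one_pos, fin_log (r := 1 / 2) (c := 1 / 20) (by norm_num)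
    (by norm_num), eventually_ge_atTop 1] with R h1 h2 h3
  have hR : (1 : ℝ) ≤ R := by exact_mod_cast h3
  let S := (Ioc R (4 * R)).filter Nat.Prime
  have hS : ∀ p ∈ S, p.Prime ∧ R < p ∧ p ≤ 4 * R := fun p hp =>
    ⟨(mem_filter.1 hp).2, mem_Ioc.1 (mem_filter.1 hp).1⟩
  rcases le_total R S.card with h | h
  · obtain ⟨T, hT, e⟩ := exists_subset_card_eq h
    refine ⟨T, ⟨fun p hp => hS p (hT hp), e.le⟩, ?_⟩
    rw [e]
    simpa using Real.rpow_le_rpow_of_exponent_le hR (show 1 - η ≤ 1 by linarith)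
  refine ⟨S, ⟨hS, h⟩, ?_⟩
  have e : Chebyshev.theta (4 * R : ℕ) = Chebyshev.theta R + ∑ p ∈ S, Real.log p := by
    simp only [Chebyshev.theta, Nat.floor_natCast, S, sum_filter]
    exact (sum_Ioc_consecutive _ (Nat.zero_le R) (by omega)).symm
  have a1 := Chebyshev.theta_ge (4 * R)
  have a2 := Chebyshev.theta_le_log4_mul_x (x := R) (by positivity)
  have a3 : ∑ p ∈ S, Real.log p ≤ S.card * Real.log (4 * R + 1) := by
    rw [← nsmul_eq_mul]
    refine sum_le_card_nsmul _ _ _ fun p hp => Real.log_le_log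
      (by exact_mod_cast (hS p hp).1.pos) ?_
    have : (p : ℝ) ≤ (4 * R : ℕ) := by exact_mod_cast (hS p hp).2.2
    push_cast at this
    linarith
  rw [e] at a1
  push_cast at a1
  have a4 : Real.log 4 = 2 * Real.log 2 := by
    rw [show (4 : ℝ) = 2 ^ 2 by norm_num, Real.log_pow]
    norm_num
  have a5 : √(4 * R : ℝ) = 2 * √(R : ℝ) := by
    rw [Real.sqrt_mul (by norm_num), show (4 : ℝ) = 2 ^ 2 by norm_num,
      Real.sqrt_sq (by norm_num)]
  rw [← Real.sqrt_eq_rpow] at h2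
  have a6 : Real.log (4 * R) ≤ Real.log (4 * R + 1) :=
    Real.log_le_log (by positivity) (by linarith)
  have a7 : 1 ≤ √(R : ℝ) := Real.one_le_sqrt.2 hR
  have a8 : √(R : ℝ) * √(R : ℝ) = R := Real.mul_self_sqrt (by positivity)
  have a9 := Real.log_two_gt_d9
  have b1 : (R : ℝ) ≤ S.card * Real.log (4 * R + 1) := by
    rw [a5] at a1
    rw [a4] at a2
    nlinarith
  have b2 : (R : ℝ) ≤ S.card * (R : ℝ) ^ η :=
    b1.trans (mul_le_mul_of_nonneg_left (by linarith) (by positivity))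
  rw [Real.rpow_sub (by linarith), Real.rpow_one, div_le_iff₀ (by positivity)]
  exact b2

theorem fin_ff {R : ℕ} {PP : Finset ℕ} (h : IsPP R PP) (k : ℕ) : ∀ n i,
    (ff k PP n).coeff i ≠ 0 → ∃ z, 0 < z ∧ z ≤ (4 * R) ^ n ∧ z ^ k = i
  | 0, i, hi => by
    rw [ff, coeff_X] at hi
    refine ⟨1, one_pos, by simp, ?_⟩
    by_contra hne
    exact hi (if_neg (by simpa using hne))
  | n + 1, i, hi => by
    rw [ff, finsetSum_coeff] at hi
    obtain ⟨p, hp, h1⟩ := exists_ne_zero_of_sum_ne_zero hi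
    obtain ⟨p1, -, p3⟩ := h.1 p hp
    rw [coeff_expand (pow_pos p1.pos k)] at h1
    split_ifs at h1 with h2
    · obtain ⟨z, z1, z2, z3⟩ := fin_ff h k n _ h1
      refine ⟨p * z, mul_pos p1.pos z1, ?_, ?_⟩
      · rw [pow_succ']
        exact Nat.mul_le_mul p3 z2
      · rw [mul_pow, z3, Nat.mul_div_cancel' h2]
    · exact absurd rfl h1

theorem fin_pow {A : ℕ[X]} {k B : ℕ} (h : ∀ i, A.coeff i ≠ 0 → ∃ z, 0 < z ∧ z ≤ B ∧ z ^ k = i) :
    ∀ l i, (A ^ l).coeff i ≠ 0 →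
      ∃ f : Fin l → ℕ, (∀ j, 0 < f j ∧ f j ≤ B) ∧ ∑ j, f j ^ k = i
  | 0, i, hi => by
    rw [pow_zero, coeff_one] at hi
    refine ⟨Fin.elim0, fun j => j.elim0, ?_⟩
    by_contra hne
    exact hi (if_neg (by simpa [eq_comm] using hne))
  | l + 1, i, hi => by
    rw [pow_succ', coeff_mul] at hi
    obtain ⟨a, ha, h1⟩ := exists_ne_zero_of_sum_ne_zero hi
    obtain ⟨z, z1, z2, z3⟩ := h _ (left_ne_zero_of_mul h1)
    obtain ⟨f, f1, f2⟩ := fin_pow h l _ (right_ne_zero_of_mul h1)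
    refine ⟨Fin.cons z f, fun j => Fin.cases ⟨z1, z2⟩ f1 j, ?_⟩
    rw [Fin.sum_univ_succ]
    simp only [Fin.cons_zero, Fin.cons_succ]
    rw [z3, f2, mem_antidiagonal.1 ha]

theorem sfin : SFIN := by
  intro k l y θ hk hl hθ hy ⟨ω, hω⟩
  have hk' : (1 : ℝ) ≤ k := by exact_mod_cast hk
  have hd : 0 < (y - θ) * k := mul_pos (sub_pos.2 hy) (by linarith)
  obtain ⟨n, hn⟩ := exists_nat_gt (max 0 ((θ + ω + 1) / ((y - θ) * k)))
  have hn0 : (0 : ℝ) < n := (le_max_left _ _).trans_lt hn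
  have hn1 : θ + ω + 1 ≤ n * ((y - θ) * k) :=
    ((div_lt_iff₀ hd).1 ((le_max_right _ _).trans_lt hn)).le
  have hl0 : (0 : ℝ) < l := by exact_mod_cast hl
  have hm : n * k ≠ 0 := mul_ne_zero (by exact_mod_cast hn0.ne') (by omega)
  obtain ⟨R₀, hR₀⟩ := eventually_atTop.1 ((hω n).and ((fin_primes (η := 1 / (2 * n * l))
    (by positivity)).and (eventually_ge_atTop (l * 8 ^ (n * k)))))
  filter_upwards [eventually_ge_atTop ((l * (4 * R₀) ^ (n * k) : ℕ) : ℝ),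
    eventually_ge_atTop 0] with x hx hx0
  obtain ⟨j, j1, j2⟩ := Nat.exists_not_and_succ_of_not_zero_of_exists
    (p := fun j => x < ((l * (4 * (R₀ + j)) ^ (n * k) : ℕ) : ℝ)) (not_lt.2 hx) (by
      obtain ⟨j, hj⟩ := exists_nat_gt x
      refine ⟨j, hj.trans_le (Nat.cast_le.2 ?_)⟩
      exact ((by omega : j ≤ 4 * (R₀ + j)).trans (Nat.le_self_pow hm _)).trans
        (Nat.le_mul_of_pos_left _ hl))
  obtain ⟨h1, ⟨PP, hP, h2⟩, h3⟩ := hR₀ (R₀ + j) (Nat.le_add_right _ _)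
  rw [← add_assoc] at j2
  generalize R₀ + j = R at j1 j2 h1 hP h2 h3
  have hR : 1 ≤ R := (Nat.succ_le_of_lt (by positivity)).trans h3
  have hR' : (1 : ℝ) ≤ R := by exact_mod_cast hR
  have x1 : x ≤ (R : ℝ) ^ (n * k + 1) := by
    refine j2.le.trans ?_
    have : l * (4 * (R + 1)) ^ (n * k) ≤ R ^ (n * k + 1) :=
      calc l * (4 * (R + 1)) ^ (n * k) ≤ l * (8 * R) ^ (n * k) :=
          Nat.mul_le_mul_left _ (Nat.pow_le_pow_left (by omega) _)
        _ = l * 8 ^ (n * k) * R ^ (n * k) := by rw [mul_pow, mul_assoc]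
        _ ≤ R * R ^ (n * k) := Nat.mul_le_mul_right _ h3
        _ = R ^ (n * k + 1) := (pow_succ' _ _).symm
    exact_mod_cast this
  have x2 : x ^ θ ≤ (R : ℝ) ^ (y * k * n - ω - 1) := by
    refine (Real.rpow_le_rpow hx0 x1 hθ).trans ?_
    rw [← Real.rpow_natCast, ← Real.rpow_mul (by positivity)]
    refine Real.rpow_le_rpow_of_exponent_le hR' ?_
    push_cast
    nlinarith
  refine x2.trans ?_
  have s1 : ((ff k PP n ^ l).support.card : ℝ) ≤ (({m : ℕ | 1 ≤ m ∧ (m : ℝ) ≤ x ∧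
      ∃ f : Fin l → ℕ, (∀ i, 0 < f i) ∧ ∑ i, f i ^ k = m}.ncard : ℕ) : ℝ) := by
    rw [Nat.cast_le, ← Set.ncard_coe_finset]
    refine Set.ncard_le_ncard (fun i hi => ?_) ((Set.finite_Iic ⌊x⌋₊).subset fun m hm =>
      Nat.le_floor hm.2.1)
    obtain ⟨f, f1, f2⟩ := fin_pow (fin_ff hP k n) l i (mem_support_iff.1 hi)
    refine ⟨?_, le_trans (Nat.cast_le.2 ?_) (not_lt.1 j1), f, fun i => (f1 i).1, f2⟩
    · rw [← f2]
      have : Nonempty (Fin l) := ⟨⟨0, hl⟩⟩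
      exact sum_pos (fun i _ => pow_pos (f1 i).1 k) univ_nonempty
    · rw [← f2, pow_mul]
      simpa using sum_le_card_nsmul univ (fun i => f i ^ k) _
        fun i _ => Nat.pow_le_pow_left (f1 i).2 k
  refine le_trans ?_ s1
  have s2 : (((ff k PP n ^ l).eval 1 : ℕ) : ℝ) ^ 2 ≤
      (ff k PP n ^ l).support.card * SS k l PP n := by
    rw [eval_one_eq]
    simpa only [SS, nn, ip, sq] using sq_sum_le_card_mul_sum_sq (s := (ff k PP n ^ l).support)
      (f := fun i => ((ff k PP n ^ l).coeff i : ℝ))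
  rw [eval_pow, eval_one_ff] at s2
  push_cast at s2
  have s3 : (R : ℝ) ^ (2 * n * l - 1 : ℝ) ≤ (((PP.card : ℝ) ^ n) ^ l) ^ 2 := by
    have : (R : ℝ) ^ (2 * n * l - 1 : ℝ) =
        ((((R : ℝ) ^ (1 - 1 / (2 * n * l) : ℝ)) ^ n) ^ l) ^ 2 := by
      rw [← pow_mul, ← pow_mul, ← Real.rpow_mul_natCast (by positivity)]
      congr 1
      push_cast
      field_simp
    rw [this]
    gcongr
  have s4 := (s3.trans s2).trans (mul_le_mul_of_nonneg_left (h1 PP hP) (by positivity))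
  rw [← div_le_iff₀ (by positivity), ← Real.rpow_sub (by positivity)] at s4
  refine le_trans (le_of_eq ?_) s4
  congr 1
  ring

end Pool.Agent.MP_4060c9_nt.H38
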