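import Pool.Agent.MP_4060c9_nt.H38.Kit

/-! Stationary phase for a powerful modulus. -/

set_option autoImplicit false

open Finset

namespace Pool.Agent.MP_4060c9_nt.H38

theorem g_pow {R : Type} [CommRing R] {ρ : ℕ} {u : R} (hu : (ρ : R) ∣ u - 1) (d : ℕ) :
    (∀ p : ℕ, p.Prime → p ∣ d → p ∣ ρ) → (d : R) * ρ ∣ u ^ d - 1 := by
  induction d using induction_on_primes with
  | zero => simp
  | one => simpa using fun _ => hu
  | prime_mul p a hp ih =>
    intro h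
    have h1 := ih fun r hr hd => h r hr (hd.mul_left p)
    have h2 : (p : R) ∣ u ^ a - 1 :=
      ((Nat.cast_dvd_cast (h p hp (dvd_mul_right p a))).mul_left _).trans h1
    have h3 := geom_sum₂_mul (u ^ a) 1 p
    rw [one_pow, ← pow_mul, mul_comm a p] at h3
    rw [← h3, Nat.cast_mul, mul_assoc]
    exact mul_dvd_mul (dvd_geom_sum₂_self h2) h1

theorem su : SU := by
  intro q ρ j h u hu
  have h1 := g_pow hu q fun p hp hd => hp.dvd_of_dvd_pow (hd.trans h)
  rwa [ZMod.natCast_self, zero_mul, zero_dvd_iff, sub_eq_zero] at h1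

theorem g_split {q ρ j : ℕ} (hq : q ≠ 0) (h1 : ρ ^ 2 ∣ q) (h2 : q ∣ ρ ^ j) :
    ∃ r s : ℕ, q = r ^ 2 * s ∧ ρ ∣ r ∧ s ∣ ρ := by
  obtain ⟨s, r, e, hs⟩ := Nat.sq_mul_squarefree q
  refine ⟨r, s, e.symm, ?_, ?_⟩
  · have hρ : ρ ≠ 0 := by
      rintro rfl
      exact hq (by simpa using h1)
    obtain ⟨g, a, b, hg, hab, rfl, rfl⟩ := Nat.exists_coprime' (m := ρ) (n := r)
      (Nat.gcd_pos_of_pos_left _ (Nat.pos_of_ne_zero hρ))
    rw [← e, mul_pow, mul_pow, mul_right_comm] at h1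
    have h3 : a ^ 2 ∣ s * b ^ 2 := by
      rw [mul_comm s]
      exact Nat.dvd_of_mul_dvd_mul_right (pow_pos hg 2) h1
    have h4 := (hab.pow 2 2).dvd_of_dvd_mul_right h3
    rw [sq] at h4
    rw [Nat.isUnit_iff.1 (hs a h4), one_mul]
    exact dvd_mul_left g b
  · have h3 : s ∣ ρ ^ (j + 1) := ((Dvd.intro_left _ e).trans h2).trans (pow_dvd_pow ρ j.le_succ)
    exact (hs.dvd_pow_iff_dvd j.succ_ne_zero).1 h3

theorem g_lin {R : Type} [CommRing R] {x : R} (hx : x * x = 0) (t : R) (n : ℕ) :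
    (t + x) ^ (n + 1) = t ^ (n + 1) + ((n + 1 : ℕ) : R) * t ^ n * x := by
  induction n with
  | zero => simp
  | succ n ih =>
    rw [pow_succ, ih]
    push_cast
    linear_combination ((n : R) + 1) * t ^ n * hx

theorem g_sq {R : Type} [CommRing R] (t : R) (e : ℕ) :
    (t - 1) ^ 2 ∣ t ^ e - (e : R) * t + e - 1 := by
  induction e with
  | zero => simp
  | succ n ih =>
    obtain ⟨c, hc⟩ := ih
    refine ⟨t * c + n, ?_⟩
    push_cast
    linear_combination t * hc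

theorem g_ann {q r s : ℕ} [NeZero q] (e : q = r ^ 2 * s) (g : ZMod q) :
    (r : ZMod q) * s * g = 0 ↔ (r : ZMod q) ∣ g := by
  have h0 : (r : ZMod q) ^ 2 * s = 0 := by
    rw [← Nat.cast_pow, ← Nat.cast_mul, ← e, ZMod.natCast_self]
  constructor
  · intro h
    rw [← ZMod.natCast_zmod_val g, ← Nat.cast_mul, ← Nat.cast_mul, ZMod.natCast_eq_zero_iff] at h
    have hp : 0 < r * s := by
      refine Nat.pos_of_ne_zero fun h' => NeZero.ne q ?_
      rw [e, sq, mul_assoc, h', mul_zero]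
    have h1 : r * s * r ∣ r * s * g.val := by
      rw [mul_right_comm r s r, ← sq, ← e]
      exact h
    rw [← ZMod.natCast_zmod_val g]
    exact Nat.cast_dvd_cast (Nat.dvd_of_mul_dvd_mul_left hp h1)
  · rintro ⟨c, rfl⟩
    linear_combination c * h0

open Classical in
theorem g_card {q r s : ℕ} [NeZero q] (e : q = r ^ 2 * s) :
    (univ.filter fun t : ZMod q => (r : ZMod q) ∣ t - 1).card ≤ r * s := by
  have h0 : (r : ZMod q) ^ 2 * s = 0 := by
    rw [← Nat.cast_pow, ← Nat.cast_mul, ← e, ZMod.natCast_self]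
  have hp : 0 < r * s := by
    refine Nat.pos_of_ne_zero fun h' => NeZero.ne q ?_
    rw [e, sq, mul_assoc, h', mul_zero]
  refine (card_le_card (t := (range (r * s)).image fun i : ℕ => 1 + (r : ZMod q) * i)
    fun t ht => ?_).trans (card_image_le.trans (card_range _).le)
  obtain ⟨c, hc⟩ := (mem_filter.1 ht).2
  refine mem_image.2 ⟨c.val % (r * s), mem_range.2 (Nat.mod_lt _ hp), ?_⟩
  have h1 := congrArg (Nat.cast : ℕ → ZMod q) (Nat.mod_add_div c.val (r * s))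
  rw [ZMod.natCast_zmod_val, Nat.cast_add, Nat.cast_mul, Nat.cast_mul] at h1
  linear_combination (r : ZMod q) * h1 - hc - ((c.val / (r * s) : ℕ) : ZMod q) * h0

open Classical in
theorem g_stat {q ρ r s : ℕ} [NeZero q] (e : q = r ^ 2 * s) (hρ : ρ ∣ r) (n : ℕ) (A w : ZMod q)
    (hu : IsUnit (((n + 1 : ℕ) : ZMod q) * A)) :
    ∑ t ∈ univ.filter (fun t : ZMod q => (ρ : ZMod q) ∣ t - 1),
        ZMod.stdAddChar (A * t ^ (n + 1) - ((n + 1 : ℕ) : ZMod q) * A * w * t) =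
      ∑ t ∈ univ.filter (fun t : ZMod q => (ρ : ZMod q) ∣ t - 1 ∧ (r : ZMod q) ∣ t ^ n - w),
        ZMod.stdAddChar (A * t ^ (n + 1) - ((n + 1 : ℕ) : ZMod q) * A * w * t) := by
  have h0 : (r : ZMod q) ^ 2 * s = 0 := by
    rw [← Nat.cast_pow, ← Nat.cast_mul, ← e, ZMod.natCast_self]
  have h1 : ∀ j : ZMod q, ∑ t ∈ univ.filter (fun t : ZMod q => (ρ : ZMod q) ∣ t - 1),
      ZMod.stdAddChar (A * t ^ (n + 1) - ((n + 1 : ℕ) : ZMod q) * A * w * t) *
        ZMod.stdAddChar (j * ((r : ZMod q) * (s : ZMod q) *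
          (((n + 1 : ℕ) : ZMod q) * A * (t ^ n - w)))) =
      ∑ t ∈ univ.filter (fun t : ZMod q => (ρ : ZMod q) ∣ t - 1),
        ZMod.stdAddChar (A * t ^ (n + 1) - ((n + 1 : ℕ) : ZMod q) * A * w * t) := by
    intro j
    refine sum_equiv (Equiv.addRight ((r : ZMod q) * s * j)) (fun t => ?_) fun t _ => ?_
    · simp only [mem_filter, mem_univ, true_and, Equiv.coe_addRight]
      rw [add_sub_right_comm]
      exact (dvd_add_left (((Nat.cast_dvd_cast hρ).mul_right _).mul_right _)).symm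
    · rw [← AddChar.map_add_eq_mul, Equiv.coe_addRight]
      refine congrArg _ ?_
      show _ = A * (t + (r : ZMod q) * s * j) ^ (n + 1) - _
      rw [g_lin (by linear_combination (s * j * j : ZMod q) * h0)]
      ring
  have h2 := sum_congr (rfl : (univ : Finset (ZMod q)) = univ) fun j _ => h1 j
  rw [sum_comm, sum_const, card_univ, nsmul_eq_mul] at h2
  have hc : ((Fintype.card (ZMod q) : ℕ) : ℂ) ≠ 0 := Nat.cast_ne_zero.2 Fintype.card_ne_zero
  refine mul_left_cancel₀ hc ?_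
  rw [← h2, ← filter_filter, sum_filter (fun t : ZMod q => (r : ZMod q) ∣ t ^ n - w), mul_sum]
  refine sum_congr rfl fun t _ => ?_
  rw [← mul_sum, AddChar.sum_mulShift _ (ZMod.isPrimitive_stdAddChar q)]
  simp only [g_ann e, hu.dvd_mul_left]
  split_ifs
  · exact mul_comm _ _
  · simp

theorem sg : SG := by
  classical
  intro q _ ρ j e κ h1 h2 he hu hκ
  obtain ⟨r, s, hq, hr, hs⟩ := g_split (NeZero.ne q) h1 h2
  obtain ⟨n, rfl⟩ : ∃ n, e = n + 1 := ⟨e - 1, by omega⟩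
  have h0 : (r : ZMod q) ^ 2 * s = 0 := by
    rw [← Nat.cast_pow, ← Nat.cast_mul, ← hq, ZMod.natCast_self]
  have hρ : 0 < ρ := by
    refine Nat.pos_of_ne_zero ?_
    rintro rfl
    exact NeZero.ne q (by simpa using h1)
  have hm : n * κ ≡ 1 [MOD q] := by
    rw [← ZMod.natCast_eq_natCast_iff]
    push_cast at hκ ⊢
    linear_combination hκ
  have hk : ∀ t : ZMod q, (ρ : ZMod q) ∣ t - 1 → (t ^ n) ^ κ = t := fun t ht => by
    rw [← pow_mul, pow_eq_pow_of_modEq hm (su q ρ j h2 t ht), pow_one]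
  have hp : ∀ (d t : ZMod q) (m : ℕ), d ∣ t - 1 → d ∣ t ^ m - 1 := fun d t m h =>
    h.trans (sub_one_dvd_pow_sub_one t m)
  have hinv : ∀ V u : ZMod q, (ρ : ZMod q) ∣ u - 1 →
      ∑ t ∈ univ.filter (fun t : ZMod q => (r : ZMod q) ∣ t - 1), ZMod.stdAddChar
        (V * u * (t ^ (n + 1) - ((n + 1 : ℕ) : ZMod q) * t + ((n + 1 : ℕ) : ZMod q) - 1)) =
      ∑ t ∈ univ.filter (fun t : ZMod q => (r : ZMod q) ∣ t - 1), ZMod.stdAddChar
        (V * (t ^ (n + 1) - ((n + 1 : ℕ) : ZMod q) * t + ((n + 1 : ℕ) : ZMod q) - 1)) := by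
    intro V u hu'
    refine sum_congr rfl fun t ht => congrArg _ ?_
    obtain ⟨a, ha⟩ := (Nat.cast_dvd_cast hs).trans hu'
    obtain ⟨b, hb⟩ := (pow_dvd_pow_of_dvd (mem_filter.1 ht).2 2).trans (g_sq t (n + 1))
    rw [hb]
    linear_combination V * (r : ZMod q) ^ 2 * b * ha + V * a * b * h0
  refine ⟨fun V => ∑ t ∈ univ.filter (fun t : ZMod q => (r : ZMod q) ∣ t - 1), ZMod.stdAddChar
    (V * (t ^ (n + 1) - ((n + 1 : ℕ) : ZMod q) * t + ((n + 1 : ℕ) : ZMod q) - 1)), fun V => ?_, hinv,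
    fun A w hA => ?_⟩
  · have h3 : ‖∑ t ∈ univ.filter (fun t : ZMod q => (r : ZMod q) ∣ t - 1), ZMod.stdAddChar
        (V * (t ^ (n + 1) - ((n + 1 : ℕ) : ZMod q) * t + ((n + 1 : ℕ) : ZMod q) - 1))‖ ≤
        ((r * s : ℕ) : ℝ) := by
      refine (norm_sum_le _ _).trans ?_
      simp only [AddChar.norm_apply, sum_const, nsmul_eq_mul, mul_one]
      exact Nat.cast_le.2 (g_card hq)
    refine (pow_le_pow_left₀ (norm_nonneg _) h3 2).trans ?_
    rw [← Nat.cast_pow, ← Nat.cast_mul, Nat.cast_le]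
    calc (r * s) ^ 2 = q * s := by rw [hq]; ring
      _ ≤ q * ρ := Nat.mul_le_mul_left q (Nat.le_of_dvd hρ hs)
  beta_reduce
  split_ifs with hw
  · have hc := hp _ w κ hw
    have hcu : ∀ m : ℕ, IsUnit (w ^ m) := fun m =>
      (IsUnit.of_pow_eq_one (su q ρ j h2 w hw) (NeZero.ne q)).pow m
    have h3 : ∑ t ∈ univ.filter (fun t : ZMod q => (ρ : ZMod q) ∣ t - 1), ZMod.stdAddChar
          (A * w ^ (κ + 1) * t ^ (n + 1) - ((n + 1 : ℕ) : ZMod q) * (A * w ^ (κ + 1)) * 1 * t) =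
        ∑ t ∈ univ.filter (fun t : ZMod q => (ρ : ZMod q) ∣ t - 1),
          ZMod.stdAddChar (A * t ^ (n + 1) - ((n + 1 : ℕ) : ZMod q) * A * w * t) := by
      refine sum_equiv (hcu κ).unit.mulLeft (fun t => ?_) fun t _ => congrArg _ ?_
      · simp only [mem_filter, mem_univ, true_and, Units.mulLeft_apply, IsUnit.unit_spec]
        rw [show w ^ κ * t - 1 = (w ^ κ - 1) * t + (t - 1) by ring]
        exact (dvd_add_right (hc.mul_right t)).symm
      · have h4 : (w ^ κ) ^ n = w := by rw [← pow_mul, mul_comm, pow_mul, hk w hw]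
        rw [Units.mulLeft_apply, IsUnit.unit_spec, mul_pow (w ^ κ), pow_succ (w ^ κ), h4]
        ring
    have h5 : (univ.filter fun t : ZMod q => (ρ : ZMod q) ∣ t - 1 ∧ (r : ZMod q) ∣ t ^ n - 1) =
        univ.filter fun t : ZMod q => (r : ZMod q) ∣ t - 1 :=
      filter_congr fun t _ => ⟨fun h => hk t h.1 ▸ hp _ _ κ h.2,
        fun h => ⟨(Nat.cast_dvd_cast hr).trans h, hp _ _ n h⟩⟩
    rw [← h3, g_stat hq hr n _ 1 (hu.mul (hA.mul (hcu _))), h5,
      ← hinv A _ (hp _ w (κ + 1) hw), mul_sum]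
    refine sum_congr rfl fun t _ => ?_
    rw [← AddChar.map_add_eq_mul]
    exact congrArg _ (by ring)
  · rw [g_stat hq hr n A w (hu.mul hA)]
    refine sum_eq_zero fun t ht => absurd ?_ hw
    obtain ⟨h3, h4⟩ := (mem_filter.1 ht).2
    have h5 := dvd_sub (hp _ t n h3) ((Nat.cast_dvd_cast hr).trans h4)
    rwa [sub_sub_sub_cancel_left] at h5

end Pool.Agent.MP_4060c9_nt.H38
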