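import Pool.Agent.MP_4060c9_nt.H38.Kit

/-! Rows GOOD and TOP: differences of powers, and the first factor. -/

namespace Pool.Agent.MP_4060c9_nt.H38

open Polynomial Finset Filter

theorem gt_tay (Ψ : ℕ[X]) (g : ℕ) :
    ∃ w, Ψ.comp (X + C g) = Ψ + C g * (derivative Ψ + C g * w) := by
  induction Ψ using Polynomial.induction_on' with
  | add p q hp hq =>
    obtain ⟨u, hu⟩ := hp
    obtain ⟨v, hv⟩ := hq
    exact ⟨u + v, by rw [add_comp, hu, hv, derivative_add]; ring⟩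
  | monomial n a =>
    obtain ⟨w, hw⟩ := powAddExpansion (X : ℕ[X]) (C g) n
    refine ⟨C a * w, ?_⟩
    rw [monomial_comp, hw, derivative_monomial, ← C_mul_X_pow_eq_monomial,
      ← C_mul_X_pow_eq_monomial, C_mul, C_eq_natCast n]
    ring

theorem gt_eval_ne {Q : ℕ[X]} {i z : ℕ} (h : Q.coeff i ≠ 0) (hz : 1 ≤ z) : Q.eval z ≠ 0 := by
  rw [eval_eq_sum, Polynomial.sum]
  intro e
  have := (sum_eq_zero_iff.1 e) i (mem_support_iff.2 h)
  exact mul_ne_zero h (pow_ne_zero _ (by omega)) this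

theorem gt_good (P B : ℕ) : ∀ (j : ℕ) (Ψ : ℕ[X]), j ≤ Ψ.natDegree →
    (∀ z ≤ j * P, (derivative Ψ).eval z ≤ B) → Good P B j fun z => Ψ.eval z
  | 0, _, _, _ => trivial
  | j + 1, Ψ, hj, hB => by
    obtain ⟨i, hi⟩ : ∃ i, Ψ.natDegree = i + 1 := ⟨Ψ.natDegree - 1, by omega⟩
    have h0 : Ψ ≠ 0 := fun e => by simp [e] at hi
    have hc : (derivative Ψ).coeff i ≠ 0 := by
      rw [coeff_derivative, ← hi]
      exact mul_ne_zero (leadingCoeff_ne_zero.2 h0) (Nat.succ_ne_zero _)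
    refine ⟨⟨fun z => (derivative Ψ).eval z, fun z h1 h2 => ⟨gt_eval_ne hc h1,
      hB z (by nlinarith)⟩, fun z h => ?_⟩, fun g h1 h2 => ?_⟩
    · obtain ⟨w, hw⟩ := gt_tay Ψ h
      refine ⟨w.eval z, ?_⟩
      simpa only [eval_comp, eval_add, eval_mul, eval_X, eval_C] using congrArg (eval z) hw
    · obtain ⟨w, hw⟩ := gt_tay Ψ g
      have e : (fun z => Ψ.eval (z + g) - Ψ.eval z) =
          fun z => (C g * (derivative Ψ + C g * w)).eval z := funext fun z => by
        have := congrArg (eval z) hw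
        rw [eval_comp, eval_add, eval_add, eval_X, eval_C] at this
        omega
      rw [e]
      refine gt_good P B j _ (le_trans (by omega) (le_natDegree_of_ne_zero (n := i) ?_))
        fun z hz => ?_
      · rw [coeff_C_mul, coeff_add]
        exact mul_ne_zero (by omega) (by omega)
      · have := congrArg (fun Q => (derivative Q).eval z) hw
        simp only [derivative_comp, derivative_add (f := Ψ), derivative_add (f := X), derivative_X,
          derivative_C, add_zero, one_mul, eval_comp, eval_add, eval_X, eval_C] at this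
        have := hB (z + g) (by nlinarith)
        omega

theorem sgood : SGOOD := by
  intro k j P B hP hj hB
  have := gt_good P B j (X ^ k) (by rwa [natDegree_X_pow]) fun z hz => by
    rw [derivative_X_pow, eval_mul, eval_C, eval_pow, eval_X, Nat.cast_id]
    rcases Nat.eq_zero_or_pos k with rfl | hk
    · simp
    · refine le_trans (Nat.mul_le_mul_left _ ?_) hB
      exact (Nat.pow_le_pow_left (hz.trans (Nat.mul_le_mul_right _ hj)) _).trans
        (Nat.pow_le_pow_right (Nat.mul_pos hk hP) (by omega))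
  simpa only [eval_pow, eval_X] using this

theorem gt_step {k n R M : ℕ} {PP : Finset ℕ} (h : IsPP R PP) (hR : 2 ≤ R)
    (hM : 4 * R * M ≤ R ^ (n + 1)) :
    Le (∑ p ∈ PP, expand ℕ (p ^ k) (gen (Icc 1 M) fun z => z ^ k))
      (((n + 1 : ℕ) : ℕ[X]) * gen (Icc 1 (4 * R * M)) fun z => z ^ k) := by
  have e1 : ∑ p ∈ PP, expand ℕ (p ^ k) (gen (Icc 1 M) fun z => z ^ k) =
      ∑ b ∈ PP ×ˢ Icc 1 M, (X : ℕ[X]) ^ (b.1 * b.2) ^ k := by
    rw [sum_product]
    refine sum_congr rfl fun p _ => ?_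
    simp only [gen, map_sum, map_pow, expand_X, ← pow_mul, mul_pow]
  have hm : ∀ b ∈ PP ×ˢ Icc 1 M, b.1 * b.2 ∈ Icc 1 (4 * R * M) := fun b hb => by
    obtain ⟨h1, h2⟩ := mem_product.1 hb
    obtain ⟨h3, -, h4⟩ := h.1 _ h1
    exact mem_Icc.2 ⟨Nat.mul_pos h3.pos (mem_Icc.1 h2).1, Nat.mul_le_mul h4 (mem_Icc.1 h2).2⟩
  rw [e1, ← sum_fiberwise_of_maps_to hm, gen, mul_sum]
  refine Le.sum fun y hy => ?_
  rw [sum_congr rfl (g := fun _ => (X : ℕ[X]) ^ y ^ k) fun b hb => by rw [(mem_filter.1 hb).2],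
    sum_const, nsmul_eq_mul]
  refine (Le.natCast ?_).mul (Le.refl _)
  have y0 : y ≠ 0 := by
    have := (mem_Icc.1 hy).1
    omega
  refine le_trans (card_le_card_of_injOn Prod.fst (fun b hb => ?_) fun b hb b' hb' e => ?_)
    (card_bad h hR y0 ((mem_Icc.1 hy).2.trans hM))
  · obtain ⟨h1, h2⟩ := mem_filter.1 (mem_coe.1 hb)
    exact mem_coe.2 (mem_filter.2 ⟨(mem_product.1 h1).1, Dvd.intro _ h2⟩)
  · obtain ⟨h1, h2⟩ := mem_filter.1 (mem_coe.1 hb)
    obtain ⟨-, h3⟩ := mem_filter.1 (mem_coe.1 hb')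
    refine Prod.ext e (Nat.eq_of_mul_eq_mul_left (h.1 _ (mem_product.1 h1).1).1.pos ?_)
    rw [h2, e, h3]

theorem gt_ff {k n R : ℕ} {PP : Finset ℕ} (h : IsPP R PP) (hR : 4 ^ n ≤ R) : ∀ n' ≤ n,
    Le (ff k PP n') ((((n + 1) ^ n' : ℕ) : ℕ[X]) * gen (Icc 1 ((4 * R) ^ n')) fun z => z ^ k)
  | 0, _ => Le.of_eq (by simp [ff, gen])
  | m + 1, hm => by
    have h4 : 4 ≤ R := le_trans (Nat.le_self_pow (by omega) 4) hR
    have hM : 4 * R * (4 * R) ^ m ≤ R ^ (n + 1) := by
      rw [← pow_succ', pow_succ' R]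
      refine (Nat.pow_le_pow_right (by omega) hm).trans ?_
      rw [mul_pow]
      exact Nat.mul_le_mul_right _ hR
    have h1 := (Le.refl (((n + 1) ^ m : ℕ) : ℕ[X])).mul (gt_step (k := k) h (by omega) hM)
    rw [← mul_assoc, ← Nat.cast_mul, ← pow_succ, ← pow_succ', mul_sum] at h1
    refine Le.trans (Le.sum fun p _ => ?_) h1
    have := (gt_ff (k := k) h hR m (by omega)).expand (p ^ k)
    rwa [map_mul, map_natCast] at this

theorem stop : STOP := by
  intro k s n R PP h hR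
  have hM : (4 * R) ^ n ≤ R ^ (n + 1) := by
    rw [mul_pow, pow_succ' R]
    exact Nat.mul_le_mul_right _ hR
  rw [SS, EE, GG, expand_one, ← nn_natCast, pow_succ', ← mul_assoc]
  exact nn_mono (((gt_ff h hR n le_rfl).trans
    ((Le.refl _).mul (gen_mono _ (Icc_subset_Icc_right hM)))).mul (Le.refl _))

end Pool.Agent.MP_4060c9_nt.H38
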