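import Pool.Agent.MP_4060c9_nt.H38.Kit

/-! Rows SEX, SCH, SNS: iterated extraction and the difference steps. -/

namespace Pool.Agent.MP_4060c9_nt.H38

open Polynomial Finset Filter

noncomputable section

theorem lv_ind (h1 : SEX1) {k s n D R : ℕ} {PP : Finset ℕ} {A B Λ Ω : ℝ}
    (H : Ctx k s n D R PP A B Λ Ω) {ι : Type} (d J : ι → ℕ) (lo : ℕ) {W V : ℝ} (hW : 0 ≤ W)
    (a : ℕ) : ∀ (b : ℕ) (Z : Finset ι) (c n' : ℕ), (∀ z ∈ Z, J z ≠ 0 ∧ J z ≤ R ^ D) →
      (Z.card : ℝ) ^ 2 ≤ V → 0 < c → lo + a + b ≤ n' → n' ≤ n →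
      (∀ m, Pr PP a m → ∀ c' n'', 0 < c' → c * m ^ k ∣ c' → lo ≤ n'' → n'' ≤ n →
        EE k s PP (Z.filter fun z => m.Coprime (J z)) d c' n'' ≤ W * (Ω * Λ ^ n'')) →
      EE k s PP Z d c n' ≤ (2 * (((4 * s ^ 2 * D) ^ s : ℕ) : ℝ)) ^ (a + b) *
        (A ^ a * ((W + B ^ b * V) * (Ω * Λ ^ n'))) := by
  set K : ℝ := (((4 * s ^ 2 * D) ^ s : ℕ) : ℝ) with hK
  have K1 : 1 ≤ K := by
    have := H.s1
    have := H.D1
    have h : 1 ≤ (4 * s ^ 2 * D) ^ s := Nat.one_le_pow _ _ (by positivity)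
    rw [hK]
    exact_mod_cast h
  have K2 : ∀ t : ℕ, 1 ≤ (2 * K) ^ t := fun t => one_le_pow₀ (by linarith)
  have hA := H.A1
  have hB := H.B0
  have hL := H.L0
  have hO := H.O0
  induction a with
  | zero =>
    intro b Z c n' _ hV hc hlo hn h
    have V0 : 0 ≤ V := le_trans (by positivity) hV
    have h2 := h 1 rfl c n' hc (by simp) (by omega) hn
    rw [filter_true_of_mem fun z _ => Nat.coprime_one_left _] at h2
    refine h2.trans (le_trans ?_ (le_mul_of_one_le_left (by positivity) (K2 _)))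
    rw [pow_zero, one_mul]
    exact mul_le_mul_of_nonneg_right (le_add_of_nonneg_right (by positivity)) (by positivity)
  | succ a iha =>
    intro b
    induction b with
    | zero =>
      intro Z c n' _ hV hc hlo hn h
      have V0 : 0 ≤ V := le_trans (by positivity) hV
      refine (EE_triv k s PP Z d hc n').trans
        (le_trans ?_ (le_mul_of_one_le_left (by positivity) (K2 _)))
      refine le_trans ?_ (le_mul_of_one_le_left (by positivity) (one_le_pow₀ hA))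
      rw [pow_zero, one_mul]
      exact mul_le_mul (hV.trans (le_add_of_nonneg_left hW)) (H.hS n' hn) (nn_nonneg _)
        (by positivity)
    | succ b ihb =>
      intro Z c n' hJ hV hc hlo hn h
      have V0 : 0 ≤ V := le_trans (by positivity) hV
      obtain ⟨n'', rfl⟩ : ∃ n'', n' = n'' + 1 := ⟨n' - 1, by omega⟩
      have hp : ∀ p ∈ PP, 0 < c * p ^ k := fun p hp =>
        Nat.mul_pos hc (Nat.pow_pos (H.pp.1 p hp).1.pos)
      have key := h1 k s D R PP H.pp H.s1 H.D1 (by have := H.R4; omega) ι Z d J c n'' _ _ hJ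
        (by positivity) (by positivity)
        (fun p hpp => iha (b + 1) (Z.filter fun z => p.Coprime (J z)) (c * p ^ k) n''
          (fun z hz => hJ z (mem_filter.1 hz).1)
          (le_trans (pow_le_pow_left₀ (by positivity)
            (Nat.cast_le.2 (card_filter_le _ _)) 2) hV) (hp p hpp) (by omega) (by omega)
          fun m hm c' n₃ hc' hd h3 h4 => by
            have := h (p * m) ⟨p, hpp, m, hm, rfl⟩ c' n₃ hc' (by rwa [mul_pow, ← mul_assoc]) h3 h4
            rw [filter_filter]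
            refine le_trans (le_of_eq ?_) this
            refine congrArg (fun Z' => EE k s PP Z' d c' n₃) (filter_congr fun z _ => ?_)
            exact Nat.coprime_mul_iff_left.symm)
        (fun p hpp => ihb Z (c * p ^ k) n'' hJ hV (hp p hpp) (by omega) (by omega)
          fun m hm c' n₃ hc' hd h3 h4 => h m hm c' n₃ hc'
            ((Nat.mul_dvd_mul_right (Nat.dvd_mul_right _ _) _).trans hd) h3 h4)
      refine key.trans ?_
      rw [← hK, show a + (b + 1) = a + b + 1 by ring, show a + 1 + b = a + b + 1 by ring,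
        show a + 1 + (b + 1) = a + b + 1 + 1 by ring]
      set Q := (2 * K) ^ (a + b + 1) with hQ
      have Q0 : 0 ≤ Q := by positivity
      have e1 : (R : ℝ) ^ (2 * s) * (Q * (A ^ a * ((W + B ^ (b + 1) * V) * (Ω * Λ ^ n'')))) ≤
          Q * (A ^ (a + 1) * ((W + B ^ (b + 1) * V) * (Ω * Λ ^ (n'' + 1)))) :=
        (mul_le_mul_of_nonneg_right H.hA (by positivity)).trans (le_of_eq (by ring))
      have e2 : (R : ℝ) ^ (s + 1) * (Q * (A ^ (a + 1) * ((W + B ^ b * V) * (Ω * Λ ^ n'')))) ≤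
          Q * (A ^ (a + 1) * ((W + B ^ (b + 1) * V) * (Ω * Λ ^ (n'' + 1)))) := by
        refine (mul_le_mul_of_nonneg_right H.hB (by positivity)).trans ?_
        have e3 : B * W + B ^ (b + 1) * V ≤ W + B ^ (b + 1) * V := by
          linarith [mul_le_of_le_one_left hW H.B1]
        calc _ = Q * (A ^ (a + 1) * ((B * W + B ^ (b + 1) * V) * (Ω * Λ ^ (n'' + 1)))) := by ring
          _ ≤ _ := by gcongr
      refine (mul_le_mul_of_nonneg_left (add_le_add e1 e2) (by positivity)).trans (le_of_eq ?_)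
      rw [pow_succ (2 * K), ← hQ]
      ring

theorem sex : SEX1 → SEX := by
  intro h1 k s n D R PP A B Λ Ω H ι Z d J a b lo W hJ hW h c n' hc hlo hn
  have hA := H.A1
  have hB := H.B0
  have hL := H.L0
  have hO := H.O0
  have W0 : 0 ≤ W := le_trans (by positivity) hW
  refine (lv_ind h1 H d J lo W0 a b Z c n' hJ le_rfl hc hlo hn fun m hm c' n'' hc' hd h3 h4 =>
    h m hm c' n'' hc' ((Nat.dvd_mul_left _ _).trans hd) h3 h4).trans ?_
  have h2 : (2 * (4 * s ^ 2 * D) ^ s) ^ (a + b) ≤ R := by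
    have := H.s1
    have := H.D1
    exact (Nat.pow_le_pow_right (by positivity) (by omega)).trans H.big
  have h3 : (2 * (((4 * s ^ 2 * D) ^ s : ℕ) : ℝ)) ^ (a + b) ≤ R := by exact_mod_cast h2
  calc _ ≤ R * (A ^ a * ((W + W) * (Ω * Λ ^ n'))) := by gcongr
    _ = _ := by ring

theorem lv_union {α : Type} [DecidableEq α] (s t : Finset α) {f : α → ℝ} (h : ∀ a, 0 ≤ f a) :
    ∑ a ∈ s ∪ t, f a ≤ ∑ a ∈ s, f a + ∑ a ∈ t, f a := by
  rw [← sum_union_inter]
  exact le_add_of_nonneg_right (sum_nonneg fun a _ => h a)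

/-- Congruent values in one class modulo `m` come from a difference by a multiple of `m ^ k`. -/
theorem lv_mem {k m c P z z' : ℕ} {d J : ℕ → ℕ} (hm : 0 < m) (hc : m ^ k ∣ c)
    (hT : ∀ z h, ∃ w, d (z + h) = d z + h * (J z + h * w)) (hz : z ≤ P) (hz' : 1 ≤ z')
    (hlt : z' < z) (hJ : m.Coprime (J z')) (h1 : z' % m = z % m) (h2 : d z' ≡ d z [MOD c]) :
    ∃ a ∈ Z2 P (m ^ k), a.2 + a.1 * m ^ k = z ∧ a.2 = z' := by
  obtain ⟨h₀, rfl⟩ := Nat.exists_eq_add_of_le hlt.le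
  obtain ⟨w, hw⟩ := hT z' h₀
  have d1 : m ∣ h₀ := by simpa using (Nat.modEq_iff_dvd' hlt.le).1 h1
  have d2 : m ^ k ∣ h₀ * (J z' + h₀ * w) := by
    have := (Nat.modEq_iff_dvd' (by omega : d z' ≤ d (z' + h₀))).1 h2
    rw [hw, Nat.add_sub_cancel_left] at this
    exact hc.trans this
  have c1 : m.Coprime (J z' + h₀ * w) := by
    obtain ⟨u, rfl⟩ := d1
    rwa [mul_assoc, Nat.coprime_add_mul_left_right]
  obtain ⟨h, rfl⟩ := (c1.pow_left k).dvd_of_dvd_mul_right d2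
  have p1 : 1 ≤ m ^ k := Nat.pow_pos hm
  have p2 : 1 ≤ h := Nat.pos_of_ne_zero fun e => by simp [e] at hlt
  have p3 : h ≤ m ^ k * h := Nat.le_mul_of_pos_left _ p1
  refine ⟨(h, z'), ?_, by rw [mul_comm], rfl⟩
  simp only [Z2, mem_filter, mem_product, mem_Icc]
  rw [mul_comm]
  omega

theorem lv_main (k s : ℕ) (PP : Finset ℕ) {m c P : ℕ} (n : ℕ) {d J : ℕ → ℕ} (hm : 0 < m)
    (hc0 : 0 < c) (hc : m ^ k ∣ c) (hT : ∀ z h, ∃ w, d (z + h) = d z + h * (J z + h * w)) :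
    EE k s PP ((Icc 1 P).filter fun z => m.Coprime (J z)) d c n ≤ m * (P * SS k s PP n +
      2 * ip (gen (Z2 P (m ^ k)) (d2 d (m ^ k)) * GG k s PP c n) (GG k s PP c n)) := by
  refine (EE_cls k s PP _ d hc0 n (fun z => z % m) (range m)
    fun z _ => mem_range.2 (Nat.mod_lt _ hm)).trans ?_
  rw [card_range]
  refine mul_le_mul_of_nonneg_left ?_ (by positivity)
  set G := GG k s PP c n with hG
  let f : ℕ × ℕ → ℝ := fun b => ip (X ^ d b.1 * G) (X ^ d b.2 * G)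
  have f0 : ∀ b, 0 ≤ f b := fun b => ip_nonneg _ _
  have hT2 : ∑ a ∈ Z2 P (m ^ k), f (a.2 + a.1 * m ^ k, a.2) =
      ip (gen (Z2 P (m ^ k)) (d2 d (m ^ k)) * G) G := by
    rw [gen, sum_mul, ip_sum_left]
    refine sum_congr rfl fun a _ => ?_
    obtain ⟨w, hw⟩ := hT a.2 (a.1 * m ^ k)
    have e : d (a.2 + a.1 * m ^ k) = d a.2 + d2 d (m ^ k) a := by
      unfold d2
      omega
    simp only [f]
    rw [e, ip_X_pow_add]
  refine (sum_le_sum_of_subset_of_nonneg (t := (Icc 1 P).image (fun z => (z, z)) ∪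
    ((Z2 P (m ^ k)).image (fun a => (a.2 + a.1 * m ^ k, a.2)) ∪
      (Z2 P (m ^ k)).image fun a => (a.2, a.2 + a.1 * m ^ k))) (f := f) ?_
    fun b _ _ => f0 b).trans ?_
  · rintro ⟨z, z'⟩ hb
    simp only [mem_filter, mem_product, mem_Icc] at hb
    obtain ⟨⟨⟨hz, cz⟩, hz', cz'⟩, h1, h2⟩ := hb
    simp only [mem_union, mem_image, Prod.mk.injEq]
    rcases lt_trichotomy z z' with h | h | h
    · obtain ⟨a, ha, e1, e2⟩ := lv_mem hm hc hT hz'.2 hz.1 h cz h1 h2
      exact .inr (.inr ⟨a, ha, e2, e1⟩)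
    · exact .inl ⟨z, mem_Icc.2 hz, rfl, h⟩
    · obtain ⟨a, ha, e1, e2⟩ := lv_mem hm hc hT hz.2 hz'.1 h cz' h1.symm h2.symm
      exact .inr (.inl ⟨a, ha, e1, e2⟩)
  · refine (lv_union _ _ f0).trans (add_le_add ?_ ((lv_union _ _ f0).trans ?_))
    · refine (sum_image_le_of_nonneg fun b _ => f0 b).trans ?_
      refine (sum_le_sum fun z _ => ip_X_pow_le (d z) (d z) G).trans (le_of_eq ?_)
      rw [hG, nn_GG k s PP hc0]
      simp
    · rw [two_mul]
      refine add_le_add ((sum_image_le_of_nonneg fun b _ => f0 b).trans hT2.le)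
        ((sum_image_le_of_nonneg fun b _ => f0 b).trans (le_of_eq ?_))
      rw [← hT2]
      exact sum_congr rfl fun a _ => ip_comm _ _

theorem lv_step (h : SEX) {k s n D R : ℕ} {PP : Finset ℕ} {A B Λ Ω : ℝ}
    (H : Ctx k s n D R PP A B Λ Ω) {P : ℕ} {d : ℕ → ℕ} {a b lo : ℕ} {Y : ℝ} (hP : 1 ≤ P)
    (hY : 0 ≤ Y) (hT : Tay P (R ^ D) d) (hB : B ^ b * (P : ℝ) ^ 2 ≤ 1)
    (hh : ∀ m, Pr PP a m → ∀ c n', 0 < c → lo ≤ n' → n' ≤ n →
      ip (gen (Z2 P (m ^ k)) (d2 d (m ^ k)) * GG k s PP c n') (GG k s PP c n') ≤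
        Y * (Ω * Λ ^ n')) :
    Bd k s n PP Λ Ω (Icc 1 P) d (lo + a + b)
      (2 * R * A ^ a * ((R : ℝ) ^ (2 * a) * (P + 2 * Y))) := by
  obtain ⟨J, hJ, hT⟩ := hT
  have hL := H.L0
  have hO := H.O0
  have P1 : (1 : ℝ) ≤ P := by exact_mod_cast hP
  have R1 : (1 : ℝ) ≤ R := by
    have := H.R4
    exact_mod_cast (by omega : 1 ≤ R)
  refine h k s n D R PP A B Λ Ω H ℕ _ d J a b lo _
    (fun z hz => hJ z (mem_Icc.1 hz).1 (mem_Icc.1 hz).2) ?_ fun m hm c n' hc hd h1 h2 => ?_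
  · rw [Nat.card_Icc, Nat.add_sub_cancel]
    exact hB.trans (one_le_mul_of_one_le_of_one_le (one_le_pow₀ R1) (by linarith))
  · refine (lv_main k s PP n' (Pr.pos H.pp hm) hc hd hT).trans ?_
    have h3 : (m : ℝ) ≤ (R : ℝ) ^ (2 * a) := by exact_mod_cast (Pr.le H.pp H.R4 hm).2
    have h4 := hh m hm c n' hc h1 h2
    have h5 := H.hS n' h2
    have h6 : 0 ≤ SS k s PP n' := nn_nonneg _
    have h7 := ip_nonneg (gen (Z2 P (m ^ k)) (d2 d (m ^ k)) * GG k s PP c n') (GG k s PP c n')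
    calc _ ≤ (R : ℝ) ^ (2 * a) * (P * (Ω * Λ ^ n') + 2 * (Y * (Ω * Λ ^ n'))) := by gcongr
      _ = _ := by ring

theorem sns : SEX → SNS := by
  intro h k s n D R PP A B Λ Ω H P d a b lo Y hP hY hT hB hh
  have hL := H.L0
  have hO := H.O0
  refine lv_step h H hP hY hT hB fun m hm c n' hc h1 h2 => ?_
  exact ip_le_of hY (by positivity) (hh m hm c n' hc h1 h2)
    ((nn_GG k s PP hc n').trans_le (H.hS n' h2))

theorem sch : SEX → SCH := by
  intro h k s n D R PP A B Λ Ω H P d a b lo Y hP hY hT hB hh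
  have hL := H.L0
  have hO := H.O0
  refine lv_step h H hP (by positivity) hT hB fun m hm c n' hc h1 h2 => ?_
  have p1 : 0 < m ^ k := Nat.pow_pos (Pr.pos H.pp hm)
  have l1 : Le (gen (Z2 P (m ^ k)) (d2 d (m ^ k))) (∑ g ∈ Icc 1 (P / m ^ k),
      gen (Icc 1 P) fun z => d (z + g * m ^ k) - d z) := by
    refine (gen_mono (Z' := Icc 1 (P / m ^ k) ×ˢ Icc 1 P) _ fun a ha => ?_).trans (Le.of_eq ?_)
    · simp only [Z2, mem_filter, mem_product, mem_Icc] at ha ⊢
      exact ⟨⟨ha.1.1.1, (Nat.le_div_iff_mul_le p1).2 (by omega)⟩, ha.1.2⟩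
    · exact sum_product _ _ _
  refine (ip_mono (l1.mul (Le.refl _)) (Le.refl _)).trans ?_
  rw [sum_mul, ip_sum_left]
  refine (sum_le_sum (g := fun _ => Y * (Ω * Λ ^ n')) fun g hg => ?_).trans ?_
  · obtain ⟨g1, g2⟩ := mem_Icc.1 hg
    exact ip_le_of hY (by positivity)
      (hh (g * m ^ k) (Nat.mul_pos g1 p1) ((Nat.le_div_iff_mul_le p1).1 g2) c n' hc h1 h2)
      ((nn_GG k s PP hc n').trans_le (H.hS n' h2))
  · rw [sum_const, Nat.card_Icc, Nat.add_sub_cancel, nsmul_eq_mul, mul_assoc]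
    refine mul_le_mul_of_nonneg_right (Nat.cast_div_le.trans ?_) (by positivity)
    have R0 : (0 : ℝ) < R := by
      have := H.R4
      exact_mod_cast (by omega : 0 < R)
    refine div_le_div_of_nonneg_left (by positivity) (by positivity) ?_
    have : R ^ (k * a) ≤ m ^ k := by
      rw [mul_comm, pow_mul]
      exact Nat.pow_le_pow_left (Pr.le H.pp H.R4 hm).1 k
    exact_mod_cast this

end

end Pool.Agent.MP_4060c9_nt.H38
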