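import Pool.Agent.MP_4060c9_nt.H38.Kit

/-! The gain per step for large `k`. -/

namespace Pool.Agent.MP_4060c9_nt.H38

open Finset Filter

noncomputable section

theorem num_ev (c : ℝ) : ∀ᶠ k : ℕ in atTop, c ≤ k :=
  tendsto_natCast_atTop_atTop.eventually (eventually_ge_atTop c)

theorem num_pos {y r : ℝ} (hy : 0 ≤ y)
    (h : ∀ ε : ℝ, 0 < ε → ∀ᶠ k : ℕ in atTop, ∀ (s : ℕ) (α : ℝ), 0 ≤ α → α ≤ y * k →
      α + ε * k ≤ s → Adm k s α → Adm k (s + 1) (α + r - ε)) : StepP y r := by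
  intro ε hε
  refine eventually_atTop.1 ?_
  filter_upwards [h ε hε] with k hk s α h1 h2 h3 h4
  rcases le_total 0 α with h0 | h0
  · exact hk s α h0 h1 h2 h4
  · exact (hk s 0 le_rfl (by positivity) (by linarith) (adm_zero k s)).mono (by linarith)

theorem num_ex {k : ℕ} {α y : ℝ} (hk : 0 < k) (hα : 0 ≤ α) (h : α + 2 ≤ y * k) (hy : y ≤ 1)
    (j : ℕ) : ex k α j ≤ 2 / (2 - y) + 2 * (1 / 2) ^ j := by
  have k0 : (0 : ℝ) < k := by exact_mod_cast hk
  have y0 : 0 ≤ y := by nlinarith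
  have y2 : 0 < 2 - y := by linarith
  induction j with
  | zero =>
    have : 0 ≤ 2 / (2 - y) := by positivity
    simp only [ex]
    linarith
  | succ j ih =>
    simp only [ex]
    have p0 : (0 : ℝ) ≤ (1 / 2) ^ j := by positivity
    have h1 : (α + 2) * ex k α j / (2 * k) ≤ y * (1 / (2 - y) + (1 / 2) ^ j) := by
      rw [div_le_iff₀ (by positivity)]
      calc (α + 2) * ex k α j ≤ (α + 2) * (2 / (2 - y) + 2 * (1 / 2) ^ j) :=
            mul_le_mul_of_nonneg_left ih (by positivity)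
        _ ≤ y * k * (2 / (2 - y) + 2 * (1 / 2) ^ j) :=
            mul_le_mul_of_nonneg_right h (by positivity)
        _ = _ := by ring
    have h2 : 1 + y * (1 / (2 - y)) = 2 / (2 - y) := by field_simp; ring
    have h3 : y * (1 / 2) ^ j ≤ (1 / 2) ^ j := mul_le_of_le_one_left p0 hy
    rw [pow_succ]
    linarith

theorem ssw (hW : STW) : SSW := by
  intro y y0 y1
  refine num_pos y0 fun ε hε => ?_
  obtain ⟨η, η0, η1, η2⟩ : ∃ η : ℝ, 0 < η ∧ η ≤ 1 - y ∧ η ≤ ε / 4 :=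
    ⟨min (1 - y) (ε / 4), lt_min (by linarith) (by positivity), min_le_left _ _, min_le_right _ _⟩
  obtain ⟨j, hj⟩ := exists_pow_lt_of_lt_one (by positivity : 0 < ε / 4)
    (by norm_num : (1 / 2 : ℝ) < 1)
  filter_upwards [eventually_ge_atTop 2, eventually_ge_atTop j, num_ev (2 / η), num_ev (2 / ε),
    num_ev (2 * j * (1 + 4 / ε))] with k k2 kj k3 k4 k5 s α a0 a1 a2 h
  have k0 : (0 : ℝ) < k := by exact_mod_cast (by omega : 0 < k)
  rw [div_le_iff₀ η0] at k3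
  rw [div_le_iff₀ hε] at k4
  have b1 : α + 2 ≤ (y + η) * k := by linarith
  have b2 : α + 2 ≤ k := b1.trans (mul_le_of_le_one_left k0.le (by linarith))
  have b3 : (j : ℝ) * (1 / k + 2 / (ε * k / 2)) ≤ 1 / 2 := by
    have e : (j : ℝ) * (1 / k + 2 / (ε * k / 2)) = j * (1 + 4 / ε) / k := by field_simp; ring
    rw [e, div_le_iff₀ k0]
    linarith
  refine (hW j k s α (ε * k / 2) k2 kj a0 b2 (by positivity) (by linarith) b3 h).mono ?_
  have c1 := num_ex (by omega) a0 b1 (by linarith) j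
  have p1 : 0 < 2 - y := by linarith
  have p2 : 0 < 2 - (y + η) := by linarith
  have c2 : 2 / (2 - (y + η)) ≤ 2 / (2 - y) + 2 * η := by
    rw [div_add' _ _ _ p1.ne', div_le_div_iff₀ p2 p1]
    have : 1 * 1 ≤ (2 - y) * (2 - (y + η)) :=
      mul_le_mul (by linarith) (by linarith) zero_le_one p1.le
    nlinarith
  have c3 : (2 - 2 * y) / (2 - y) = 2 - 2 / (2 - y) := by field_simp; ring
  linarith

theorem ssn (hN : STN) : SSN := by
  intro y y0 y1
  refine num_pos y0 fun ε hε => ?_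
  have p1 : 0 < 1 + y := by linarith
  obtain ⟨η, η0, η1, η2⟩ : ∃ η : ℝ, 0 < η ∧ η ≤ (1 - y) / (1 + y) ∧ η ≤ ε / 2 :=
    ⟨min _ _, lt_min (div_pos (by linarith) p1) (by positivity), min_le_left _ _, min_le_right _ _⟩
  obtain ⟨t, t1, t2⟩ := ((eventually_ge_atTop 1).and (num_ev (2 / η))).exists
  have t0 : (0 : ℝ) < t := by exact_mod_cast t1
  obtain ⟨x, hx⟩ : ∃ x, x = 2 * y / (1 + y) + η := ⟨_, rfl⟩
  have x0 : 0 ≤ x := by rw [hx]; positivity
  have x1 : x ≤ 1 := by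
    have : 2 * y / (1 + y) + (1 - y) / (1 + y) = 1 := by field_simp; ring
    linarith
  have x2 : (2 - x) * (1 + y) = 2 - η * (1 + y) := by rw [hx]; field_simp; ring
  have x3 : y * x = 2 * y ^ 2 / (1 + y) + y * η := by rw [hx]; ring
  filter_upwards [eventually_ge_atTop 2, num_ev (4 * (8 + 8 * t) / η), num_ev (4 / ε),
    num_ev (6 + 24 / ε)] with k k2 k3 k4 k5 s α a0 a1 a2 h
  have k0 : (0 : ℝ) < k := by exact_mod_cast (by omega : 0 < k)
  rw [div_le_iff₀ η0] at k3 t2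
  rw [div_le_iff₀ hε] at k4
  have b1 : (α + 8 + 8 * t) / k ≤ y + η / 4 := by
    rw [div_le_iff₀ k0]
    linarith
  have b2 : 1 / (t : ℝ) ≤ η / 2 := by
    rw [div_le_iff₀ t0]
    linarith
  have b3 : (2 - x) * (1 + (α + 8 + 8 * t) / k) + 1 / t ≤ 2 := by
    have := mul_le_mul_of_nonneg_left b1 (by linarith : 0 ≤ 2 - x)
    nlinarith [mul_nonneg x0 η0.le, mul_nonneg y0 η0.le]
  have b4 : 3 / (k : ℝ) + 6 / (ε * k / 2) ≤ 1 / 2 := by
    have e : 3 / (k : ℝ) + 6 / (ε * k / 2) = (3 + 12 / ε) / k := by field_simp; ring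
    have e2 : 24 / ε = 2 * (12 / ε) := by ring
    rw [e, div_le_iff₀ k0]
    linarith
  refine (hN t k s α (ε * k / 2) x k2 t1 a0 (by positivity) (by linarith) x0 x1 b3 b4 h).mono ?_
  have c1 : (α + 2) * x / k ≤ y * x + ε / 2 := by
    rw [div_le_iff₀ k0]
    nlinarith [mul_le_mul_of_nonneg_right a1 x0]
  have c2 : y * η ≤ η := mul_le_of_le_one_left η0.le y1.le
  linarith

end

end Pool.Agent.MP_4060c9_nt.H38
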