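import Pool.Agent.MP_4060c9_nt.H38.RNUM

/-! Integration of the gain per step. -/

namespace Pool.Agent.MP_4060c9_nt.H38

open Finset Filter Topology

noncomputable section

def Reach (σ y : ℝ) : Prop :=
  ∀ ε : ℝ, 0 < ε → ∀ᶠ k : ℕ in atTop, ∀ l : ℕ, (σ + ε) * k ≤ l → Adm k l ((y - ε) * k)

theorem Reach.mono {σ σ' y : ℝ} (h : Reach σ y) (hσ : σ ≤ σ') : Reach σ' y := by
  intro ε hε
  filter_upwards [h ε hε] with k hk l hl
  refine hk l (le_trans ?_ hl)
  gcongr

theorem Reach.close {σ y : ℝ} (h : ∀ η, 0 < η → Reach (σ + η) y) : Reach σ y := by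
  intro ε hε
  filter_upwards [h (ε / 2) (by positivity) (ε / 2) (by positivity)] with k hk l hl
  refine (hk l (by linarith)).mono ?_
  have : (0 : ℝ) ≤ ε * k := by positivity
  linarith

theorem reach_zero : Reach 0 0 := fun ε hε => Eventually.of_forall fun k l _ =>
  (adm_zero k l).mono (by have : (0 : ℝ) ≤ ε * k := by positivity
                          linarith)

theorem Reach.seg {σ y y' r : ℝ} (h : Reach σ y) (y0 : 0 ≤ y) (hσ : y ≤ σ) (hy : y ≤ y')
    (r0 : 0 < r) (r1 : r ≤ 1) (hs : StepP y' r) : Reach (σ + (y' - y) / r) y' := by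
  intro ε hε
  obtain ⟨T, hT⟩ : ∃ T, T = (y' - y) / r := ⟨_, rfl⟩
  have T0 : 0 ≤ T := hT ▸ div_nonneg (by linarith) r0.le
  have T1 : T * r = y' - y := by rw [hT]; field_simp
  obtain ⟨η, η0, η1, η2⟩ : ∃ η : ℝ, 0 < η ∧ η ≤ r ∧ η * (1 + T) ≤ ε / 2 :=
    ⟨min r (ε / 2 / (1 + T)), lt_min r0 (by positivity), min_le_left _ _,
      (le_div_iff₀ (by positivity)).1 (min_le_right _ _)⟩
  have η3 : η ≤ ε / 2 := by nlinarith
  rw [← hT]
  filter_upwards [h η η0, eventually_atTop.2 (hs η η0), num_ev (2 / ε)] with k h1 h2 h3 l hl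
  rw [div_le_iff₀ hε] at h3
  have k0 : (0 : ℝ) ≤ k := by positivity
  obtain ⟨l₀, hl₀⟩ : ∃ l₀, l₀ = ⌈(σ + η) * k⌉₊ := ⟨_, rfl⟩
  have l1 : (σ + η) * k ≤ l₀ := hl₀ ▸ Nat.le_ceil _
  have l2 : (l₀ : ℝ) ≤ (σ + η) * k + 1 :=
    hl₀ ▸ (Nat.ceil_lt_add_one (mul_nonneg (by linarith) k0)).le
  have m1 : y * k ≤ σ * k := mul_le_mul_of_nonneg_right hσ k0
  have m2 : 0 ≤ η * k := by positivity
  have m3 : 0 ≤ y * k := by positivity
  have key : ∀ i : ℕ, Adm k (l₀ + i) (min ((y - η) * k + i * (r - η)) (y' * k)) := by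
    intro i
    induction i with
    | zero => exact (h1 l₀ l1).mono ((min_le_left _ _).trans (by simp))
    | succ i ih =>
      have i0 : (0 : ℝ) ≤ i := by positivity
      have i1 : (i : ℝ) * (r - η) ≤ i := mul_le_of_le_one_right i0 (by linarith)
      have c1 := min_le_left ((y - η) * k + i * (r - η)) (y' * k)
      refine (h2 (l₀ + i) _ (min_le_right _ _) (by push_cast; linarith)
        (by push_cast; linarith) ih).mono ?_
      rcases le_total ((y - η) * k + i * (r - η)) (y' * k) with c | c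
      · rw [min_eq_left c]
        refine (min_le_left _ _).trans ?_
        push_cast
        linarith
      · rw [min_eq_right c]
        refine (min_le_right _ _).trans ?_
        linarith
  have m4 : η * k ≤ ε / 2 * k := mul_le_mul_of_nonneg_right η3 k0
  have m5 : 0 ≤ T * k := by positivity
  have l3 : l₀ ≤ l := by
    rw [hl₀]
    refine Nat.ceil_le.2 ?_
    linarith
  obtain ⟨i, rfl⟩ := Nat.exists_eq_add_of_le l3
  refine (key i).mono (le_min ?_ (by nlinarith))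
  push_cast at hl
  have c1 : T * k ≤ i := by linarith
  have c2 := mul_le_mul_of_nonneg_right c1 (by linarith : 0 ≤ r - η)
  have c3 := mul_le_mul_of_nonneg_right η2 k0
  have c4 : T * k * (r - η) = (y' - y) * k - η * T * k := by rw [← T1]; ring
  have c5 : 0 ≤ ε * k := by positivity
  linarith

theorem Reach.pot {σ y₀ y₁ : ℝ} {φ r : ℝ → ℝ} (h : Reach σ y₀) (y0 : 0 ≤ y₀) (hσ : y₀ ≤ σ)
    (hy : y₀ ≤ y₁) (y1 : y₁ < 1) (hφ : ∀ u, 0 ≤ u → u < 1 → HasDerivAt φ (1 / r u) u)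
    (hr : ∀ u, 0 ≤ u → u < 1 → 0 < r u ∧ r u ≤ 1 ∧ StepP u (r u))
    (ha : ∀ u v, 0 ≤ u → u ≤ v → v < 1 → r v ≤ r u) :
    Reach (σ + (φ y₁ - φ y₀)) y₁ ∧ y₁ ≤ σ + (φ y₁ - φ y₀) := by
  have tan : ∀ u v, 0 ≤ u → u ≤ v → v < 1 → (v - u) / r u ≤ φ v - φ u := by
    intro u v u0 uv v1
    rcases uv.eq_or_lt with rfl | uv'
    · simp
    obtain ⟨c, hc, e⟩ := exists_hasDerivAt_eq_slope φ (fun u => 1 / r u) uv'
      (fun w hw => (hφ w (u0.trans hw.1) (hw.2.trans_lt v1)).continuousAt.continuousWithinAt)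
      fun w hw => hφ w (u0.trans hw.1.le) (hw.2.trans v1)
    have c1 := (hr c (u0.trans hc.1.le) (hc.2.trans v1)).1
    have c2 := one_div_le_one_div_of_le c1 (ha u c u0 hc.1.le (hc.2.trans v1))
    rw [e, le_div_iff₀ (by linarith)] at c2
    rwa [div_eq_mul_one_div, mul_comm]
  have tan' : ∀ u v, 0 ≤ u → u ≤ v → v < 1 → v - u ≤ φ v - φ u := by
    intro u v u0 uv v1
    obtain ⟨c1, c2, -⟩ := hr u u0 (uv.trans_lt v1)
    exact le_trans (le_div_self (by linarith) c1 c2) (tan u v u0 uv v1)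
  refine ⟨Reach.close fun η hη => ?_, by linarith [tan' y₀ y₁ y0 hy y1]⟩
  have lim : Tendsto (fun M : ℕ => y₁ + (y₁ - y₀) / M) atTop (𝓝 y₁) := by
    simpa using (tendsto_const_div_atTop_nhds_zero_nat (y₁ - y₀)).const_add y₁
  have c := (hφ y₁ (y0.trans hy) y1).continuousAt.tendsto.comp lim
  obtain ⟨M, M1, M2, M3⟩ := ((eventually_ge_atTop 1).and ((lim.eventually (gt_mem_nhds y1)).and
    (c.eventually (gt_mem_nhds (lt_add_of_pos_right _ hη))))).exists
  obtain ⟨d, hd⟩ : ∃ d, d = (y₁ - y₀) / M := ⟨_, rfl⟩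
  have M0 : (0 : ℝ) < M := by exact_mod_cast M1
  have d0 : 0 ≤ d := hd ▸ div_nonneg (by linarith) M0.le
  have d1 : y₀ + M * d = y₁ := by rw [hd]; field_simp; ring
  simp only [Function.comp, ← hd] at M2 M3
  have key : ∀ i : ℕ, i ≤ M → Reach (σ + (φ (y₀ + i * d + d) - φ (y₀ + d))) (y₀ + i * d) := by
    intro i
    induction i with
    | zero => intro _; simpa using h
    | succ i ih =>
      intro hi
      have i0 : 0 ≤ (i : ℝ) * d := by positivity
      have i1 : ((i + 1 : ℕ) : ℝ) * d ≤ M * d :=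
        mul_le_mul_of_nonneg_right (by exact_mod_cast hi) d0
      have e : y₀ + ((i + 1 : ℕ) : ℝ) * d = y₀ + i * d + d := by push_cast; ring
      have u0 : 0 ≤ y₀ + i * d + d := by linarith
      have u1 : y₀ + i * d + d + d < 1 := by linarith
      obtain ⟨c1, c2, c3⟩ := hr _ u0 (by linarith)
      have t1 := tan' (y₀ + d) (y₀ + i * d + d) (by linarith) (by linarith) (by linarith)
      have t2 := tan (y₀ + i * d + d) (y₀ + i * d + d + d) u0 (by linarith) u1
      rw [e]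
      refine ((ih (by omega)).seg (by linarith) (by linarith) (by linarith) c1 c2 c3).mono ?_
      rw [add_sub_cancel_left] at t2 ⊢
      linarith
  have := key M le_rfl
  rw [d1] at this
  refine this.mono ?_
  have d2 : d ≤ M * d := le_mul_of_one_le_left d0 (by exact_mod_cast M1)
  linarith [tan' y₀ (y₀ + d) y0 (by linarith) (by linarith)]

theorem ode_W (hW : SSW) {σ y₀ y₁ : ℝ} (h : Reach σ y₀) (y0 : 0 ≤ y₀) (hσ : y₀ ≤ σ)
    (hy : y₀ ≤ y₁) (y1 : y₁ < 1) :
    Reach (σ + ((y₁ - Real.log (1 - y₁)) / 2 - (y₀ - Real.log (1 - y₀)) / 2)) y₁ ∧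
      y₁ ≤ σ + ((y₁ - Real.log (1 - y₁)) / 2 - (y₀ - Real.log (1 - y₀)) / 2) := by
  refine h.pot (φ := fun u => (u - Real.log (1 - u)) / 2) (r := fun u => (2 - 2 * u) / (2 - u))
    y0 hσ hy y1 (fun u u0 u1 => ?_) (fun u u0 u1 => ⟨?_, ?_, hW u u0 u1⟩) fun u v u0 uv v1 => ?_
  · have p : 1 - u ≠ 0 := by linarith
    have p2 : 2 - u ≠ 0 := by linarith
    have p3 : 2 - 2 * u ≠ 0 := by linarith
    refine (((hasDerivAt_id' u).fun_sub
      (((hasDerivAt_id' u).const_sub 1).log p)).div_const 2).congr_deriv ?_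
    field_simp
    ring
  · exact div_pos (by linarith) (by linarith)
  · exact (div_le_one (by linarith)).2 (by linarith)
  · rw [div_le_div_iff₀ (by linarith) (by linarith)]
    nlinarith

theorem ode_N (hN : SSN) {y : ℝ} (y0 : 0 ≤ y) (y1 : y < 1) :
    Reach ((Real.log (1 + 2 * y) - 4 * Real.log (1 - y)) / 6) y ∧
      y ≤ (Real.log (1 + 2 * y) - 4 * Real.log (1 - y)) / 6 := by
  have e : ∀ u : ℝ, 0 ≤ u → 1 - 2 * u ^ 2 / (1 + u) = (1 - u) * (1 + 2 * u) / (1 + u) := by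
    intro u u0
    field_simp
    ring
  have := reach_zero.pot (φ := fun u => (Real.log (1 + 2 * u) - 4 * Real.log (1 - u)) / 6)
    (r := fun u => 1 - 2 * u ^ 2 / (1 + u)) le_rfl le_rfl y0 y1 (fun u u0 u1 => ?_)
    (fun u u0 u1 => ⟨?_, ?_, hN u u0 u1⟩) fun u v u0 uv v1 => ?_
  · simpa using this
  · have p : 1 - u ≠ 0 := by linarith
    have p2 : 1 + 2 * u ≠ 0 := by linarith
    have p3 : 1 + u ≠ 0 := by linarith
    refine ((((((hasDerivAt_id' u).const_mul 2).const_add 1).log p2).fun_sub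
      ((((hasDerivAt_id' u).const_sub 1).log p).const_mul 4)).div_const 6).congr_deriv ?_
    simp only [e u u0]
    field_simp
    ring
  · simp only [e u u0]
    exact div_pos (mul_pos (by linarith) (by linarith)) (by linarith)
  · have : 0 ≤ 2 * u ^ 2 / (1 + u) := by positivity
    linarith
  · have : 2 * u ^ 2 / (1 + u) ≤ 2 * v ^ 2 / (1 + v) := by
      rw [div_le_div_iff₀ (by linarith) (by linarith)]
      have v0 : 0 ≤ v := u0.trans uv
      nlinarith [mul_nonneg (sub_nonneg.2 uv) (by positivity : 0 ≤ u + v + u * v)]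
    linarith

theorem ode_tau (hW : SSW) (hN : SSN) {δ : ℝ} (d0 : 0 < δ) (d1 : δ < 1) :
    Reach (tau δ) (1 - δ) ∧ 1 - δ ≤ tau δ := by
  unfold tau
  split_ifs with h
  · have := ode_N hN (y := 1 - δ) (by linarith) (by linarith)
    rwa [show 1 + 2 * (1 - δ) = 3 - 2 * δ by ring, sub_sub_cancel] at this
  · obtain ⟨a1, a2⟩ := ode_N hN (y := 1 / 2) (by norm_num) (by norm_num)
    have := ode_W hW a1 (y₁ := 1 - δ) (by norm_num) a2 (by linarith) (by linarith)
    have e : (Real.log (1 + 2 * (1 / 2)) - 4 * Real.log (1 - 1 / 2)) / 6 +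
        ((1 - δ - Real.log (1 - (1 - δ))) / 2 - (1 / 2 - Real.log (1 - 1 / 2)) / 2) =
        (1 / 2 + 2 / 3 * Real.log 2 - δ - Real.log δ) / 2 := by
      rw [sub_sub_cancel, show (1 + 2 * (1 / 2) : ℝ) = 2 by norm_num,
        show (1 - 1 / 2 : ℝ) = 2⁻¹ by norm_num, Real.log_inv]
      ring
    rwa [e] at this

theorem sode (hW : SSW) (hN : SSN) : SODE := by
  intro δ σ d0 d1 hσ
  obtain ⟨a1, a2⟩ := ode_tau hW hN d0 d1
  obtain ⟨r, hr⟩ : ∃ r, r = (2 - 2 * (1 - δ / 2)) / (2 - (1 - δ / 2)) := ⟨_, rfl⟩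
  have r0 : 0 < r := hr ▸ div_pos (by linarith) (by linarith)
  have r1 : r ≤ 1 := hr ▸ (div_le_one (by linarith)).2 (by linarith)
  have hs : StepP (1 - δ / 2) r := hr ▸ hW _ (by linarith) (by linarith)
  obtain ⟨η, η0, η1, η2⟩ : ∃ η : ℝ, 0 < η ∧ η ≤ δ / 2 ∧ η ≤ (σ - tau δ) / 2 * r :=
    ⟨min _ _, lt_min (by positivity) (mul_pos (by linarith) r0), min_le_left _ _, min_le_right _ _⟩
  have hs' : StepP (1 - δ + η) r := by
    intro ε hε
    obtain ⟨k₀, hk⟩ := hs ε hε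
    refine ⟨k₀, fun k h s α h1 => hk k h s α (h1.trans ?_)⟩
    exact mul_le_mul_of_nonneg_right (by linarith) (by positivity)
  have a3 := a1.seg (by linarith) a2 (by linarith) r0 r1 hs'
  have η3 : η / r ≤ (σ - tau δ) / 2 := (div_le_iff₀ r0).2 η2
  have η4 : η ≤ η / r := le_div_self η0.le r0 r1
  refine ⟨1 - δ + η - η / 2, by linarith, eventually_atTop.1 ?_⟩
  filter_upwards [a3 (η / 2) (by positivity)] with k hk l hl
  refine hk l (le_trans (mul_le_mul_of_nonneg_right ?_ (by positivity)) hl)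
  rw [add_sub_cancel_left]
  linarith

end

end Pool.Agent.MP_4060c9_nt.H38
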