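import Pool.Agent.MP_4060c9_nt.H38.Kit

/-! Row RC: the iteration for the congruence count. -/

namespace Pool.Agent.MP_4060c9_nt.H38

open Finset

theorem rc_mono {q H P : ℕ} {X X' : ℝ} (h : CB q H P X) (h' : X ≤ X') : CB q H P X' :=
  fun π hπ a b => (h π hπ a b).trans h'

theorem rc_down {R q p : ℕ} (h : Pw R q) (hp : p.Prime) (hd : p ∣ q) :
    ∃ d, Pw R d ∧ d ∣ q / p ∧ d ∣ q ∧ R * d ≤ q ∧ q ≤ 16 * R ^ 2 * d ∧
      (q = p * d ∨ (q = p * p * d ∧ d.primeFactors.card + 1 ≤ q.primeFactors.card)) := by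
  obtain ⟨⟨d, hd2⟩, h1, h2⟩ := h.2 p hp hd
  have hR : 1 ≤ R := by have := hp.pos; omega
  have hc : ∀ r : ℕ, r.Prime → r ≠ p → (r ^ 2).Coprime p := fun r hr e =>
    ((Nat.coprime_primes hr hp).2 e).pow_left 2
  have d0 : 0 < d := Nat.pos_of_ne_zero fun e => by
    have := h.1
    rw [hd2, e, mul_zero] at this
    exact lt_irrefl _ this
  have e1 : q = p * (p * d) := by rw [hd2]; ring
  have e2 : q / p = p * d := by rw [e1, Nat.mul_div_cancel_left _ hp.pos]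
  by_cases h3 : p ∣ d
  · refine ⟨p * d, ⟨Nat.mul_pos hp.pos d0, fun r hr hr' => ?_⟩, e2 ▸ dvd_rfl, e1 ▸ dvd_mul_left _ _,
      e1 ▸ Nat.mul_le_mul_right _ h1.le, e1.le.trans (Nat.mul_le_mul_right _ (by nlinarith)),
      Or.inl e1⟩
    have h4 := h.2 r hr (hr'.trans (e1 ▸ dvd_mul_left _ _))
    refine ⟨?_, h4.2⟩
    by_cases e : r = p
    · rw [e, sq]
      exact Nat.mul_dvd_mul_left p h3
    · exact (hc r hr e).dvd_of_dvd_mul_left (e1 ▸ h4.1)
  · have e3 : d ∣ q := hd2 ▸ dvd_mul_left _ _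
    refine ⟨d, ⟨d0, fun r hr hr' => ?_⟩, e2 ▸ dvd_mul_left _ _, e3,
      hd2 ▸ Nat.mul_le_mul_right _ (by nlinarith),
      hd2.le.trans (Nat.mul_le_mul_right _ (by nlinarith)), Or.inr ⟨by rw [hd2, sq], ?_⟩⟩
    · have h4 := h.2 r hr (hr'.trans e3)
      have e : r ≠ p := fun e => h3 (e ▸ hr')
      exact ⟨(hc r hr e).dvd_of_dvd_mul_left ((hc r hr e).dvd_of_dvd_mul_left (e1 ▸ h4.1)), h4.2⟩
    · refine card_lt_card ⟨Nat.primeFactors_mono e3 h.1.ne', fun h5 => h3 ?_⟩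
      exact Nat.dvd_of_mem_primeFactors (h5 (Nat.mem_primeFactors.2 ⟨hp, hd, h.1.ne'⟩))

theorem rc_card {R q i : ℕ} (hR : 4 ≤ R) (h : Pw R q) (hq : q ≤ R ^ i) :
    q.primeFactors.card ≤ i := by
  have h2 : R ^ q.primeFactors.card ≤ ∏ p ∈ q.primeFactors, p :=
    Finset.pow_card_le_prod _ _ _ fun p hp => (h.2 p (Nat.prime_of_mem_primeFactors hp)
      (Nat.dvd_of_mem_primeFactors hp)).2.1.le
  exact (Nat.pow_le_pow_iff_right (by omega)).1
    (h2.trans ((Nat.le_of_dvd h.1 (Nat.prod_primeFactors_dvd q)).trans hq))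

theorem rc_pow {R a j : ℕ} (hR : 4 ≤ R) (ha : a ≤ j) : (4 * R) ^ a ≤ R ^ (2 * j) := by
  rw [pow_mul]
  exact (Nat.pow_le_pow_left (by nlinarith) a).trans (Nat.pow_le_pow_right (by positivity) ha)

theorem rc_step {R Γ N : ℕ} (hR : 4 ≤ R) (hΓ : Γ ≤ N) : ∀ q, Pw R q → N < q * Γ →
    ∃ q', q' ∣ q ∧ Pw R q' ∧ q' * Γ ≤ N ∧ N ≤ 16 * R ^ 2 * q' * Γ := by
  intro q
  induction q using Nat.strong_induction_on with
  | _ q ih =>
    intro h hN
    have q1 : q ≠ 1 := fun e => by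
      rw [e, one_mul] at hN
      omega
    obtain ⟨p, hp, hd⟩ := Nat.exists_prime_and_dvd q1
    obtain ⟨d, d1, -, d2, d3, d4, -⟩ := rc_down h hp hd
    by_cases e : d * Γ ≤ N
    · exact ⟨d, d2, d1, e, hN.le.trans (Nat.mul_le_mul_right _ d4)⟩
    · obtain ⟨q', a, b⟩ := ih d (by nlinarith [d1.1]) d1 (not_le.1 e)
      exact ⟨q', a.trans d2, b⟩

theorem rc_ceil {q a : ℕ} (ha : 1 ≤ a) (h : a ≤ q) : q ≤ (q + a - 1) / a * a ∧
    (q + a - 1) / a * a ≤ 2 * q ∧ ∀ c, q ≤ c * a → (q + a - 1) / a ≤ c := by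
  have e := Nat.div_add_mod' (q + a - 1) a
  have e2 := Nat.mod_lt (q + a - 1) ha
  refine ⟨by omega, by omega, fun c hc => Nat.le_of_lt_succ ?_⟩
  rw [Nat.div_lt_iff_lt_mul ha, Nat.succ_mul]
  omega

theorem rc_unit (hD : SRD) {R i j Γ t q H P : ℕ} {L : ℝ} (hL : 0 ≤ L) (hR : 4 ≤ R) (hΓ : 1 ≤ Γ)
    (hl : 4 * (1 + (i + 1) * Real.log R) ≤ R)
    (ih : ∀ H P : ℕ, 1 ≤ H → H ≤ P → H ≤ Γ ^ t → CB q H P (L * ((H * P) ^ 2 / q + H * P * Γ)))
    (h : Pw R q) (hq : q ≤ R ^ i) (hj : q.primeFactors.card ≤ j) (h1 : 1 ≤ H) (h2 : H ≤ P)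
    (h3 : H ≤ Γ ^ (t + 1)) (h4 : q * Γ ≤ H * P) (h5 : P ≤ q) :
    UB q H P (20 * (R : ℝ) ^ (6 * j + 4) * L * (H * P) ^ 2 / q) := by
  obtain ⟨a1, a2, a3⟩ := rc_ceil (h1.trans h2) h5
  obtain ⟨b1, b2, -⟩ := rc_ceil h1 (h2.trans h5)
  have a4 := a3 _ (b1.trans (Nat.mul_le_mul_left _ h2))
  have a5 := a3 (Γ ^ t) (Nat.le_of_mul_le_mul_right (h4.trans ((Nat.mul_le_mul_right P h3).trans
    (le_of_eq (by ring)))) hΓ)
  generalize (q + P - 1) / P = H' at a1 a2 a4 a5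
  generalize (q + H - 1) / H = P' at b1 b2 a4
  have a6 : 1 ≤ H' := Nat.pos_of_ne_zero fun e => by
    have := h.1
    rw [e, zero_mul] at a1
    omega
  have hU := hD q H P H' P' _ h.1 (fun p hp hd => (h.2 p hp hd).1) h1 (h1.trans h2) a1 b1
    (ih H' P' a6 a4 a5)
  have q0 : (0 : ℝ) < q := by exact_mod_cast h.1
  refine fun π hπ a b => (hU π hπ a b).trans (mul_le_mul_of_nonneg_left ?_ q0.le)
  have r1 : (rad q : ℝ) ≤ (R : ℝ) ^ (2 * j) := by
    have := (Finset.prod_le_pow_card _ _ _ fun p hp => (h.2 p (Nat.prime_of_mem_primeFactors hp)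
      (Nat.dvd_of_mem_primeFactors hp)).2.2).trans (rc_pow hR hj)
    exact_mod_cast this
  have r2 : LL q ≤ R := by
    have e1 : q + 1 ≤ R ^ (i + 1) := by
      have := Nat.one_le_pow i R (by omega)
      rw [pow_succ]
      nlinarith
    have e2 : Real.log (q + 1) ≤ (i + 1) * Real.log R := by
      have := Real.log_le_log (by positivity) (show (q : ℝ) + 1 ≤ (R : ℝ) ^ (i + 1) by
        exact_mod_cast e1)
      rwa [Real.log_pow, Nat.cast_add, Nat.cast_one] at this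
    unfold LL
    linarith
  have r3 : 0 ≤ LL q := by
    have := Real.log_nonneg (show (1 : ℝ) ≤ q + 1 by linarith)
    unfold LL
    linarith
  have r4 : (rad q : ℝ) ^ 3 * LL q ^ 4 ≤ (R : ℝ) ^ (6 * j + 4) := by
    rw [pow_add, show 6 * j = 2 * j * 3 by ring, pow_mul]
    gcongr
  obtain ⟨N, hN⟩ : ∃ N : ℝ, (H : ℝ) * P = N := ⟨_, rfl⟩
  obtain ⟨N', hN'⟩ : ∃ N' : ℝ, (H' : ℝ) * P' = N' := ⟨_, rfl⟩
  have n1 : N * N' ≤ 4 * q ^ 2 := by
    have : H * P * (H' * P') ≤ 4 * q ^ 2 := by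
      calc H * P * (H' * P') = H' * P * (P' * H) := by ring
        _ ≤ 2 * q * (2 * q) := Nat.mul_le_mul a2 b2
        _ = _ := by ring
    rw [← hN, ← hN']
    exact_mod_cast this
  have n2 : (q : ℝ) * Γ ≤ N := by
    rw [← hN]
    exact_mod_cast h4
  have g1 : (1 : ℝ) ≤ Γ := by exact_mod_cast hΓ
  have n3 : (q : ℝ) ≤ N := le_trans (by nlinarith) n2
  have n4 : 0 ≤ N' := by rw [← hN']; positivity
  have n0 : 0 ≤ N := q0.le.trans n3
  rw [hN, hN']
  have r5 : (N / q) ^ 2 * (N' ^ 2 / q + N' * Γ) ≤ 20 * N ^ 2 / q := by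
    have e : (N / q) ^ 2 * (N' ^ 2 / q + N' * Γ) =
        ((N * N') ^ 2 + N * (N * N') * (q * Γ)) / q ^ 2 / q := by
      field_simp
    rw [e]
    refine div_le_div_of_nonneg_right ((div_le_iff₀ (by positivity)).2 ?_) q0.le
    have e1 : (N * N') ^ 2 ≤ (4 * q ^ 2) * (4 * N ^ 2) := by
      rw [sq]
      exact mul_le_mul n1 (n1.trans (by gcongr)) (by positivity) (by positivity)
    have e2 : N * (N * N') * (q * Γ) ≤ N * (4 * q ^ 2) * N := by gcongr
    linarith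
  calc _ = (rad q : ℝ) ^ 3 * LL q ^ 4 * L * ((N / q) ^ 2 * (N' ^ 2 / q + N' * Γ)) := by ring
    _ ≤ (R : ℝ) ^ (6 * j + 4) * L * (20 * N ^ 2 / q) := by gcongr
    _ = _ := by ring

theorem rc_fin (hT : SRT) (hM : SRM) (hS : SRR) {R i j Γ H P : ℕ} {Z : ℝ} (hR : 4 ≤ R)
    (h1 : 1 ≤ P) (hZ : 2 * ((H : ℝ) * P) ^ 2 ≤ Z)
    (hU : ∀ q, Pw R q → q ≤ R ^ i → q.primeFactors.card ≤ j → q * Γ ≤ H * P → P ≤ q →
      UB q H P (Z / q)) : ∀ m, m ≤ i → ∀ q, Pw R q → q ≤ R ^ m → q.primeFactors.card ≤ j →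
      q * Γ ≤ H * P → CB q H P ((1 + m) ^ m * (4 * R) ^ q.primeFactors.card * Z / q) := by
  have Z0 : 0 ≤ Z := le_trans (by positivity) hZ
  have R1 : (1 : ℝ) ≤ 4 * R := by exact_mod_cast (show 1 ≤ 4 * R by omega)
  have small : ∀ (m q : ℕ), 0 < q → q ≤ P →
      CB q H P ((1 + m) ^ m * (4 * R) ^ q.primeFactors.card * Z / q) := by
    intro m q q0 hq
    have q1 : (0 : ℝ) < q := by exact_mod_cast q0
    have q2 : (q : ℝ) ≤ P := by exact_mod_cast hq
    refine rc_mono (hT q H P q0) ((le_div_iff₀ q1).2 ?_)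
    have e1 : (1 : ℝ) ≤ (1 + m) ^ m * (4 * R) ^ q.primeFactors.card :=
      one_le_mul_of_one_le_of_one_le (one_le_pow₀ (by simp)) (one_le_pow₀ R1)
    calc _ = (H : ℝ) * P * (H * (P + q)) := by field_simp
      _ ≤ (H : ℝ) * P * (H * (P + P)) := by gcongr
      _ = 2 * ((H : ℝ) * P) ^ 2 := by ring
      _ ≤ _ := hZ.trans (le_mul_of_one_le_left Z0 e1)
  intro m
  induction m with
  | zero => exact fun _ q h hq _ _ => small 0 q h.1 (hq.trans h1)
  | succ m ih =>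
    intro hm q h hq hj hN
    rcases le_total q P with e | e
    · exact small _ q h.1 e
    have q0 : (0 : ℝ) < q := by exact_mod_cast h.1
    obtain ⟨W, hW⟩ : ∃ W : ℝ, (1 + m) ^ m * (4 * R) ^ q.primeFactors.card * Z / q = W := ⟨_, rfl⟩
    have W0 : 0 ≤ W := by rw [← hW]; positivity
    refine rc_mono (hS q H P _ (fun p => p * W) h.1 (hU q h
      (hq.trans (Nat.pow_le_pow_right (by omega) hm)) hj hN e) fun p hp => ?_) ?_
    · have p1 := Nat.prime_of_mem_primeFactors hp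
      have p2 := Nat.dvd_of_mem_primeFactors hp
      obtain ⟨d, d1, d2, d3, d4, -, d5⟩ := rc_down h p1 p2
      have d6 := card_le_card (Nat.primeFactors_mono d3 h.1.ne')
      have d0 : (0 : ℝ) < d := by exact_mod_cast d1.1
      have p0 : (0 : ℝ) < p := by exact_mod_cast p1.pos
      refine hM _ d H P _ (Nat.div_pos (Nat.le_of_dvd h.1 p2) p1.pos) d2 (rc_mono
        (ih (by omega) d d1 (Nat.le_of_mul_le_mul_left (d4.trans (hq.trans_eq (pow_succ' R m)))
          (by omega)) (d6.trans hj)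
          ((Nat.mul_le_mul_right _ (Nat.le_of_dvd h.1 d3)).trans hN)) ?_)
      rw [← hW]
      rcases d5 with d5 | ⟨d5, d7⟩
      · have e1 : (q : ℝ) = p * d := by exact_mod_cast d5
        calc _ ≤ (1 + m) ^ m * (4 * R) ^ q.primeFactors.card * Z / (d : ℝ) := by gcongr
          _ = _ := by rw [e1]; field_simp
      · have e1 : (q : ℝ) = p * p * d := by exact_mod_cast d5
        have e2 : (p : ℝ) ≤ 4 * R := by exact_mod_cast (h.2 p p1 p2).2.2
        have e3 : (4 * R : ℝ) ^ d.primeFactors.card * p ≤ (4 * R) ^ q.primeFactors.card :=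
          le_trans (by rw [pow_succ]; gcongr) (pow_le_pow_right₀ R1 d7)
        calc _ = (1 + m) ^ m * ((4 * R) ^ d.primeFactors.card * p) * Z / (p * d : ℝ) := by
              field_simp
          _ ≤ (1 + m) ^ m * (4 * R) ^ q.primeFactors.card * Z / (p * d : ℝ) := by gcongr
          _ = _ := by rw [e1]; field_simp
    · have e1 : ∑ p ∈ q.primeFactors, (p : ℝ) * W / p = q.primeFactors.card * W := by
        rw [sum_congr rfl fun p hp => mul_div_cancel_left₀ W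
          (Nat.cast_ne_zero.2 (Nat.prime_of_mem_primeFactors hp).ne_zero), sum_const, nsmul_eq_mul]
      have e2 : (q.primeFactors.card : ℝ) ≤ m + 1 := by exact_mod_cast rc_card hR h hq
      have e3 : Z / q ≤ W := by
        rw [← hW]
        exact div_le_div_of_nonneg_right (le_mul_of_one_le_left Z0 (one_le_mul_of_one_le_of_one_le
          (one_le_pow₀ (by simp)) (one_le_pow₀ R1))) q0.le
      rw [e1]
      calc _ ≤ W + (m + 1) * W := by gcongr
        _ = (1 + (m + 1)) * (1 + m) ^ m * (4 * R) ^ q.primeFactors.card * Z / q := by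
            rw [← hW]; ring
        _ ≤ (1 + (m + 1)) * (1 + (m + 1)) ^ m * (4 * R) ^ q.primeFactors.card * Z / q := by
            gcongr; linarith
        _ = _ := by push_cast; ring

theorem src : SRT → SRM → SRR → SRD → SRC := by
  intro hT hM hS hD R i j Γ hR hΓ hi hl t
  have R1 : (4 : ℝ) ≤ R := by exact_mod_cast hR
  have g1 : (1 : ℝ) ≤ Γ := by exact_mod_cast hΓ
  induction t with
  | zero =>
    intro q H P h _ _ h1 _ h3
    obtain rfl : H = 1 := le_antisymm h3 h1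
    refine rc_mono (hT q 1 P h.1) ?_
    have : (P : ℝ) ≤ P * Γ := le_mul_of_one_le_right (by positivity) g1
    calc _ = (P : ℝ) ^ 2 / q + P := by push_cast; ring
      _ ≤ (P : ℝ) ^ 2 / q + P * Γ := by linarith
      _ = _ := by push_cast; ring
  | succ t ih =>
    intro q H P h hq hj h1 h2 h3
    obtain ⟨L, hL⟩ : ∃ L : ℝ, ((R : ℝ) ^ (8 * j + 8)) ^ t = L := ⟨_, rfl⟩
    have L1 : 1 ≤ L := hL ▸ one_le_pow₀ (one_le_pow₀ (by linarith))
    rw [pow_succ, hL]
    rw [hL] at ih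
    have hF : ∀ q, Pw R q → q ≤ R ^ i → q.primeFactors.card ≤ j → q * Γ ≤ H * P →
        CB q H P (L * ((R : ℝ) ^ (8 * j + 5) / 16) * ((H * P) ^ 2 / q)) := by
      intro q h hq hj hN
      have e0 : (1 : ℝ) ≤ (R : ℝ) ^ (6 * j + 4) * L :=
        one_le_mul_of_one_le_of_one_le (one_le_pow₀ (by linarith)) L1
      refine rc_mono (rc_fin hT hM hS (Z := 20 * (R : ℝ) ^ (6 * j + 4) * L * (H * P) ^ 2) hR
        (h1.trans h2) (mul_le_mul_of_nonneg_right (by linarith) (sq_nonneg _))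
        (fun q h hq hj hN hP => rc_unit hD (by linarith) hR hΓ hl
          (fun H P => ih q H P h hq hj) h hq hj h1 h2 h3 hN hP) i le_rfl q h hq hj hN) ?_
      have e1 : (4 * R : ℝ) ^ q.primeFactors.card ≤ (R : ℝ) ^ (2 * j) := by
        exact_mod_cast rc_pow hR hj
      have e2 : 320 * (1 + i : ℝ) ^ i ≤ R := by exact_mod_cast hi
      calc _ = L * (320 * (1 + i : ℝ) ^ i * (4 * R) ^ q.primeFactors.card * R ^ (6 * j + 4) / 16) *
            ((H * P) ^ 2 / q) := by ring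
        _ ≤ L * (R * R ^ (2 * j) * R ^ (6 * j + 4) / 16) * ((H * P) ^ 2 / q) := by gcongr
        _ = _ := by ring
    have p1 : (R : ℝ) ^ (8 * j + 7) ≤ R ^ (8 * j + 8) := pow_le_pow_right₀ (by linarith) (by omega)
    have p2 : (R : ℝ) ^ (8 * j + 5) / 16 ≤ R ^ (8 * j + 8) :=
      (div_le_self (by positivity) (by norm_num)).trans
        (pow_le_pow_right₀ (by linarith) (by omega))
    have p3 : (0 : ℝ) ≤ (H * P) ^ 2 / q := by positivity
    have p4 : (0 : ℝ) ≤ H * P * Γ := by positivity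
    rcases le_or_gt (q * Γ) (H * P) with e | e
    · refine rc_mono (hF q h hq hj e) ?_
      gcongr
      linarith
    rcases le_total (H * P) Γ with e' | e'
    · refine hM q 1 H P _ h.1 (one_dvd q) (rc_mono (hT 1 H P one_pos) ?_)
      have e1 : (H : ℝ) * P ≤ Γ := by exact_mod_cast e'
      have e2 : (1 : ℝ) ≤ P := by exact_mod_cast h1.trans h2
      have e3 : (2 : ℝ) ≤ L * R ^ (8 * j + 8) := le_trans (le_trans (by linarith)
        (le_self_pow₀ (a := (R : ℝ)) (by linarith) (by omega)))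
        (le_mul_of_one_le_left (by positivity) L1)
      calc _ = (H : ℝ) * P * (H * (P + 1)) := by simp
        _ ≤ (H : ℝ) * P * (H * (P + P)) := by gcongr
        _ = 2 * (H * P * (H * P)) := by ring
        _ ≤ L * R ^ (8 * j + 8) * ((H * P) ^ 2 / q + H * P * Γ) := by
            refine mul_le_mul e3 ?_ (by positivity) (by positivity)
            exact le_add_of_nonneg_of_le p3 (by gcongr)
    · obtain ⟨d, d1, d2, d3, d4⟩ := rc_step hR e' q h e
      refine hM q d H P _ h.1 d1 (rc_mono (hF d d2 ((Nat.le_of_dvd h.1 d1).trans hq)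
        ((card_le_card (Nat.primeFactors_mono d1 h.1.ne')).trans hj) d3) ?_)
      have d0 : (0 : ℝ) < d := by exact_mod_cast d2.1
      have e1 : (H : ℝ) * P ≤ 16 * R ^ 2 * d * Γ := by exact_mod_cast d4
      have e2 : ((H : ℝ) * P) ^ 2 / d ≤ 16 * R ^ 2 * (H * P * Γ) := by
        rw [div_le_iff₀ d0, sq]
        exact (mul_le_mul_of_nonneg_left e1 (by positivity)).trans (le_of_eq (by ring))
      calc _ ≤ L * ((R : ℝ) ^ (8 * j + 5) / 16) * (16 * R ^ 2 * (H * P * Γ)) := by gcongr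
        _ = L * R ^ (8 * j + 7) * (H * P * Γ) := by ring
        _ ≤ _ := by
            gcongr
            linarith

end Pool.Agent.MP_4060c9_nt.H38
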