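import Pool.Agent.MP_4060c9_nt.H38.Kit

/-! The second extraction with `h` free. -/

namespace Pool.Agent.MP_4060c9_nt.H38

open Polynomial Finset Filter

noncomputable section

/-- The unit that has to be prime to the extracted modulus. -/
def rsx_J (k μ : ℕ) (a : ℕ × ℕ) : ℕ :=
  (a.2 + a.1 * μ) * a.2 * ((a.2 + a.1 * μ) ^ (k - 1) - a.2 ^ (k - 1))

theorem rsx_mem {P μ : ℕ} {a : ℕ × ℕ} :
    a ∈ Z2 P μ ↔ (1 ≤ a.1 ∧ a.1 ≤ P) ∧ (1 ≤ a.2 ∧ a.2 ≤ P) ∧ a.2 + a.1 * μ ≤ P := by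
  simp only [Z2, mem_filter, mem_product, mem_Icc, and_assoc]

theorem rsx_J_ok {k P μ : ℕ} (hk : 2 ≤ k) (hμ : 1 ≤ μ) {a : ℕ × ℕ} (ha : a ∈ Z2 P μ) :
    rsx_J k μ a ≠ 0 ∧ rsx_J k μ a ≤ P ^ (k + 1) := by
  obtain ⟨⟨h1, -⟩, ⟨h3, h4⟩, h5⟩ := rsx_mem.1 ha
  have h6 : 1 ≤ a.1 * μ := Nat.mul_pos h1 hμ
  have h7 : a.2 ^ (k - 1) < (a.2 + a.1 * μ) ^ (k - 1) :=
    Nat.pow_lt_pow_left (by omega) (by omega)
  refine ⟨?_, ?_⟩
  · unfold rsx_J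
    exact Nat.mul_ne_zero (Nat.mul_ne_zero (by omega) (by omega)) (by omega)
  · have h8 : (a.2 + a.1 * μ) ^ (k - 1) ≤ P ^ (k - 1) := Nat.pow_le_pow_left h5 _
    have h9 : P ^ (k + 1) = P * P * P ^ (k - 1) := by
      rw [show k + 1 = 1 + 1 + (k - 1) by omega, pow_add, pow_add, pow_one]
    rw [h9]
    unfold rsx_J
    exact Nat.mul_le_mul (Nat.mul_le_mul h5 h4) ((Nat.sub_le _ _).trans h8)

theorem rsx_card (P μ : ℕ) : (Z2 P μ).card ≤ P ^ 2 := by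
  refine (card_filter_le _ _).trans (le_of_eq ?_)
  rw [card_product, Nat.card_Icc, Nat.add_sub_cancel, sq]

theorem rsx_small {R : ℕ} {PP : Finset ℕ} (h : IsPP R PP) {a m j : ℕ} (hm : Pr PP a m)
    (h0 : 0 < j) (hj : j < R) : j.Coprime m := by
  refine Nat.coprime_of_dvd fun p hp h1 h2 => ?_
  have h3 := (h.1 p (Pr.prime h hp hm h2)).2.1
  have h4 := Nat.le_of_dvd h0 h1
  omega

theorem rsx_rad {m k : ℕ} (hk : k ≠ 0) : rad (m ^ k) ∣ m := by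
  unfold rad
  rw [Nat.primeFactors_pow _ hk]
  exact Nat.prod_primeFactors_dvd m

/-- The parameters attached to a base point are admissible. -/
theorem rsx_ok {q k : ℕ} (hk : 1 ≤ k) {x y μ h g g' u u' : ℤ} (hxy : x = y + μ * h)
    (hg : g * x + u * q = 1) (hg' : g' * y + u' * q = 1)
    (hD : IsCoprime (x ^ (k - 1) - y ^ (k - 1)) q) (he : IsCoprime (k : ℤ) q)
    (he' : IsCoprime ((k : ℤ) - 1) q) : (Par.mk (x ^ k) (y ^ k) g g' μ k).Ok q := by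
  have hx : IsCoprime x q := ⟨g, u, hg⟩
  have hy : IsCoprime y q := ⟨g', u', hg'⟩
  have hd : IsCoprime (x - y) q := hD.of_isCoprime_of_dvd_left (sub_dvd_pow_sub_pow x y _)
  have ex : x ^ k = x ^ (k - 1) * x := by rw [← pow_succ, Nat.sub_add_cancel hk]
  have ey : y ^ k = y ^ (k - 1) * y := by rw [← pow_succ, Nat.sub_add_cancel hk]
  refine ⟨hx.pow_left, hy.pow_left, ⟨x, u, by linear_combination hg⟩,
    ⟨y, u', by linear_combination hg'⟩, ?_, hk, he, he', ?_, ?_⟩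
  · exact hd.of_isCoprime_of_dvd_left ⟨h, by linear_combination hxy⟩
  · have h1 := hd.neg_left.add_mul_left_left (x * u' - y * u)
    exact h1.of_isCoprime_of_dvd_left ⟨x * y, by linear_combination x * hg' - y * hg⟩
  · have h1 := hD.add_mul_left_left (y ^ (k - 1) * u' - x ^ (k - 1) * u)
    have e : x ^ k * g - y ^ k * g' =
        x ^ (k - 1) - y ^ (k - 1) + q * (y ^ (k - 1) * u' - x ^ (k - 1) * u) := by
      rw [ex, ey]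
      linear_combination x ^ (k - 1) * hg - y ^ (k - 1) * hg'
    show IsCoprime (x ^ k * g - y ^ k * g') q
    rwa [e]

theorem rsx_val {q : ℤ} (k : ℕ) {x y μ g g' u u' : ℤ} (hg : g * x + u * q = 1)
    (hg' : g' * y + u' * q = 1) (a : ℤ × ℤ) :
    (Par.mk (x ^ k) (y ^ k) g g' μ k).val a ≡ (a.2 + μ * a.1) ^ k - a.2 ^ k [ZMOD q] := by
  have h1 : g * x ≡ 1 [ZMOD q] := Int.modEq_iff_dvd.2 ⟨u, by linear_combination -hg⟩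
  have h2 : g' * y ≡ 1 [ZMOD q] := Int.modEq_iff_dvd.2 ⟨u', by linear_combination -hg'⟩
  have e : (Par.mk (x ^ k) (y ^ k) g g' μ k).val a =
      (g * x) ^ k * (a.2 + μ * a.1) ^ k - (g' * y) ^ k * a.2 ^ k := by
    simp only [Par.val, mul_pow]
    ring
  rw [e]
  have h3 := ((h1.pow k).mul_right ((a.2 + μ * a.1) ^ k)).sub ((h2.pow k).mul_right (a.2 ^ k))
  simpa only [one_pow, one_mul] using h3

theorem rsx_d (k μ : ℕ) (a : ℕ × ℕ) :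
    ((d2 (fun z => z ^ k) μ a : ℕ) : ℤ) = ((a.2 : ℤ) + μ * a.1) ^ k - (a.2 : ℤ) ^ k := by
  unfold d2
  rw [Nat.cast_sub (Nat.pow_le_pow_left (Nat.le_add_right _ _) _)]
  push_cast
  ring

theorem rsx_fam {P μ m ρ : ℕ} (hμ : 1 ≤ μ) (hρ : ρ ∣ m) {q g g' u u' al al' : ℤ} (e : ℕ)
    (hq : (m : ℤ) ∣ q) {a a₀ : ℕ × ℕ} (hg : g * ((a₀.2 : ℤ) + μ * a₀.1) + u * q = 1)
    (hg' : g' * (a₀.2 : ℤ) + u' * q = 1) (ha : a ∈ Z2 P μ)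
    (hc : (a.1 % m, a.2 % m) = (a₀.1 % m, a₀.2 % m)) :
    ((a.1 : ℤ), (a.2 : ℤ)) ∈ (Par.mk al al' g g' μ e).fam ρ 1 1 (P / μ) P := by
  obtain ⟨⟨h1, -⟩, ⟨h3, h4⟩, h5⟩ := rsx_mem.1 ha
  have h6 : a.1 ≤ P / μ := (Nat.le_div_iff_mul_le hμ).2 (by omega)
  have c1 : (m : ℤ) ∣ (a.1 : ℤ) - a₀.1 := (Nat.modEq_iff_dvd.1 (Prod.ext_iff.1 hc).1.symm)
  have c2 : (m : ℤ) ∣ (a.2 : ℤ) - a₀.2 := (Nat.modEq_iff_dvd.1 (Prod.ext_iff.1 hc).2.symm)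
  have hρ' : (ρ : ℤ) ∣ m := Int.natCast_dvd_natCast.2 hρ
  obtain ⟨t, rfl⟩ := hq
  obtain ⟨t1, e1⟩ := c1
  obtain ⟨t2, e2⟩ := c2
  simp only [Par.fam, box, mem_filter, mem_product, mem_Ico]
  refine ⟨⟨⟨by omega, by omega⟩, by omega, by omega⟩, hρ'.trans ?_, hρ'.trans ?_⟩
  · exact ⟨g * (t2 + μ * t1) - u * t, by linear_combination hg + g * e2 + g * μ * e1⟩
  · exact ⟨g' * t2 - u' * t, by linear_combination hg' + g' * e2⟩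

/-- The number of congruent pairs in one class. -/
theorem rsx_class {k R P μ a m c : ℕ} {PP : Finset ℕ} {C : ℝ} (h : IsPP R PP) (hk : 2 ≤ k)
    (hkR : k < R) (hμ : 1 ≤ μ) (hC : 1 ≤ C) (hm : Pr PP a m) (hc : m ^ k ∣ c)
    (hCB : CB (m ^ k) (P / μ) P C) (F : Finset ((ℕ × ℕ) × (ℕ × ℕ))) (r : ℕ × ℕ)
    (hF : ∀ b ∈ F, (b.1 ∈ Z2 P μ ∧ m.Coprime (rsx_J k μ b.1)) ∧ b.2 ∈ Z2 P μ ∧
      (b.1.1 % m, b.1.2 % m) = r ∧ (b.2.1 % m, b.2.2 % m) = r ∧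
      d2 (fun z => z ^ k) μ b.1 ≡ d2 (fun z => z ^ k) μ b.2 [MOD c]) : (F.card : ℝ) ≤ C := by
  rcases F.eq_empty_or_nonempty with rfl | ⟨b₀, hb₀⟩
  · simp only [card_empty, Nat.cast_zero]
    linarith
  obtain ⟨⟨-, hJ⟩, -, hr, -, -⟩ := hF b₀ hb₀
  set a₀ := b₀.1
  have hJ' : IsCoprime ((rsx_J k μ a₀ : ℕ) : ℤ) ((m ^ k : ℕ) : ℤ) :=
    Nat.isCoprime_iff_coprime.2 (hJ.symm.pow_right k)
  have eJ : ((rsx_J k μ a₀ : ℕ) : ℤ) = ((a₀.2 : ℤ) + μ * a₀.1) * a₀.2 *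
      (((a₀.2 : ℤ) + μ * a₀.1) ^ (k - 1) - (a₀.2 : ℤ) ^ (k - 1)) := by
    unfold rsx_J
    rw [Nat.cast_mul, Nat.cast_sub (Nat.pow_le_pow_left (Nat.le_add_right _ _) _)]
    push_cast
    ring
  rw [eJ] at hJ'
  obtain ⟨g, u, hg⟩ := hJ'.of_mul_left_left.of_mul_left_left
  obtain ⟨g', u', hg'⟩ := hJ'.of_mul_left_left.of_mul_left_right
  have he : IsCoprime (k : ℤ) ((m ^ k : ℕ) : ℤ) :=
    Nat.isCoprime_iff_coprime.2 ((rsx_small h hm (by omega) hkR).pow_right k)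
  have he' : IsCoprime ((k : ℤ) - 1) ((m ^ k : ℕ) : ℤ) := by
    have h1 : IsCoprime ((k - 1 : ℕ) : ℤ) ((m ^ k : ℕ) : ℤ) :=
      Nat.isCoprime_iff_coprime.2 ((rsx_small h hm (by omega) (by omega)).pow_right k)
    rwa [Nat.cast_sub (by omega), Nat.cast_one] at h1
  have hok := rsx_ok (by omega : 1 ≤ k) rfl hg hg' hJ'.of_mul_left_right he he'
  refine le_trans ?_ (hCB _ hok 1 1)
  have hq : (m : ℤ) ∣ ((m ^ k : ℕ) : ℤ) :=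
    Int.natCast_dvd_natCast.2 (dvd_pow_self m (by omega))
  have hρ : rad (m ^ k) ∣ m := rsx_rad (by omega)
  unfold cnt
  refine Nat.cast_le.2 (card_le_card_of_injOn
    (fun b => (((b.1.1 : ℤ), (b.1.2 : ℤ)), ((b.2.1 : ℤ), (b.2.2 : ℤ)))) (fun b hb => ?_) ?_)
  · obtain ⟨⟨h1, -⟩, h2, h3, h4, h5⟩ := hF b hb
    refine mem_coe.2 (mem_filter.2 ⟨mem_product.2 ⟨rsx_fam hμ hρ k hq hg hg' h1 (h3.trans hr.symm),
      rsx_fam hμ hρ k hq hg hg' h2 (h4.trans hr.symm)⟩, ?_⟩)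
    have h6 := Nat.modEq_iff_dvd.1 (h5.of_dvd hc).symm
    rw [rsx_d, rsx_d] at h6
    have h7 := rsx_val k (μ := μ) hg hg' ((b.1.1 : ℤ), (b.1.2 : ℤ))
    have h8 := rsx_val k (μ := μ) hg hg' ((b.2.1 : ℤ), (b.2.2 : ℤ))
    exact ((h8.trans (Int.modEq_iff_dvd.2 h6)).trans h7.symm).dvd
  · rintro ⟨⟨a1, a2⟩, a3, a4⟩ - ⟨⟨b1, b2⟩, b3, b4⟩ - e
    simpa only [Prod.mk.injEq, Nat.cast_inj] using e

theorem srsx : SEX → SRSX := by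
  intro hEX k s n D R PP A B Λ Ω ctx P μ a b C hμ hP hB hC hCB
  have hR1 : (1 : ℝ) ≤ R := by exact_mod_cast (by have := ctx.R4; omega : 1 ≤ R)
  have hW : (1 : ℝ) ≤ (R : ℝ) ^ (8 * a) * C := one_le_mul_of_one_le_of_one_le (one_le_pow₀ hR1) hC
  have key := hEX k s n D R PP A B Λ Ω ctx (ℕ × ℕ) (Z2 P μ) (d2 (fun z => z ^ k) μ) (rsx_J k μ)
    a b 0 ((R : ℝ) ^ (8 * a) * C)
    (fun z hz => ⟨(rsx_J_ok ctx.k2 hμ hz).1, (rsx_J_ok ctx.k2 hμ hz).2.trans hP⟩) ?_ ?_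
  · rwa [zero_add] at key
  · have h1 : (((Z2 P μ).card : ℕ) : ℝ) ≤ (P : ℝ) ^ 2 := by exact_mod_cast rsx_card P μ
    have h2 : (((Z2 P μ).card : ℕ) : ℝ) ^ 2 ≤ (P : ℝ) ^ 4 := by
      rw [show (P : ℝ) ^ 4 = ((P : ℝ) ^ 2) ^ 2 by ring]
      exact pow_le_pow_left₀ (by positivity) h1 2
    exact ((mul_le_mul_of_nonneg_left h2 (pow_nonneg ctx.B0 b)).trans hB).trans hW
  intro m hm c n' hc hmc _ hn'
  have hm0 := Pr.pos ctx.pp hm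
  set Z := (Z2 P μ).filter fun z => m.Coprime (rsx_J k μ z) with hZ
  have hK : ∀ z : ℕ × ℕ, (z.1 % m, z.2 % m) ∈ range m ×ˢ range m := fun z =>
    mem_product.2 ⟨mem_range.2 (Nat.mod_lt _ hm0), mem_range.2 (Nat.mod_lt _ hm0)⟩
  refine (EE_cls k s PP Z _ hc n' (fun z => (z.1 % m, z.2 % m)) (range m ×ˢ range m)
    fun z _ => hK z).trans ?_
  set F := (Z ×ˢ Z).filter fun b => (b.1.1 % m, b.1.2 % m) = (b.2.1 % m, b.2.2 % m) ∧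
    d2 (fun z => z ^ k) μ b.1 ≡ d2 (fun z => z ^ k) μ b.2 [MOD c] with hF
  have hKc : (((range m ×ˢ range m).card : ℕ) : ℝ) = (m : ℝ) ^ 2 := by
    rw [card_product, card_range, Nat.cast_mul, sq]
  have hN : (F.card : ℝ) ≤ (m : ℝ) ^ 2 * C := by
    rw [card_eq_sum_card_fiberwise (f := fun b : (ℕ × ℕ) × (ℕ × ℕ) => (b.1.1 % m, b.1.2 % m))
      (t := range m ×ˢ range m) (fun b _ => mem_coe.2 (hK b.1)), Nat.cast_sum, ← hKc,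
      ← nsmul_eq_mul]
    refine sum_le_card_nsmul _ _ _ fun r _ => ?_
    refine rsx_class ctx.pp ctx.k2 ctx.kR hμ hC hm hmc (hCB m hm) _ r fun b hb => ?_
    simp only [hF, hZ, mem_filter, mem_product] at hb
    exact ⟨hb.1.1.1, hb.1.1.2.1, hb.2, hb.1.2.1.symm.trans hb.2, hb.1.2.2⟩
  have hS : ∑ b ∈ F, ip (X ^ d2 (fun z => z ^ k) μ b.1 * GG k s PP c n')
      (X ^ d2 (fun z => z ^ k) μ b.2 * GG k s PP c n') ≤ F.card * (Ω * Λ ^ n') := by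
    rw [← nsmul_eq_mul]
    refine sum_le_card_nsmul _ _ _ fun b _ => (ip_X_pow_le _ _ _).trans ?_
    rw [nn_GG k s PP hc]
    exact ctx.hS n' hn'
  have hΩ : 0 ≤ Ω * Λ ^ n' := (mul_pos ctx.O0 (pow_pos ctx.L0 _)).le
  have hm4 : (m : ℝ) ^ 4 ≤ (R : ℝ) ^ (8 * a) := by
    have h1 : (m : ℝ) ≤ (R : ℝ) ^ (2 * a) := by exact_mod_cast (Pr.le ctx.pp ctx.R4 hm).2
    rw [show 8 * a = 2 * a * 4 by ring, pow_mul]
    exact pow_le_pow_left₀ (by positivity) h1 4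
  rw [hKc]
  calc (m : ℝ) ^ 2 * _ ≤ (m : ℝ) ^ 2 * ((m : ℝ) ^ 2 * C * (Ω * Λ ^ n')) :=
        mul_le_mul_of_nonneg_left (hS.trans (mul_le_mul_of_nonneg_right hN hΩ)) (by positivity)
    _ = (m : ℝ) ^ 4 * (C * (Ω * Λ ^ n')) := by ring
    _ ≤ (R : ℝ) ^ (8 * a) * (C * (Ω * Λ ^ n')) :=
        mul_le_mul_of_nonneg_right hm4 (mul_nonneg (by linarith) hΩ)
    _ = _ := by ring

end

end Pool.Agent.MP_4060c9_nt.H38
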