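import Pool.Agent.MP_4060c9_nt.H38.Kit

/-! The two iteration steps in terms of exponents. -/

namespace Pool.Agent.MP_4060c9_nt.H38

open Finset Filter

noncomputable section

theorem st_ctx {k s : ℕ} {α β : ℝ} (h : Adm k s α) (hk : 2 ≤ k) (hα : 0 ≤ α) (hβ : 0 < β)
    (hs : α + 1 + β ≤ s) : ∃ ω : ℝ, ∀ n : ℕ, ∀ᶠ R : ℕ in atTop, ∀ PP, IsPP R PP →
      Ctx k s n ((k + 1) * (n + 1)) R PP ((R : ℝ) ^ α) ((R : ℝ) ^ (-β)) ((R : ℝ) ^ (2 * s - α))
        ((R : ℝ) ^ ω) := by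
  obtain ⟨ω, h⟩ := h
  refine ⟨ω, fun n => ?_⟩
  have s1 : 1 ≤ s := by
    have : (1 : ℝ) ≤ s := by linarith
    exact_mod_cast this
  filter_upwards [(eventually_all_finset (range (n + 1))).2 fun n' _ => h n',
    eventually_gt_atTop k, eventually_ge_atTop 4,
    eventually_ge_atTop ((2 * (4 * s ^ 2 * ((k + 1) * (n + 1))) ^ s) ^ n)] with R h1 h2 h3 h4 PP hP
  have r1 : (1 : ℝ) ≤ R := by exact_mod_cast (by omega : 1 ≤ R)
  have r0 : (0 : ℝ) < R := by linarith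
  refine ⟨hP, hk, s1, h2, h3, Nat.one_le_iff_ne_zero.2 (by positivity), h4,
    Real.one_le_rpow r1 hα, by positivity,
    Real.rpow_le_one_of_one_le_of_nonpos r1 (by linarith), by positivity, by positivity, ?_, ?_,
    fun n' hn => ?_⟩
  · rw [← Real.rpow_add r0, ← Real.rpow_natCast]
    exact Real.rpow_le_rpow_of_exponent_le r1 (by push_cast; linarith)
  · rw [← Real.rpow_add r0, ← Real.rpow_natCast]
    exact Real.rpow_le_rpow_of_exponent_le r1 (by push_cast; linarith)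
  · rw [← Real.rpow_mul_natCast r0.le, ← Real.rpow_add r0, add_comm]
    exact h1 n' (mem_range.2 (by omega)) PP hP

theorem st_bd_mono {k s n : ℕ} {PP : Finset ℕ} {Λ Ω : ℝ} (hΛ : 0 < Λ) (hΩ : 0 < Ω) {ι : Type}
    {Z : Finset ι} {d : ι → ℕ} {lo lo' : ℕ} {W W' : ℝ} (h : Bd k s n PP Λ Ω Z d lo W)
    (h1 : lo ≤ lo') (h2 : W ≤ W') : Bd k s n PP Λ Ω Z d lo' W' := fun c n' hc h3 h4 =>
  (h c n' hc (h1.trans h3) h4).trans (mul_le_mul_of_nonneg_right h2 (by positivity))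

theorem st_W {r α u P T : ℝ} (hr : 6 ≤ r) (a : ℕ) (hP : P ≤ r ^ u) (hT : T ≤ r ^ u) :
    2 * r * (r ^ α) ^ a * (r ^ (2 * a) * (P + 2 * T)) ≤ r ^ (2 + (α + 2) * a + u) := by
  have r0 : 0 < r := by linarith
  have e : r ^ (2 + (α + 2) * a + u) = r * r * (r ^ α) ^ a * (r ^ (2 * a) * r ^ u) := by
    rw [← Real.rpow_mul_natCast r0.le, ← Real.rpow_natCast r (2 * a), ← sq, ← Real.rpow_two,
      ← Real.rpow_add r0, ← Real.rpow_add r0, ← Real.rpow_add r0]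
    congr 1
    push_cast
    ring
  rw [e]
  calc 2 * r * (r ^ α) ^ a * (r ^ (2 * a) * (P + 2 * T))
      ≤ 2 * r * (r ^ α) ^ a * (r ^ (2 * a) * (3 * r ^ u)) := by gcongr; linarith
    _ = 6 * r * (r ^ α) ^ a * (r ^ (2 * a) * r ^ u) := by ring
    _ ≤ _ := by gcongr

theorem st_small {r β : ℝ} (hr : 1 ≤ r) (hβ : 0 < β) (ν c : ℕ) :
    (r ^ (-β)) ^ ⌈c * ν / β⌉₊ * (r ^ ν) ^ c ≤ 1 := by
  have r0 : 0 < r := by linarith
  rw [← Real.rpow_mul_natCast r0.le, ← pow_mul, ← Real.rpow_natCast, ← Real.rpow_add r0]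
  refine Real.rpow_le_one_of_one_le_of_nonpos hr ?_
  have := (div_le_iff₀ hβ).1 (Nat.le_ceil (c * ν / β))
  push_cast
  linarith

theorem st_top (hT : STOP) {k s n D R lo : ℕ} {PP : Finset ℕ} {α A B ω e C : ℝ}
    (hc : Ctx k s n D R PP A B ((R : ℝ) ^ (2 * s - α)) ((R : ℝ) ^ ω)) (h4 : 4 ^ n ≤ R)
    (hM : ((n + 1) ^ n) ^ 2 ≤ R) (hlo : lo ≤ n)
    (h : Bd k s n PP ((R : ℝ) ^ (2 * s - α)) ((R : ℝ) ^ ω) (Icc 1 (R ^ (n + 1))) (fun z => z ^ k)
      lo ((R : ℝ) ^ (e * (n + 1) + C))) :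
    SS k (s + 1) PP n ≤ (R : ℝ) ^ ((2 * (s + 1 : ℕ) - (α + 2 - e)) * n + (1 + e + C + ω)) := by
  have r0 : (0 : ℝ) < R := by exact_mod_cast (by have := hc.R4; omega : 0 < R)
  refine (hT k s n R PP hc.pp h4).trans ?_
  have h1 : (((n + 1) ^ n : ℕ) : ℝ) ^ 2 ≤ (R : ℝ) ^ (1 : ℝ) := by
    rw [Real.rpow_one]
    exact_mod_cast hM
  refine (mul_le_mul h1 (h 1 n one_pos hlo le_rfl) (EE_nonneg _ _ _ _ _ _ _)
    (by positivity)).trans (le_of_eq ?_)
  rw [← Real.rpow_mul_natCast r0.le, ← Real.rpow_add r0, ← Real.rpow_add r0, ← Real.rpow_add r0]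
  congr 1
  push_cast
  ring

theorem st_B {k n R : ℕ} (h : k ^ (k + 1) ≤ R) :
    k * (k * R ^ (n + 1)) ^ k ≤ R ^ ((k + 1) * (n + 1)) := by
  rcases Nat.eq_zero_or_pos R with rfl | hR
  · rcases Nat.eq_zero_or_pos k with rfl | hk
    · simp
    · exact absurd h (not_le.2 (by positivity))
  calc k * (k * R ^ (n + 1)) ^ k = k ^ (k + 1) * R ^ (k * (n + 1)) := by ring
    _ ≤ R ^ (n + 1) * R ^ (k * (n + 1)) :=
      Nat.mul_le_mul_right _ (h.trans (Nat.le_self_pow (by omega) R))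
    _ = _ := by ring

theorem st_ex {k : ℕ} {α : ℝ} (hk : 2 ≤ k) (hα : 0 ≤ α) (h : α + 2 ≤ k) (j : ℕ) :
    0 ≤ ex k α j ∧ ex k α j ≤ 2 := by
  have k0 : (0 : ℝ) < k := by exact_mod_cast (by omega : 0 < k)
  induction j with
  | zero => simp [ex]
  | succ j ih =>
    obtain ⟨h1, h2⟩ := ih
    simp only [ex]
    refine ⟨by positivity, ?_⟩
    have : (α + 2) * ex k α j / (2 * k) ≤ 1 := by
      rw [div_le_one (by positivity)]
      nlinarith
    linarith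

theorem stw (hC : SCH) (hG : SGOOD) (hT : STOP) : STW := by
  intro j k s α β hk hj hα hαk hβ hs hjk h
  obtain ⟨ω, hω⟩ := st_ctx h hk hα hβ hs
  have k0 : (0 : ℝ) < k := by exact_mod_cast (by omega : 0 < k)
  refine adm_of_large (ω := 1 + ex k α j + (2 * α + 8) + ω) (4 * j + 1) fun n hn => ?_
  filter_upwards [hω n, eventually_ge_atTop 6, eventually_ge_atTop (4 ^ n),
    eventually_ge_atTop (((n + 1) ^ n) ^ 2), eventually_ge_atTop (k ^ (k + 1))]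
    with R h1 h2 h3 h4 h5 PP hP
  have hc := h1 PP hP
  have r6 : (6 : ℝ) ≤ R := by exact_mod_cast h2
  have r1 : (1 : ℝ) ≤ R := by linarith
  have r0 : (0 : ℝ) < R := by linarith
  have P1 : 1 ≤ R ^ (n + 1) := Nat.one_le_pow _ _ (by omega)
  have eP : ((R ^ (n + 1) : ℕ) : ℝ) = (R : ℝ) ^ ((n : ℝ) + 1) := by
    rw [Nat.cast_pow, ← Real.rpow_natCast]
    push_cast
    rfl
  obtain ⟨L, hL⟩ : ∃ L, L = ⌈((n : ℝ) + 1) / k⌉₊ + ⌈(2 : ℕ) * ((n + 1 : ℕ) : ℝ) / β⌉₊ := ⟨_, rfl⟩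
  have key : ∀ i d, Good (R ^ (n + 1)) (R ^ ((k + 1) * (n + 1))) i d →
      Bd k s n PP ((R : ℝ) ^ (2 * s - α)) ((R : ℝ) ^ ω) (Icc 1 (R ^ (n + 1))) d (i * L)
        ((R : ℝ) ^ (ex k α i * (n + 1) + (2 * α + 8))) := by
    intro i
    induction i with
    | zero =>
      intro d _ c n' c0 _ h6
      refine (EE_triv k s PP _ d c0 n').trans (mul_le_mul ?_ (hc.hS n' h6) (nn_nonneg _)
        (by positivity))
      rw [Nat.card_Icc, Nat.add_sub_cancel, eP, ← Real.rpow_mul_natCast r0.le]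
      exact Real.rpow_le_rpow_of_exponent_le r1 (by simp only [ex]; push_cast; linarith)
    | succ i ih =>
      intro d hd
      obtain ⟨e0, e2⟩ := st_ex hk hα hαk i
      obtain ⟨a, ha⟩ : ∃ a, a = ⌈ex k α i * (n + 1) / (2 * k)⌉₊ := ⟨_, rfl⟩
      have a1 : ex k α i * (n + 1) / (2 * k) ≤ a := ha ▸ Nat.le_ceil _
      have a2 : (a : ℝ) ≤ ex k α i * (n + 1) / (2 * k) + 1 :=
        ha ▸ (Nat.ceil_lt_add_one (by positivity)).le
      have a3 : a ≤ ⌈((n : ℝ) + 1) / k⌉₊ := by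
        rw [ha]
        refine Nat.ceil_mono ?_
        rw [div_le_div_iff₀ (by positivity) k0]
        have : (0 : ℝ) ≤ (n + 1) * k := by positivity
        nlinarith
      have hY : ((R : ℝ) ^ ((ex k α i * (n + 1) + (2 * α + 8)) / 2)) ^ 2 =
          (R : ℝ) ^ (ex k α i * (n + 1) + (2 * α + 8)) := by
        rw [← Real.rpow_mul_natCast r0.le]
        congr 1
        push_cast
        ring
      have b := hC k s n _ R PP _ _ _ _ hc (R ^ (n + 1)) d a ⌈(2 : ℕ) * ((n + 1 : ℕ) : ℝ) / β⌉₊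
        (i * L) ((R : ℝ) ^ ((ex k α i * (n + 1) + (2 * α + 8)) / 2)) P1 (by positivity) hd.1
        (by rw [Nat.cast_pow]; exact st_small r1 hβ (n + 1) 2)
        (fun g g1 g2 => hY ▸ ih _ (hd.2 g g1 g2))
      refine st_bd_mono hc.L0 hc.O0 b (by rw [add_mul, one_mul, hL]; omega) ?_
      refine (st_W r6 a (u := n + 1 + (α + 4)) ?_ ?_).trans
        (Real.rpow_le_rpow_of_exponent_le r1 ?_)
      · rw [eP]
        exact Real.rpow_le_rpow_of_exponent_le r1 (by linarith)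
      · rw [eP, ← Real.rpow_natCast, ← Real.rpow_sub r0, ← Real.rpow_add r0]
        refine Real.rpow_le_rpow_of_exponent_le r1 ?_
        rw [div_le_iff₀ (by positivity)] at a1
        push_cast
        linarith
      · have := mul_le_mul_of_nonneg_left a2 (by linarith : 0 ≤ α + 2)
        have e : (1 + (α + 2) * ex k α i / (2 * k)) * (n + 1) =
            n + 1 + (α + 2) * (ex k α i * (n + 1) / (2 * k)) := by ring
        simp only [ex]
        rw [e]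
        linarith
  refine st_top hT hc h3 h4 (lo := j * L) ?_ (key j _ (hG k j _ _ P1 hj (st_B h5)))
  have l1 : (L : ℝ) ≤ (n + 1) * (1 / k + 2 / β) + 2 := by
    have b1 := (Nat.ceil_lt_add_one (by positivity : (0 : ℝ) ≤ ((n : ℝ) + 1) / k)).le
    have b2 := (Nat.ceil_lt_add_one
      (by positivity : (0 : ℝ) ≤ (2 : ℕ) * ((n + 1 : ℕ) : ℝ) / β)).le
    have e : ((n : ℝ) + 1) * (1 / k + 2 / β) =
        ((n : ℝ) + 1) / k + (2 : ℕ) * ((n + 1 : ℕ) : ℝ) / β := by push_cast; ring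
    rw [hL, e, Nat.cast_add]
    linarith
  have l2 : ((4 * j + 1 : ℕ) : ℝ) ≤ n := by exact_mod_cast hn
  have l3 : ((j * L : ℕ) : ℝ) ≤ n := by
    push_cast at l2 ⊢
    have j0 : (0 : ℝ) ≤ j := by positivity
    have := mul_le_mul_of_nonneg_left l1 j0
    have h7 := mul_le_mul_of_nonneg_left hjk (by positivity : (0 : ℝ) ≤ n + 1)
    nlinarith
  exact_mod_cast l3

theorem stn (hN : SNS) (hX : SRSX) (hR : SRC) (hG : SGOOD) (hT : STOP) : STN := by
  intro t k s α β x hk ht hα hβ hs x0 x1 hx hkβ h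
  obtain ⟨ω, hω⟩ := st_ctx h hk hα hβ hs
  have k0 : (0 : ℝ) < k := by exact_mod_cast (by omega : 0 < k)
  have t0 : (0 : ℝ) < t := by exact_mod_cast ht
  have e0 : α + 1 - (α + 2) * x / k = α + 2 - (1 + (α + 2) * x / k) := by ring
  rw [e0]
  refine adm_of_large (ω := 1 + (1 + (α + 2) * x / k) + (α + 4 + (α + 16 * t + 12) / 2) + ω) 9
    fun n hn => ?_
  obtain ⟨a, ha⟩ : ∃ a, a = ⌈x * (n + 1) / k⌉₊ := ⟨_, rfl⟩
  obtain ⟨a', ha'⟩ : ∃ a', a' = ⌈(2 - x) * (n + 1) / k⌉₊ := ⟨_, rfl⟩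
  obtain ⟨g, hg⟩ : ∃ g, g = ⌈((n : ℝ) + 1) / t⌉₊ := ⟨_, rfl⟩
  have x2 : 0 ≤ 2 - x := by linarith
  have a1 : x * (n + 1) ≤ a * k := (div_le_iff₀ k0).1 (ha ▸ Nat.le_ceil _)
  have a2 : (a : ℝ) ≤ x * (n + 1) / k + 1 := ha ▸ (Nat.ceil_lt_add_one (by positivity)).le
  have a3 : (2 - x) * (n + 1) ≤ a' * k := (div_le_iff₀ k0).1 (ha' ▸ Nat.le_ceil _)
  have a4 : (a' : ℝ) ≤ (2 - x) * (n + 1) / k + 1 := ha' ▸ (Nat.ceil_lt_add_one (by positivity)).le
  have g1 : n + 1 ≤ g * t := by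
    have : (n : ℝ) + 1 ≤ g * t := (div_le_iff₀ t0).1 (hg ▸ Nat.le_ceil _)
    exact_mod_cast this
  have g2 : (g : ℝ) ≤ (n + 1) / t + 1 := hg ▸ (Nat.ceil_lt_add_one (by positivity)).le
  have hlog : ∀ᶠ R : ℕ in atTop, 4 * (1 + (((2 * a' * k : ℕ) : ℝ) + 1) * Real.log R) ≤ R := by
    have c0 : (0 : ℝ) < 1 / (8 * (((2 * a' * k : ℕ) : ℝ) + 1)) := by positivity
    have := tendsto_natCast_atTop_atTop.eventually (Real.isLittleO_log_id_atTop.bound c0)
    filter_upwards [this, eventually_ge_atTop 8] with R h1 h2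
    have r8 : (8 : ℝ) ≤ R := by exact_mod_cast h2
    rw [Real.norm_eq_abs, id, Real.norm_eq_abs, abs_of_nonneg (by linarith : (0 : ℝ) ≤ R),
      one_div_mul_eq_div, le_div_iff₀ (by positivity)] at h1
    have := mul_le_mul_of_nonneg_right (le_abs_self (Real.log R))
      (by positivity : (0 : ℝ) ≤ 8 * (((2 * a' * k : ℕ) : ℝ) + 1))
    linarith
  filter_upwards [hω n, eventually_ge_atTop 6, eventually_ge_atTop (4 ^ n),
    eventually_ge_atTop (((n + 1) ^ n) ^ 2), eventually_ge_atTop (k ^ (k + 1)),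
    eventually_ge_atTop (320 * (1 + 2 * a' * k) ^ (2 * a' * k)), hlog]
    with R h1 h2 h3 h4 h5 h6 h7 PP hP
  have hc := h1 PP hP
  have r6 : (6 : ℝ) ≤ R := by exact_mod_cast h2
  have r1 : (1 : ℝ) ≤ R := by linarith
  have r0 : (0 : ℝ) < R := by linarith
  have P1 : 1 ≤ R ^ (n + 1) := Nat.one_le_pow _ _ (by omega)
  have eP : ((R ^ (n + 1) : ℕ) : ℝ) = (R : ℝ) ^ ((n : ℝ) + 1) := by
    rw [Nat.cast_pow, ← Real.rpow_natCast]
    push_cast
    rfl
  have low : ∀ {b m : ℕ} {u : ℝ}, Pr PP b m → u ≤ b * k → (R : ℝ) ^ u ≤ ((m ^ k : ℕ) : ℝ) := by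
    intro b m u hm hu
    have : (R ^ b) ^ k ≤ m ^ k := Nat.pow_le_pow_left (Pr.le hP hc.R4 hm).1 k
    refine (Real.rpow_le_rpow_of_exponent_le r1 hu).trans ?_
    rw [← Nat.cast_mul, Real.rpow_natCast, pow_mul]
    exact_mod_cast this
  have inner : ∀ m, Pr PP a m → Bd k s n PP ((R : ℝ) ^ (2 * s - α)) ((R : ℝ) ^ ω)
      (Z2 (R ^ (n + 1)) (m ^ k)) (d2 (fun z => z ^ k) (m ^ k))
      (a' + ⌈(4 : ℕ) * ((n + 1 : ℕ) : ℝ) / β⌉₊)
      (((R : ℝ) ^ ((n : ℝ) + 1 + (α + 16 * t + 12) / 2)) ^ 2) := by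
    intro m hm
    have m0 : 0 < m ^ k := pow_pos (Pr.pos hP hm) k
    obtain ⟨H, hH⟩ : ∃ H, H = R ^ (n + 1) / m ^ k := ⟨_, rfl⟩
    have hN' : (H : ℝ) * (R ^ (n + 1) : ℕ) ≤ (R : ℝ) ^ ((2 - x) * (n + 1)) := by
      have b1 : (H : ℝ) * (m ^ k : ℕ) ≤ (R ^ (n + 1) : ℕ) := by
        exact_mod_cast hH ▸ Nat.div_mul_le_self _ _
      have b2 : (H : ℝ) * (R : ℝ) ^ (x * (n + 1)) ≤ (R ^ (n + 1) : ℕ) :=
        (mul_le_mul_of_nonneg_left (low hm a1) (by positivity)).trans b1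
      refine le_of_mul_le_mul_right ?_ (by positivity : 0 < (R : ℝ) ^ (x * (n + 1)))
      rw [← Real.rpow_add r0, show (2 - x) * (n + 1) + x * (n + 1) = n + 1 + (n + 1) by ring,
        Real.rpow_add r0, ← eP, mul_right_comm]
      exact mul_le_mul_of_nonneg_right b2 (by positivity)
    have b := hX k s n _ R PP _ _ _ _ hc (R ^ (n + 1)) (m ^ k) a'
      ⌈(4 : ℕ) * ((n + 1 : ℕ) : ℝ) / β⌉₊
      ((R : ℝ) ^ ((8 * a' + 8) * t + (1 + (2 - x) * (n + 1) + g) : ℝ)) m0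
      (by rw [← pow_mul, mul_comm]) (by rw [Nat.cast_pow]; exact st_small r1 hβ (n + 1) 4)
      (Real.one_le_rpow r1 (by positivity)) (fun m' hm' => ?_)
    · refine st_bd_mono hc.L0 hc.O0 b le_rfl ?_
      have e : (R : ℝ) ^ (2 + (α + 8) * a' + ((8 * a' + 8) * t + (1 + (2 - x) * (n + 1) + g))) =
          R * R * ((R : ℝ) ^ α) ^ a' * ((R : ℝ) ^ (8 * a') *
            (R : ℝ) ^ ((8 * a' + 8) * t + (1 + (2 - x) * (n + 1) + g) : ℝ)) := by
        rw [← Real.rpow_mul_natCast r0.le, ← Real.rpow_natCast (R : ℝ) (8 * a'), ← sq,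
          ← Real.rpow_two, ← Real.rpow_add r0, ← Real.rpow_add r0, ← Real.rpow_add r0]
        congr 1
        push_cast
        ring
      refine le_trans (le_trans ?_ e.ge) ?_
      · gcongr
        linarith
      · rw [← Real.rpow_mul_natCast r0.le]
        refine Real.rpow_le_rpow_of_exponent_le r1 ?_
        have c1 := mul_le_mul_of_nonneg_left a4 (by positivity : 0 ≤ α + 8 + 8 * t)
        have c2 := mul_le_mul_of_nonneg_right hx (by positivity : (0 : ℝ) ≤ n + 1)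
        have e2 : ((2 - x) * (1 + (α + 8 + 8 * t) / k) + 1 / t) * (n + 1) =
            (2 - x) * (n + 1) + (α + 8 + 8 * t) * ((2 - x) * (n + 1) / k) + (n + 1) / t := by ring
        rw [e2] at c2
        push_cast
        linarith
    · rw [← hH]
      rcases Nat.eq_zero_or_pos H with H0 | H0
      · intro π _ h₀ y₀
        have : π.fam (rad (m' ^ k)) h₀ y₀ H (R ^ (n + 1)) = ∅ := by simp [Par.fam, box, H0]
        rw [this]
        simp only [cnt, product_empty, filter_empty, card_empty, Nat.cast_zero]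
        positivity
      have hHP : H ≤ R ^ (n + 1) := hH ▸ Nat.div_le_self _ _
      have pw : Pw R (m' ^ k) := by
        refine ⟨pow_pos (Pr.pos hP hm') k, fun p hp hd => ?_⟩
        have d := hp.dvd_of_dvd_pow hd
        exact ⟨(pow_dvd_pow p hk).trans (pow_dvd_pow_of_dvd d k),
          (hP.1 p (Pr.prime hP hp hm' d)).2⟩
      have c := hR R (2 * a' * k) a' (R ^ g) hc.R4 (Nat.one_le_pow _ _ (by omega)) h6 h7 t (m' ^ k)
        H (R ^ (n + 1)) pw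
        (by rw [pow_mul]; exact Nat.pow_le_pow_left (Pr.le hP hc.R4 hm').2 k)
        (by rw [Nat.primeFactors_pow _ (by omega)]; exact Pr.card hP hm') H0 hHP
        (hHP.trans (by rw [← pow_mul]; exact Nat.pow_le_pow_right (by omega) g1))
      intro π hπ h₀ y₀
      refine (c π hπ h₀ y₀).trans ?_
      have q1 := low hm' a3
      have q0 : (0 : ℝ) < (m' ^ k : ℕ) := lt_of_lt_of_le (by positivity) q1
      have G1 : (1 : ℝ) ≤ (R ^ g : ℕ) := by exact_mod_cast Nat.one_le_pow g R (by omega)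
      have N0 : (0 : ℝ) ≤ (H : ℝ) * (R ^ (n + 1) : ℕ) := by positivity
      have c1 : ((H : ℝ) * (R ^ (n + 1) : ℕ)) ^ 2 / (m' ^ k : ℕ) ≤
          (H : ℝ) * (R ^ (n + 1) : ℕ) * (R ^ g : ℕ) := by
        rw [div_le_iff₀ q0, sq, mul_assoc ((H : ℝ) * (R ^ (n + 1) : ℕ))]
        refine mul_le_mul_of_nonneg_left ((hN'.trans q1).trans ?_) N0
        exact le_mul_of_one_le_left q0.le G1
      rw [Real.rpow_add r0, ← pow_mul, ← Real.rpow_natCast]
      refine mul_le_mul (le_of_eq (by push_cast; rfl)) ?_ (by positivity) (by positivity)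
      rw [Real.rpow_add r0, Real.rpow_add r0, Real.rpow_one, Real.rpow_natCast, ← Nat.cast_pow R g]
      have c2 := mul_le_mul_of_nonneg_right hN' (by positivity : (0 : ℝ) ≤ (R ^ g : ℕ))
      have c3 : 0 ≤ (R : ℝ) ^ ((2 - x) * (n + 1)) * (R ^ g : ℕ) := by positivity
      nlinarith
  have b := hN k s n _ R PP _ _ _ _ hc (R ^ (n + 1)) (fun z => z ^ k) a
    ⌈(2 : ℕ) * ((n + 1 : ℕ) : ℝ) / β⌉₊ _ _ P1 (by positivity)
    (hG k 1 _ _ P1 (by omega) (st_B h5)).1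
    (by rw [Nat.cast_pow]; exact st_small r1 hβ (n + 1) 2) inner
  refine st_top hT hc h3 h4 ?_ (st_bd_mono hc.L0 hc.O0 b le_rfl ?_)
  · have b1 := (Nat.ceil_lt_add_one
      (by positivity : (0 : ℝ) ≤ (2 : ℕ) * ((n + 1 : ℕ) : ℝ) / β)).le
    have b2 := (Nat.ceil_lt_add_one
      (by positivity : (0 : ℝ) ≤ (4 : ℕ) * ((n + 1 : ℕ) : ℝ) / β)).le
    have b3 := mul_le_mul_of_nonneg_right hkβ (by positivity : (0 : ℝ) ≤ n + 1)
    have b4 : (9 : ℝ) ≤ n := by exact_mod_cast hn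
    have b5 : (0 : ℝ) ≤ (n + 1) / k := by positivity
    have e1 : (3 / k + 6 / β) * ((n : ℝ) + 1) = x * (n + 1) / k + (2 - x) * (n + 1) / k +
        (n + 1) / k + (2 : ℕ) * ((n + 1 : ℕ) : ℝ) / β + (4 : ℕ) * ((n + 1 : ℕ) : ℝ) / β := by
      push_cast; ring
    have : ((a' + ⌈(4 : ℕ) * ((n + 1 : ℕ) : ℝ) / β⌉₊ + a +
        ⌈(2 : ℕ) * ((n + 1 : ℕ) : ℝ) / β⌉₊ : ℕ) : ℝ) ≤ n := by
      rw [Nat.cast_add, Nat.cast_add, Nat.cast_add]
      linarith
    exact_mod_cast this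
  · refine (st_W r6 a (u := n + 1 + (α + 16 * t + 12) / 2) ?_ le_rfl).trans
      (Real.rpow_le_rpow_of_exponent_le r1 ?_)
    · rw [eP]
      exact Real.rpow_le_rpow_of_exponent_le r1 (le_add_of_nonneg_right (by positivity))
    · have := mul_le_mul_of_nonneg_left a2 (by linarith : 0 ≤ α + 2)
      have e : (1 + (α + 2) * x / k) * (n + 1) = n + 1 + (α + 2) * (x * (n + 1) / k) := by ring
      rw [e]
      linarith

end

end Pool.Agent.MP_4060c9_nt.H38
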