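import Pool.Agent.MP_4060c9_nt.H38.Kit

/-! Elementary bounds for the congruence count. -/

namespace Pool.Agent.MP_4060c9_nt.H38

open Finset ZMod

noncomputable section

theorem t_ok {π : Par} {q q' : ℕ} (h : π.Ok q) (hd : q' ∣ q) : π.Ok q' := by
  have d : (q' : ℤ) ∣ q := Int.natCast_dvd_natCast.2 hd
  exact ⟨h.al.of_isCoprime_of_dvd_right d, h.al'.of_isCoprime_of_dvd_right d,
    h.ga.of_isCoprime_of_dvd_right d, h.ga'.of_isCoprime_of_dvd_right d,
    h.mu.of_isCoprime_of_dvd_right d, h.e1, h.e.of_isCoprime_of_dvd_right d,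
    h.e'.of_isCoprime_of_dvd_right d, h.dg.of_isCoprime_of_dvd_right d,
    h.da.of_isCoprime_of_dvd_right d⟩

theorem t_fam (π : Par) {q q' : ℕ} (hq : 0 < q) (hd : q' ∣ q) (h₀ y₀ : ℤ) (H P : ℕ) :
    π.fam (rad q) h₀ y₀ H P ⊆ π.fam (rad q') h₀ y₀ H P := by
  have d : (rad q' : ℤ) ∣ rad q := Int.natCast_dvd_natCast.2
    (prod_dvd_prod_of_subset _ _ _ (Nat.primeFactors_mono hd hq.ne'))
  intro a ha
  obtain ⟨h1, h2, h3⟩ := mem_filter.1 ha
  exact mem_filter.2 ⟨h1, d.trans h2, d.trans h3⟩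

theorem t_cnt_mono {q q' : ℕ} (hd : q' ∣ q) (v : ℤ × ℤ → ℤ) {F F' : Finset (ℤ × ℤ)}
    (h : F ⊆ F') : cnt q v F ≤ cnt q' v F' := by
  refine card_le_card fun b hb => ?_
  obtain ⟨h1, h2⟩ := mem_filter.1 hb
  exact mem_filter.2 ⟨product_subset_product h h h1, (Int.natCast_dvd_natCast.2 hd).trans h2⟩

theorem srm : SRM := by
  intro q q' H P X hq hd h π hπ h₀ y₀
  exact le_trans (Nat.cast_le.2 (t_cnt_mono hd _ (t_fam π hq hd h₀ y₀ H P)))
    (h π (t_ok hπ hd) h₀ y₀)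

theorem t_geom {ρ : ℕ} {u u' : ℤ} (h : (ρ : ℤ) ∣ u - 1) (h' : (ρ : ℤ) ∣ u' - 1) (e : ℕ) :
    (ρ : ℤ) ∣ ∑ i ∈ range e, u ^ i * u' ^ (e - 1 - i) - e := by
  rw [← ZMod.intCast_zmod_eq_zero_iff_dvd] at h h' ⊢
  push_cast at h h' ⊢
  simp [sub_eq_zero.1 h, sub_eq_zero.1 h']

theorem t_hensel {π : Par} {q : ℕ} (hq : 0 < q) (hπ : π.Ok q) {h₀ y₀ : ℤ} {H P : ℕ}
    {b b' : ℤ × ℤ} (hb : b ∈ π.fam (rad q) h₀ y₀ H P) (hb' : b' ∈ π.fam (rad q) h₀ y₀ H P)
    (h1 : b.1 = b'.1) (hv : (q : ℤ) ∣ π.val b - π.val b') : (q : ℤ) ∣ b.2 - b'.2 := by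
  obtain ⟨-, p1, p2⟩ := mem_filter.1 hb
  obtain ⟨-, p3, p4⟩ := mem_filter.1 hb'
  obtain ⟨c1, e1⟩ := t_geom p1 p3 π.e
  obtain ⟨c2, e2⟩ := t_geom p2 p4 π.e
  have g1 := geom_sum₂_mul (π.ga * (b.2 + π.mu * b.1)) (π.ga * (b'.2 + π.mu * b'.1)) π.e
  have g2 := geom_sum₂_mul (π.ga' * b.2) (π.ga' * b'.2) π.e
  rw [sub_eq_iff_eq_add'.1 e1] at g1
  rw [sub_eq_iff_eq_add'.1 e2] at g2
  have e : π.val b - π.val b' = (b.2 - b'.2) * (π.e * (π.al * π.ga - π.al' * π.ga') +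
      rad q * (π.al * π.ga * c1 - π.al' * π.ga' * c2)) := by
    unfold Par.val
    rw [h1] at g1 ⊢
    linear_combination -π.al * g1 + π.al' * g2
  have r1 : (rad q : ℤ) ∣ q := Int.natCast_dvd_natCast.2 (Nat.prod_primeFactors_dvd q)
  have r3 : (q : ℤ) ∣ (rad q : ℤ) ^ q := by
    exact_mod_cast Nat.dvd_prod_primeFactors_pow_self hq.ne'
  have c := ((hπ.e.mul_left hπ.da).of_isCoprime_of_dvd_right r1).add_mul_left_left
    (π.al * π.ga * c1 - π.al' * π.ga' * c2)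
  rw [e] at hv
  exact ((c.pow_right (n := q)).of_isCoprime_of_dvd_right r3).symm.dvd_of_dvd_mul_right hv

theorem t_card_box (h₀ y₀ : ℤ) (H P : ℕ) : (box h₀ y₀ H P).card = H * P := by
  simp [box]

theorem srt : SRT := by
  intro q H P hq π hπ h₀ y₀
  have q0 : (0 : ℤ) < q := by exact_mod_cast hq
  have key : ∀ a : ℤ × ℤ, ((π.fam (rad q) h₀ y₀ H P).filter
      fun b => (q : ℤ) ∣ π.val a - π.val b).card ≤ H * (P / q + 1) := by
    intro a
    rw [← t_card_box h₀ 0 H (P / q + 1)]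
    refine card_le_card_of_injOn (fun b => (b.1, (b.2 - y₀) / q)) (fun b hb => ?_)
      fun b hb b' hb' h => ?_
    · have h1 := mem_product.1 (mem_filter.1 (mem_filter.1 (mem_coe.1 hb)).1).1
      have h2 := mem_Ico.1 h1.2
      refine mem_coe.2 (mem_product.2 ⟨h1.1, mem_Ico.2 ⟨Int.ediv_nonneg (by omega) q0.le, ?_⟩⟩)
      have := Int.ediv_le_ediv q0 (show b.2 - y₀ ≤ P by omega)
      push_cast
      omega
    · obtain ⟨m1, d1⟩ := mem_filter.1 (mem_coe.1 hb)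
      obtain ⟨m2, d2⟩ := mem_filter.1 (mem_coe.1 hb')
      have e1 : b.1 = b'.1 := (Prod.mk.inj h).1
      have e2 : (b.2 - y₀) / q = (b'.2 - y₀) / q := congrArg Prod.snd h
      have d3 := t_hensel hq hπ m1 m2 e1 (by simpa using dvd_sub d2 d1)
      have e3 : (b'.2 - y₀) % q = (b.2 - y₀) % q := Int.modEq_iff_dvd.2 (by simpa using d3)
      have e4 := Int.mul_ediv_add_emod (b.2 - y₀) q
      have e5 := Int.mul_ediv_add_emod (b'.2 - y₀) q
      rw [← e2, e3] at e5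
      exact Prod.ext e1 (by omega)
  have h1 : cnt q π.val (π.fam (rad q) h₀ y₀ H P) ≤ H * P * (H * (P / q + 1)) := by
    unfold cnt
    rw [card_filter, sum_product]
    simp only [← card_filter]
    refine (sum_le_sum fun a _ => key a).trans ?_
    rw [sum_const, smul_eq_mul]
    exact Nat.mul_le_mul_right _ ((card_filter_le _ _).trans (t_card_box _ _ _ _).le)
  refine (Nat.cast_le.2 h1).trans ?_
  push_cast
  gcongr
  exact Nat.cast_div_le

theorem t_orth {q : ℕ} (hq : 0 < q) (x : ℤ) :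
    ∑ a ∈ range q, ee q (a * x) = if (q : ℤ) ∣ x then (q : ℂ) else 0 := by
  have : NeZero q := ⟨hq.ne'⟩
  have e : ∑ a ∈ range q, ee q (a * x) = ∑ a : ZMod q, stdAddChar (a * (x : ZMod q)) := by
    refine sum_bij' (fun a _ => (a : ZMod q)) (fun a _ => a.val) (fun _ _ => mem_univ _)
      (fun a _ => mem_range.2 (ZMod.val_lt a)) (fun a ha => ZMod.val_cast_of_lt (mem_range.1 ha))
      (fun a _ => ZMod.natCast_zmod_val a) fun a _ => ?_
    rw [ee, ← stdAddChar_coe]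
    push_cast
    rfl
  rw [e, AddChar.sum_mulShift _ (isPrimitive_stdAddChar q), ZMod.card]
  simp only [ZMod.intCast_zmod_eq_zero_iff_dvd]
  split_ifs <;> simp

theorem t_parseval {q : ℕ} (hq : 0 < q) (v : ℤ × ℤ → ℤ) (F : Finset (ℤ × ℤ)) :
    ∑ a ∈ range q, ‖∑ b ∈ F, ee q (a * v b)‖ ^ 2 = q * (cnt q v F : ℝ) := by
  have e : ∀ (a : ℕ) (x y : ℤ), ee q (a * x) * (starRingEnd ℂ) (ee q (a * y)) =
      ee q (a * (x - y)) := by
    intro a x y
    simp only [ee, ← Complex.exp_conj, ← Complex.exp_add]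
    congr 1
    simp only [map_div₀, map_mul, Complex.conj_I, Complex.conj_ofReal, map_natCast, map_intCast,
      map_ofNat]
    push_cast
    ring
  apply Complex.ofReal_injective
  push_cast
  simp only [← Complex.mul_conj', map_sum, sum_mul_sum, e]
  rw [sum_comm]
  simp only [sum_comm (s := range q), t_orth hq]
  rw [cnt, card_filter, sum_product]
  push_cast
  simp only [mul_sum, mul_ite, mul_one, mul_zero]

theorem srr : SRR := by
  intro q H P X Y hq hU hY π hπ h₀ y₀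
  have q0 : (0 : ℝ) < q := by exact_mod_cast hq
  refine le_of_mul_le_mul_left ?_ q0
  rw [← t_parseval hq, ← sum_filter_add_sum_filter_not (range q) fun a => a.Coprime q, mul_add]
  refine add_le_add (hU π hπ h₀ y₀) ?_
  have h1 : ∀ p ∈ q.primeFactors, ∑ a ∈ (range q).filter (fun a => p ∣ a),
      ‖∑ b ∈ π.fam (rad q) h₀ y₀ H P, ee q (a * π.val b)‖ ^ 2 ≤ q * (Y p / p) := by
    intro p hp
    have pp := (Nat.prime_of_mem_primeFactors hp).pos
    have hC := hY p hp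
    obtain ⟨q', e⟩ := Nat.dvd_of_mem_primeFactors hp
    have q1 : 0 < q' := Nat.pos_of_ne_zero (by rintro rfl; omega)
    have d : q' ∣ q := ⟨p, by rw [e, mul_comm]⟩
    rw [show q / p = q' by rw [e, Nat.mul_div_cancel_left _ pp]] at hC
    have p0 : (p : ℝ) ≠ 0 := by exact_mod_cast pp.ne'
    have e1 : ∑ a ∈ (range q).filter (fun a => p ∣ a),
        ‖∑ b ∈ π.fam (rad q) h₀ y₀ H P, ee q (a * π.val b)‖ ^ 2 =
        ∑ a ∈ range q', ‖∑ b ∈ π.fam (rad q) h₀ y₀ H P, ee q' (a * π.val b)‖ ^ 2 := by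
      symm
      refine sum_bij (fun a _ => p * a) (fun a ha => ?_) (fun a _ a' _ h => ?_) (fun a ha => ?_)
        fun a _ => ?_
      · exact mem_filter.2 ⟨mem_range.2 (e ▸ Nat.mul_lt_mul_of_pos_left (mem_range.1 ha) pp),
          dvd_mul_right _ _⟩
      · exact Nat.eq_of_mul_eq_mul_left pp h
      · obtain ⟨h2, c, rfl⟩ := mem_filter.1 ha
        exact ⟨c, mem_range.2 (Nat.lt_of_mul_lt_mul_left (e ▸ mem_range.1 h2)), rfl⟩
      · congr 2
        refine sum_congr rfl fun b _ => ?_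
        have p1 : (p : ℂ) ≠ 0 := by exact_mod_cast pp.ne'
        have q2 : (q' : ℂ) ≠ 0 := by exact_mod_cast q1.ne'
        have e' : (q : ℂ) = p * q' := by exact_mod_cast e
        simp only [ee, e']
        congr 1
        push_cast
        field_simp
    have e2 : (q : ℝ) * (Y p / p) = q' * Y p := by
      have e' : (q : ℝ) = p * q' := by exact_mod_cast e
      rw [e']
      field_simp
    rw [e1, t_parseval q1, e2]
    refine mul_le_mul_of_nonneg_left (le_trans (Nat.cast_le.2 (t_cnt_mono dvd_rfl _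
      (t_fam π hq d h₀ y₀ H P))) (hC π (t_ok hπ d) h₀ y₀)) (by positivity)
  rw [mul_sum]
  refine le_trans ?_ (sum_le_sum h1)
  simp only [sum_filter]
  rw [sum_comm]
  refine sum_le_sum fun a _ => ?_
  split_ifs with h
  · exact sum_nonneg fun p _ => by positivity
  · obtain ⟨p, hp, d1, d2⟩ := Nat.Prime.not_coprime_iff_dvd.1 h
    refine le_trans (le_of_eq ?_) (single_le_sum (f := fun p => if p ∣ a then
      ‖∑ b ∈ π.fam (rad q) h₀ y₀ H P, ee q (a * π.val b)‖ ^ 2 else 0)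
      (fun p _ => by positivity) (Nat.mem_primeFactors.2 ⟨hp, d2, hq.ne'⟩))
    rw [if_pos d1]

end

end Pool.Agent.MP_4060c9_nt.H38
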