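import Mathlib

/-! Mean values of sums of `k`-th powers of products of primes: definitions and row statements. -/

namespace Pool.Agent.MP_4060c9_nt.H38

open Polynomial Finset Filter

noncomputable section

/-- Inner product of the coefficient sequences. -/
def ip (A B : ℕ[X]) : ℝ := ∑ i ∈ A.support, (A.coeff i : ℝ) * B.coeff i

/-- Sum of the squares of the coefficients. -/
def nn (A : ℕ[X]) : ℝ := ip A A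

/-- Coefficientwise order. -/
def Le (A B : ℕ[X]) : Prop := ∃ C, B = A + C

/-- Generating function of the values `d z`, `z ∈ Z`. -/
def gen {ι : Type} (Z : Finset ι) (d : ι → ℕ) : ℕ[X] := ∑ z ∈ Z, X ^ d z

/-- Generating function of the `k`-th powers of the products of `n` elements of `PP`. -/
def ff (k : ℕ) (PP : Finset ℕ) : ℕ → ℕ[X]
  | 0 => X
  | n + 1 => ∑ p ∈ PP, expand ℕ (p ^ k) (ff k PP n)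

def GG (k s : ℕ) (PP : Finset ℕ) (c n : ℕ) : ℕ[X] := expand ℕ c (ff k PP n ^ s)

def SS (k s : ℕ) (PP : Finset ℕ) (n : ℕ) : ℝ := nn (ff k PP n ^ s)

def EE (k s : ℕ) (PP : Finset ℕ) {ι : Type} (Z : Finset ι) (d : ι → ℕ) (c n : ℕ) : ℝ :=
  nn (gen Z d * GG k s PP c n)

/-- At most `R` primes of the interval `(R, 4 R]`. -/
def IsPP (R : ℕ) (PP : Finset ℕ) : Prop :=
  (∀ p ∈ PP, p.Prime ∧ R < p ∧ p ≤ 4 * R) ∧ PP.card ≤ R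

/-- `m` is a product of `a` elements of `PP`. -/
def Pr (PP : Finset ℕ) : ℕ → ℕ → Prop
  | 0, m => m = 1
  | a + 1, m => ∃ p ∈ PP, ∃ m', Pr PP a m' ∧ m = p * m'

/-- The exponent `2 s - α` is admissible. -/
def Adm (k s : ℕ) (α : ℝ) : Prop :=
  ∃ ω : ℝ, ∀ n : ℕ, ∀ᶠ R : ℕ in atTop, ∀ PP, IsPP R PP →
    SS k s PP n ≤ (R : ℝ) ^ ((2 * s - α) * n + ω)

structure Ctx (k s n D R : ℕ) (PP : Finset ℕ) (A B Λ Ω : ℝ) : Prop where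
  pp : IsPP R PP
  k2 : 2 ≤ k
  s1 : 1 ≤ s
  kR : k < R
  R4 : 4 ≤ R
  D1 : 1 ≤ D
  big : (2 * (4 * s ^ 2 * D) ^ s) ^ n ≤ R
  A1 : 1 ≤ A
  B0 : 0 ≤ B
  B1 : B ≤ 1
  L0 : 0 < Λ
  O0 : 0 < Ω
  hA : (R : ℝ) ^ (2 * s) ≤ A * Λ
  hB : (R : ℝ) ^ (s + 1) ≤ B * Λ
  hS : ∀ n' ≤ n, SS k s PP n' ≤ Ω * Λ ^ n'

def Bd (k s n : ℕ) (PP : Finset ℕ) (Λ Ω : ℝ) {ι : Type} (Z : Finset ι) (d : ι → ℕ) (lo : ℕ)
    (W : ℝ) : Prop :=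
  ∀ c n', 0 < c → lo ≤ n' → n' ≤ n → EE k s PP Z d c n' ≤ W * (Ω * Λ ^ n')

/-- One extraction step. -/
def SEX1 : Prop :=
  ∀ (k s D R : ℕ) (PP : Finset ℕ), IsPP R PP → 1 ≤ s → 1 ≤ D → 2 ≤ R →
    ∀ (ι : Type) (Z : Finset ι) (d J : ι → ℕ) (c n : ℕ) (M₁ M₂ : ℝ),
      (∀ z ∈ Z, J z ≠ 0 ∧ J z ≤ R ^ D) → 0 ≤ M₁ → 0 ≤ M₂ →
      (∀ p ∈ PP, EE k s PP (Z.filter fun z => p.Coprime (J z)) d (c * p ^ k) n ≤ M₁) →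
      (∀ p ∈ PP, EE k s PP Z d (c * p ^ k) n ≤ M₂) →
      EE k s PP Z d c (n + 1) ≤
        ((4 * s ^ 2 * D) ^ s : ℕ) * ((R : ℝ) ^ (2 * s) * M₁ + (R : ℝ) ^ (s + 1) * M₂)

/-- Extraction of `a` common primes that do not divide `J`. -/
def SEX : Prop :=
  ∀ (k s n D R : ℕ) (PP : Finset ℕ) (A B Λ Ω : ℝ), Ctx k s n D R PP A B Λ Ω →
    ∀ (ι : Type) (Z : Finset ι) (d J : ι → ℕ) (a b lo : ℕ) (W : ℝ),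
      (∀ z ∈ Z, J z ≠ 0 ∧ J z ≤ R ^ D) → B ^ b * (Z.card : ℝ) ^ 2 ≤ W →
      (∀ m, Pr PP a m → ∀ c n', 0 < c → m ^ k ∣ c → lo ≤ n' → n' ≤ n →
        EE k s PP (Z.filter fun z => m.Coprime (J z)) d c n' ≤ W * (Ω * Λ ^ n')) →
      Bd k s n PP Λ Ω Z d (lo + a + b) (2 * R * A ^ a * W)

/-- The pairs `(h, z)`. -/
def Z2 (P μ : ℕ) : Finset (ℕ × ℕ) := (Icc 1 P ×ˢ Icc 1 P).filter fun a => a.2 + a.1 * μ ≤ P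

def d2 (d : ℕ → ℕ) (μ : ℕ) (a : ℕ × ℕ) : ℕ := d (a.2 + a.1 * μ) - d a.2

def Tay (P B : ℕ) (d : ℕ → ℕ) : Prop :=
  ∃ J : ℕ → ℕ, (∀ z, 1 ≤ z → z ≤ P → J z ≠ 0 ∧ J z ≤ B) ∧
    ∀ z h, ∃ w, d (z + h) = d z + h * (J z + h * w)

def Good (P B : ℕ) : ℕ → (ℕ → ℕ) → Prop
  | 0, _ => True
  | j + 1, d => Tay P B d ∧ ∀ g, 1 ≤ g → g ≤ P → Good P B j fun z => d (z + g) - d z

/-- A difference step with `h` fixed. -/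
def SCH : Prop :=
  ∀ (k s n D R : ℕ) (PP : Finset ℕ) (A B Λ Ω : ℝ), Ctx k s n D R PP A B Λ Ω →
    ∀ (P : ℕ) (d : ℕ → ℕ) (a b lo : ℕ) (Y : ℝ), 1 ≤ P → 0 ≤ Y → Tay P (R ^ D) d →
      B ^ b * (P : ℝ) ^ 2 ≤ 1 →
      (∀ g, 1 ≤ g → g ≤ P →
        Bd k s n PP Λ Ω (Icc 1 P) (fun z => d (z + g) - d z) lo (Y ^ 2)) →
      Bd k s n PP Λ Ω (Icc 1 P) d (lo + a + b)
        (2 * R * A ^ a * ((R : ℝ) ^ (2 * a) * (P + 2 * (P / (R : ℝ) ^ (k * a) * Y))))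

/-- A difference step with `h` free. -/
def SNS : Prop :=
  ∀ (k s n D R : ℕ) (PP : Finset ℕ) (A B Λ Ω : ℝ), Ctx k s n D R PP A B Λ Ω →
    ∀ (P : ℕ) (d : ℕ → ℕ) (a b lo : ℕ) (Y : ℝ), 1 ≤ P → 0 ≤ Y → Tay P (R ^ D) d →
      B ^ b * (P : ℝ) ^ 2 ≤ 1 →
      (∀ m, Pr PP a m → Bd k s n PP Λ Ω (Z2 P (m ^ k)) (d2 d (m ^ k)) lo (Y ^ 2)) →
      Bd k s n PP Λ Ω (Icc 1 P) d (lo + a + b)
        (2 * R * A ^ a * ((R : ℝ) ^ (2 * a) * (P + 2 * Y)))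

def SGOOD : Prop :=
  ∀ k j P B : ℕ, 1 ≤ P → j ≤ k → k * (k * P) ^ k ≤ B → Good P B j fun z => z ^ k

def STOP : Prop :=
  ∀ (k s n R : ℕ) (PP : Finset ℕ), IsPP R PP → 4 ^ n ≤ R →
    SS k (s + 1) PP n ≤
      (((n + 1) ^ n : ℕ) : ℝ) ^ 2 * EE k s PP (Icc 1 (R ^ (n + 1))) (fun z => z ^ k) 1 n

/-! The congruence count. -/

structure Par where
  al : ℤ
  al' : ℤ
  ga : ℤ
  ga' : ℤ
  mu : ℤ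
  e : ℕ

structure Par.Ok (π : Par) (q : ℕ) : Prop where
  al : IsCoprime π.al q
  al' : IsCoprime π.al' q
  ga : IsCoprime π.ga q
  ga' : IsCoprime π.ga' q
  mu : IsCoprime π.mu q
  e1 : 1 ≤ π.e
  e : IsCoprime (π.e : ℤ) q
  e' : IsCoprime ((π.e : ℤ) - 1) q
  dg : IsCoprime (π.ga - π.ga') q
  da : IsCoprime (π.al * π.ga - π.al' * π.ga') q

def Par.val (π : Par) (a : ℤ × ℤ) : ℤ :=
  π.al * (π.ga * (a.2 + π.mu * a.1)) ^ π.e - π.al' * (π.ga' * a.2) ^ π.e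

def rad (q : ℕ) : ℕ := ∏ p ∈ q.primeFactors, p

/-- The box `[h₀, h₀ + H) × [y₀, y₀ + P)`. -/
def box (h₀ y₀ : ℤ) (H P : ℕ) : Finset (ℤ × ℤ) := Ico h₀ (h₀ + H) ×ˢ Ico y₀ (y₀ + P)

def Par.fam (π : Par) (ρ : ℕ) (h₀ y₀ : ℤ) (H P : ℕ) : Finset (ℤ × ℤ) :=
  (box h₀ y₀ H P).filter fun a =>
    (ρ : ℤ) ∣ π.ga * (a.2 + π.mu * a.1) - 1 ∧ (ρ : ℤ) ∣ π.ga' * a.2 - 1

def cnt (q : ℕ) (v : ℤ × ℤ → ℤ) (F : Finset (ℤ × ℤ)) : ℕ :=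
  ((F ×ˢ F).filter fun b => (q : ℤ) ∣ v b.1 - v b.2).card

def CB (q H P : ℕ) (X : ℝ) : Prop :=
  ∀ π : Par, π.Ok q → ∀ h₀ y₀, (cnt q π.val (π.fam (rad q) h₀ y₀ H P) : ℝ) ≤ X

def ee (q : ℕ) (x : ℤ) : ℂ := Complex.exp (2 * Real.pi * Complex.I * x / q)

def UB (q H P : ℕ) (X : ℝ) : Prop :=
  ∀ π : Par, π.Ok q → ∀ h₀ y₀, ∑ a ∈ (range q).filter (fun a => a.Coprime q),
    ‖∑ b ∈ π.fam (rad q) h₀ y₀ H P, ee q (a * π.val b)‖ ^ 2 ≤ q * X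

def SRT : Prop := ∀ q H P : ℕ, 0 < q → CB q H P (H * P * (H * (P / q + 1)))

def SRM : Prop := ∀ (q q' H P : ℕ) (X : ℝ), 0 < q → q' ∣ q → CB q' H P X → CB q H P X

def SRR : Prop :=
  ∀ (q H P : ℕ) (X : ℝ) (Y : ℕ → ℝ), 0 < q → UB q H P X →
    (∀ p ∈ q.primeFactors, CB (q / p) H P (Y p)) →
    CB q H P (X + ∑ p ∈ q.primeFactors, Y p / p)

/-- The group `1 + ρ ℤ / q` has exponent dividing `q`. -/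
def SU : Prop :=
  ∀ (q ρ j : ℕ), q ∣ ρ ^ j → ∀ u : ZMod q, (ρ : ZMod q) ∣ u - 1 → u ^ q = 1

open Classical in
/-- Stationary phase for a powerful modulus. -/
def SG : Prop :=
  ∀ (q : ℕ) [NeZero q] (ρ j e κ : ℕ), ρ ^ 2 ∣ q → q ∣ ρ ^ j → 1 ≤ e → IsUnit (e : ZMod q) →
    (κ : ZMod q) * ((e : ZMod q) - 1) = 1 →
    ∃ Γ : ZMod q → ℂ, (∀ V, ‖Γ V‖ ^ 2 ≤ (q : ℝ) * ρ) ∧
      (∀ V u, (ρ : ZMod q) ∣ u - 1 → Γ (V * u) = Γ V) ∧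
      ∀ A w : ZMod q, IsUnit A →
        ∑ t ∈ univ.filter (fun t : ZMod q => (ρ : ZMod q) ∣ t - 1),
            ZMod.stdAddChar (A * t ^ e - (e : ZMod q) * A * w * t) =
          if (ρ : ZMod q) ∣ w - 1 then
            ZMod.stdAddChar ((1 - (e : ZMod q)) * A * w ^ (κ + 1)) * Γ A else 0

/-- Fourier coefficients of an interval. -/
def cc (q : ℕ) [NeZero q] (h₀ : ℤ) (H : ℕ) (ξ : ZMod q) : ℂ :=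
  ∑ h ∈ Ico h₀ (h₀ + H), ZMod.stdAddChar (-(ξ * (h : ZMod q)))

def LL (q : ℕ) : ℝ := 4 * (1 + Real.log (q + 1))

open Classical in
/-- Covering the dual sum by boxes. -/
def SCV : Prop :=
  ∀ (q : ℕ) [NeZero q] (H P H' P' : ℕ), 1 ≤ H → 1 ≤ P → q ≤ H' * P → q ≤ P' * H →
    ∀ (gd : ZMod q × ZMod q → Prop) (Dv : ZMod q × ZMod q → ZMod q) (X : ℝ),
      (∀ η₀ ξ₀ : ℤ, ((((box η₀ ξ₀ H' P') ×ˢ (box η₀ ξ₀ H' P')).filter fun b =>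
        gd (b.1.1, b.1.2) ∧ gd (b.2.1, b.2.2) ∧
          Dv (b.1.1, b.1.2) = Dv (b.2.1, b.2.2)).card : ℝ) ≤ X) →
      ∀ h₀ y₀ : ℤ, ∑ b : ZMod q, ‖∑ a ∈ univ.filter gd,
        cc q y₀ P a.1 * cc q h₀ H a.2 * ZMod.stdAddChar (b * Dv a)‖ ^ 2 ≤
          q * ((H * P * LL q ^ 2) ^ 2 * X)

/-- Duality. -/
def SRD : Prop :=
  ∀ (q H P H' P' : ℕ) (X : ℝ), 0 < q → (∀ p : ℕ, p.Prime → p ∣ q → p ^ 2 ∣ q) → 1 ≤ H → 1 ≤ P →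
    q ≤ H' * P → q ≤ P' * H → CB q H' P' X →
    UB q H P ((rad q : ℝ) ^ 3 * LL q ^ 4 * (H * P / q) ^ 2 * X)

def Pw (R q : ℕ) : Prop := 0 < q ∧ ∀ p : ℕ, p.Prime → p ∣ q → p ^ 2 ∣ q ∧ R < p ∧ p ≤ 4 * R

/-- The p-adic Robert-Sargos bound. -/
def SRC : Prop :=
  ∀ R i j Γ : ℕ, 4 ≤ R → 1 ≤ Γ → 320 * (1 + i) ^ i ≤ R → 4 * (1 + (i + 1) * Real.log R) ≤ R →
    ∀ t q H P : ℕ, Pw R q → q ≤ R ^ i → q.primeFactors.card ≤ j → 1 ≤ H → H ≤ P → H ≤ Γ ^ t →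
      CB q H P (((R : ℝ) ^ (8 * j + 8)) ^ t * ((H * P) ^ 2 / q + H * P * Γ))

/-- The second extraction with `h` free. -/
def SRSX : Prop :=
  ∀ (k s n D R : ℕ) (PP : Finset ℕ) (A B Λ Ω : ℝ), Ctx k s n D R PP A B Λ Ω →
    ∀ (P μ a b : ℕ) (C : ℝ), 1 ≤ μ → P ^ (k + 1) ≤ R ^ D → B ^ b * (P : ℝ) ^ 4 ≤ 1 → 1 ≤ C →
      (∀ m, Pr PP a m → CB (m ^ k) (P / μ) P C) →
      Bd k s n PP Λ Ω (Z2 P μ) (d2 (fun z => z ^ k) μ) (a + b)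
        (2 * R * A ^ a * ((R : ℝ) ^ (8 * a) * C))

/-! The steps in terms of exponents. -/

def ex (k : ℕ) (α : ℝ) : ℕ → ℝ
  | 0 => 2
  | j + 1 => 1 + (α + 2) * ex k α j / (2 * k)

def STW : Prop :=
  ∀ (j k s : ℕ) (α β : ℝ), 2 ≤ k → j ≤ k → 0 ≤ α → α + 2 ≤ k → 0 < β → α + 1 + β ≤ s →
    j * (1 / k + 2 / β) ≤ 1 / 2 → Adm k s α → Adm k (s + 1) (α + 2 - ex k α j)

def STN : Prop :=
  ∀ (t k s : ℕ) (α β x : ℝ), 2 ≤ k → 1 ≤ t → 0 ≤ α → 0 < β → α + 1 + β ≤ s → 0 ≤ x → x ≤ 1 →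
    (2 - x) * (1 + (α + 8 + 8 * t) / k) + 1 / t ≤ 2 → 3 / k + 6 / β ≤ 1 / 2 →
    Adm k s α → Adm k (s + 1) (α + 1 - (α + 2) * x / k)

def StepP (y r : ℝ) : Prop :=
  ∀ ε : ℝ, 0 < ε → ∃ k₀ : ℕ, ∀ k ≥ k₀, ∀ (s : ℕ) (α : ℝ), α ≤ y * k → α + ε * k ≤ s →
    ε * k ≤ s → Adm k s α → Adm k (s + 1) (α + r - ε)

def SSW : Prop := ∀ y : ℝ, 0 ≤ y → y < 1 → StepP y ((2 - 2 * y) / (2 - y))

def SSN : Prop := ∀ y : ℝ, 0 ≤ y → y < 1 → StepP y (1 - 2 * y ^ 2 / (1 + y))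

def tau (δ : ℝ) : ℝ :=
  if 1 / 2 ≤ δ then (Real.log (3 - 2 * δ) - 4 * Real.log δ) / 6
  else (1 / 2 + 2 / 3 * Real.log 2 - δ - Real.log δ) / 2

def SODE : Prop :=
  ∀ δ σ : ℝ, 0 < δ → δ < 1 → tau δ < σ →
    ∃ y : ℝ, 1 - δ < y ∧ ∃ k₀ : ℕ, ∀ k ≥ k₀, ∀ l : ℕ, σ * k ≤ l → Adm k l (y * k)

def SFIN : Prop :=
  ∀ (k l : ℕ) (y θ : ℝ), 1 ≤ k → 1 ≤ l → 0 ≤ θ → θ < y → Adm k l (y * k) →
    ∀ᶠ x : ℝ in atTop, x ^ θ ≤ (({n : ℕ | 1 ≤ n ∧ (n : ℝ) ≤ x ∧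
      ∃ f : Fin l → ℕ, (∀ i, 0 < f i) ∧ ∑ i, f i ^ k = n}.ncard : ℕ) : ℝ)

end

end Pool.Agent.MP_4060c9_nt.H38
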